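import Pool.Agent.EBM.Pre

namespace Pool.Agent.EBM

open Finsupp Filter Topology

section
variable {𝕜 : Type*} [RCLike 𝕜] {X : Type*} [NormedAddCommGroup X] [NormedSpace 𝕜 X]

theorem vec_add (x : ℕ → X) (a b : ℕ →₀ 𝕜) : vec x (a + b) = vec x a + vec x b := map_add _ _ _

theorem vec_sub (x : ℕ → X) (a b : ℕ →₀ 𝕜) : vec x (a - b) = vec x a - vec x b := map_sub _ _ _

theorem vec_smul (x : ℕ → X) (r : 𝕜) (a : ℕ →₀ 𝕜) : vec x (r • a) = r • vec x a :=
  map_smul _ _ _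

theorem vec_zero (x : ℕ → X) : vec x (0 : ℕ →₀ 𝕜) = 0 := map_zero _

theorem vec_single (x : ℕ → X) (i : ℕ) (r : 𝕜) : vec x (single i r) = r • x i := by
  simp [vec]

theorem vec_eq_sum (x : ℕ → X) (a : ℕ →₀ 𝕜) : vec x a = ∑ i ∈ a.support, a i • x i := by
  simp [vec, Finsupp.linearCombination_apply, Finsupp.sum]

theorem comb_add (c : ℕ → (ℕ →₀ 𝕜)) (a b : ℕ →₀ 𝕜) : comb c (a + b) = comb c a + comb c b :=
  map_add _ _ _

theorem comb_smul (c : ℕ → (ℕ →₀ 𝕜)) (r : 𝕜) (a : ℕ →₀ 𝕜) : comb c (r • a) = r • comb c a :=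
  map_smul _ _ _

theorem comb_zero (c : ℕ → (ℕ →₀ 𝕜)) : comb c (0 : ℕ →₀ 𝕜) = 0 := map_zero _

theorem comb_single (c : ℕ → (ℕ →₀ 𝕜)) (i : ℕ) (r : 𝕜) : comb c (single i r) = r • c i := by
  simp [comb]

theorem comb_eq_sum (c : ℕ → (ℕ →₀ 𝕜)) (a : ℕ →₀ 𝕜) :
    comb c a = ∑ k ∈ a.support, a k • c k := by
  simp [comb, Finsupp.linearCombination_apply, Finsupp.sum]

theorem comb_apply (c : ℕ → (ℕ →₀ 𝕜)) (a : ℕ →₀ 𝕜) (i : ℕ) :
    comb c a i = ∑ k ∈ a.support, a k * c k i := by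
  rw [comb_eq_sum, Finsupp.finset_sum_apply]
  rfl

/-- Vectors of block combinations. -/
theorem vec_seqOf (x : ℕ → X) (c : ℕ → (ℕ →₀ 𝕜)) (a : ℕ →₀ 𝕜) :
    vec (seqOf x c) a = vec x (comb c a) := by
  unfold vec comb seqOf
  rw [Finsupp.apply_linearCombination]
  rfl

theorem seqOf_seqOf (x : ℕ → X) (c d : ℕ → (ℕ →₀ 𝕜)) :
    seqOf (seqOf x c) d = seqOf x (fun k => comb c (d k)) := by
  funext k
  exact vec_seqOf x c (d k)

theorem Block.lt {c : ℕ → (ℕ →₀ 𝕜)} (hc : Block c) {k l : ℕ} (hkl : k < l) {i j : ℕ}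
    (hi : i ∈ (c k).support) (hj : j ∈ (c l).support) : i < j := by
  induction l, hkl using Nat.le_induction generalizing j with
  | base => exact hc.2 k i hi j hj
  | succ l hl ih =>
    have hne := hc.1 l
    obtain ⟨m, hm⟩ := Finsupp.support_nonempty_iff.mpr hne
    exact lt_trans (ih hm) (hc.2 l m hm j hj)

theorem comb_apply_of_mem {c : ℕ → (ℕ →₀ 𝕜)} (hc : Block c) (a : ℕ →₀ 𝕜) {k i : ℕ}
    (hi : i ∈ (c k).support) : comb c a i = a k * c k i := by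
  rw [comb_apply]
  have hz : ∀ l, l ≠ k → c l i = 0 := by
    intro l hl
    by_contra h
    have h1 : i ∈ (c l).support := Finsupp.mem_support_iff.mpr h
    rcases lt_or_gt_of_ne hl with h2 | h2
    · exact lt_irrefl _ (hc.lt h2 h1 hi)
    · exact lt_irrefl _ (hc.lt h2 hi h1)
  by_cases hk : k ∈ a.support
  · rw [Finset.sum_eq_single k]
    · intro l _ hl
      rw [hz l hl, mul_zero]
    · intro h
      exact absurd hk h
  · have h0 : a k = 0 := by simpa using hk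
    rw [h0, zero_mul]
    apply Finset.sum_eq_zero
    intro l hl
    rw [hz l (by rintro rfl; exact hk hl), mul_zero]

theorem comb_apply_of_not_mem {c : ℕ → (ℕ →₀ 𝕜)} (a : ℕ →₀ 𝕜) {i : ℕ}
    (hi : ∀ k, i ∉ (c k).support) : comb c a i = 0 := by
  rw [comb_apply]
  apply Finset.sum_eq_zero
  intro l _
  have : c l i = 0 := by simpa using hi l
  rw [this, mul_zero]

theorem comb_norm_le {c : ℕ → (ℕ →₀ 𝕜)} (hc : Block c) {a b : ℕ →₀ 𝕜}
    (hab : ∀ k, ‖b k‖ ≤ ‖a k‖) (i : ℕ) : ‖comb c b i‖ ≤ ‖comb c a i‖ := by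
  by_cases h : ∃ k, i ∈ (c k).support
  · obtain ⟨k, hk⟩ := h
    rw [comb_apply_of_mem hc b hk, comb_apply_of_mem hc a hk, norm_mul, norm_mul]
    exact mul_le_mul_of_nonneg_right (hab k) (norm_nonneg _)
  · push Not at h
    rw [comb_apply_of_not_mem b h, comb_apply_of_not_mem a h]

theorem comb_ne_zero {c : ℕ → (ℕ →₀ 𝕜)} (hc : Block c) {a : ℕ →₀ 𝕜} (ha : a ≠ 0) :
    comb c a ≠ 0 := by
  obtain ⟨k, hk⟩ := Finsupp.support_nonempty_iff.mpr ha
  obtain ⟨i, hi⟩ := Finsupp.support_nonempty_iff.mpr (hc.1 k)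
  intro h
  have h1 := comb_apply_of_mem hc a hi
  rw [h] at h1
  have h2 : a k ≠ 0 := Finsupp.mem_support_iff.mp hk
  have h3 : c k i ≠ 0 := Finsupp.mem_support_iff.mp hi
  exact mul_ne_zero h2 h3 h1.symm

theorem mem_support_comb {c : ℕ → (ℕ →₀ 𝕜)} {a : ℕ →₀ 𝕜} {i : ℕ}
    (hi : i ∈ (comb c a).support) : ∃ k ∈ a.support, i ∈ (c k).support := by
  by_contra h
  push Not at h
  have : comb c a i = 0 := by
    rw [comb_apply]
    apply Finset.sum_eq_zero
    intro l hl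
    have : c l i = 0 := by simpa using h l hl
    rw [this, mul_zero]
  exact (Finsupp.mem_support_iff.mp hi) this

theorem Block.comb {c d : ℕ → (ℕ →₀ 𝕜)} (hc : Block c) (hd : Block d) :
    Block (fun k => comb c (d k)) := by
  refine ⟨fun k => comb_ne_zero hc (hd.1 k), ?_⟩
  intro k i hi j hj
  obtain ⟨l, hl, hl2⟩ := mem_support_comb hi
  obtain ⟨m, hm, hm2⟩ := mem_support_comb hj
  exact hc.lt (hd.2 k l hl m hm) hl2 hm2

theorem Block.uncK {K : ℝ} {x : ℕ → X} (hx : UncK 𝕜 K x) {c : ℕ → (ℕ →₀ 𝕜)} (hc : Block c) :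
    UncK 𝕜 K (seqOf x c) := by
  intro a b hab
  rw [vec_seqOf, vec_seqOf]
  exact hx _ _ (comb_norm_le hc hab)

theorem Unconditional.uncK {x : ℕ → X} (h : Unconditional 𝕜 x) : ∃ K : ℝ, 1 ≤ K ∧ UncK 𝕜 K x := by
  obtain ⟨K, hK, h⟩ := h
  refine ⟨max K 1, le_max_right _ _, fun a b hab => (h a b hab).trans ?_⟩
  exact mul_le_mul_of_nonneg_right (le_max_left _ _) (norm_nonneg _)

theorem Equivalent.unconditional {x y : ℕ → X} (h : Equivalent 𝕜 x y)
    (hx : Unconditional 𝕜 x) : Unconditional 𝕜 y := by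
  obtain ⟨C, hC, h⟩ := h
  obtain ⟨K, hK, hx⟩ := hx
  refine ⟨C * (K * C), by positivity, ?_⟩
  intro a b hab
  calc ‖vec y b‖ ≤ C * ‖vec x b‖ := (h b).2
    _ ≤ C * (K * ‖vec x a‖) := mul_le_mul_of_nonneg_left (hx a b hab) hC.le
    _ ≤ C * (K * (C * ‖vec y a‖)) :=
        mul_le_mul_of_nonneg_left (mul_le_mul_of_nonneg_left (h a).1 hK.le) hC.le
    _ = C * (K * C) * ‖vec y a‖ := by ring

theorem UncK.coef {K : ℝ} {x : ℕ → X} (hx : UncK 𝕜 K x) (a : ℕ →₀ 𝕜) (i : ℕ) :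
    ‖a i‖ * ‖x i‖ ≤ K * ‖vec x a‖ := by
  have h := hx a (single i (a i)) (by
    intro j
    by_cases hj : i = j
    · subst hj; simp
    · rw [Finsupp.single_eq_of_ne (Ne.symm hj)]; simp)
  rw [vec_single, norm_smul] at h
  exact h

/-- The basis `e` is unconditional under the hypotheses of the main theorem. -/
theorem unconditional_of {e : ℕ → X}
    (hmin : ∀ c : ℕ → (ℕ →₀ 𝕜), Block c → ∃ d : ℕ → (ℕ →₀ 𝕜), Block d ∧
      Equivalent 𝕜 (seqOf (seqOf e c) d) e)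
    (hunc : ∃ c : ℕ → (ℕ →₀ 𝕜), Block c ∧ Unconditional 𝕜 (seqOf e c)) :
    Unconditional 𝕜 e := by
  obtain ⟨c, hc, hu⟩ := hunc
  obtain ⟨d, hd, he⟩ := hmin c hc
  obtain ⟨K, hK, hu⟩ := hu.uncK
  refine he.unconditional ⟨K, by linarith, ?_⟩
  exact hd.uncK hu

theorem SchauderBasis.vec_inj {e : ℕ → X} (he : SchauderBasis 𝕜 e) {c : ℕ →₀ 𝕜}
    (hc : vec e c = 0) : c = 0 := by
  obtain ⟨a, _, ha⟩ := he 0
  have h1 := ha (fun _ => 0) (by simp)
  have h2 := ha (fun i => c i) (by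
    apply tendsto_atTop_of_eventually_const (i₀ := c.support.sup id + 1)
    intro n hn
    rw [← hc, vec_eq_sum]
    symm
    apply Finset.sum_subset
    · intro i hi
      have : i ≤ c.support.sup id := Finset.le_sup (f := id) hi
      simp only [Finset.mem_range]
      omega
    · intro i _ hi
      have : c i = 0 := by simpa using hi
      rw [this, zero_smul])
  ext i
  have := congrFun (h2.trans h1.symm) i
  simpa using this

theorem SchauderBasis.ne_zero {e : ℕ → X} (he : SchauderBasis 𝕜 e) (i : ℕ) : e i ≠ 0 := by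
  intro h
  have h1 : vec e (single i (1 : 𝕜)) = 0 := by rw [vec_single, h, smul_zero]
  have h2 := he.vec_inj h1
  have h3 : (single i (1 : 𝕜)) i = 0 := by rw [h2]; rfl
  simp at h3

theorem SchauderBasis.cspan_eq_top {e : ℕ → X} (he : SchauderBasis 𝕜 e) : cspan 𝕜 e = ⊤ := by
  rw [eq_top_iff]
  intro x _
  obtain ⟨a, ha, _⟩ := he x
  refine mem_closure_of_tendsto ha (Eventually.of_forall fun n => ?_)
  exact Submodule.sum_mem _ fun i _ =>
    Submodule.smul_mem _ _ (Submodule.subset_span (Set.mem_range_self i))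

end

end Pool.Agent.EBM
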