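import Pool.Agent.EBM.Bas

/-!
MODULE Iso (difficulty 2).
1. cspan_equiv. Let C be the constant of the equivalence. On finite combinations define
   T (vec x a) = vec y a. It is well defined and C-Lipschitz: if vec x a = vec x b then
   the inequality for a - b gives vec y a = vec y b. (Lean: linear map on span (range x), e.g.
   via LinearMap.range of Finsupp.linearCombination and a lift through the quotient by the
   kernel; the kernels of linearCombination x and linearCombination y coincide. Or: use
   Submodule.liftQ / LinearMap.quotKerEquivRange.) Bounded in both directions with constant C,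
   so it extends to the closures (X is complete): e.g. work with the dense inclusion of the span
   in its topological closure and ContinuousLinearMap.extend in both directions; the two
   compositions are the identity on the dense span, hence everywhere.
2. cspan_perm: both spans are equal: s i • x (σ i) is in span (range x), and
   x j = (s i)⁻¹ • (s i • x (σ i)) with i = σ.symm j.
3. blockMinimal_of: for a block family c take d from hmin; cspan (seqOf (seqOf e c) d) is
   isomorphic to cspan e = ⊤ (SchauderBasis.cspan_eq_top) by cspan_equiv, and ⊤ is isomorphic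
   to X (Submodule.topEquiv as a continuous linear equivalence, or
   LinearIsometryEquiv / ContinuousLinearEquiv.ofTop / build by hand).
-/

namespace Pool.Agent.EBM

open Finsupp Filter Topology

section
variable {𝕜 : Type*} [RCLike 𝕜] {X : Type*} [NormedAddCommGroup X] [NormedSpace 𝕜 X]

/-- The coefficients to vectors map with values in the closed span. -/
noncomputable def isoMap (x : ℕ → X) : (ℕ →₀ 𝕜) →ₗ[𝕜] cspan 𝕜 x :=
  (Finsupp.linearCombination 𝕜 x).codRestrict (cspan 𝕜 x) (fun a => by
    apply Submodule.le_topologicalClosure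
    rw [← Finsupp.range_linearCombination]
    exact LinearMap.mem_range_self _ a)

theorem isoMap_coe (x : ℕ → X) (a : ℕ →₀ 𝕜) : ((isoMap x a : cspan 𝕜 x) : X) = vec x a := rfl

theorem isoMap_dense (x : ℕ → X) : DenseRange (isoMap (𝕜 := 𝕜) x) := by
  intro z
  rw [Metric.mem_closure_iff]
  intro ε hε
  have hz : (z : X) ∈ closure ((Submodule.span 𝕜 (Set.range x) : Submodule 𝕜 X) : Set X) := z.2
  rw [Metric.mem_closure_iff] at hz
  obtain ⟨w, hw, hd⟩ := hz ε hε
  have hw' : w ∈ LinearMap.range (Finsupp.linearCombination 𝕜 x) := by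
    rw [Finsupp.range_linearCombination]
    exact hw
  obtain ⟨a, ha⟩ := hw'
  refine ⟨isoMap x a, Set.mem_range_self a, ?_⟩
  have h1 : dist z (isoMap (𝕜 := 𝕜) x a) = dist (z : X) ((isoMap (𝕜 := 𝕜) x a : cspan 𝕜 x) : X) :=
    rfl
  rw [h1, isoMap_coe]
  unfold vec
  rw [ha]
  exact hd

theorem cspan_equiv [CompleteSpace X] {x y : ℕ → X} (h : Equivalent 𝕜 x y) :
    Nonempty (cspan 𝕜 x ≃L[𝕜] cspan 𝕜 y) := by
  obtain ⟨C, hC, h⟩ := h
  have : CompleteSpace (cspan 𝕜 x) :=
    (Submodule.isClosed_topologicalClosure _).completeSpace_coe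
  have : CompleteSpace (cspan 𝕜 y) :=
    (Submodule.isClosed_topologicalClosure _).completeSpace_coe
  exact ⟨(LinearEquiv.refl 𝕜 (ℕ →₀ 𝕜)).extend (isoMap x) (isoMap y) (isoMap_dense x)
    ⟨C, fun a => (h a).2⟩ (isoMap_dense y) ⟨C, fun a => (h a).1⟩⟩

theorem cspan_perm (x : ℕ → X) (σ : ℕ ≃ ℕ) (s : ℕ → 𝕜) (hs : ∀ i, s i ≠ 0) :
    cspan 𝕜 (fun i => s i • x (σ i)) = cspan 𝕜 x := by
  have h : Submodule.span 𝕜 (Set.range (fun i => s i • x (σ i))) =
      Submodule.span 𝕜 (Set.range x) := by
    apply le_antisymm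
    · rw [Submodule.span_le]
      rintro _ ⟨i, rfl⟩
      exact Submodule.smul_mem _ _ (Submodule.subset_span (Set.mem_range_self _))
    · rw [Submodule.span_le]
      rintro _ ⟨j, rfl⟩
      have h1 : x j = (s (σ.symm j))⁻¹ • (s (σ.symm j) • x (σ (σ.symm j))) := by
        rw [smul_smul, inv_mul_cancel₀ (hs _), one_smul, Equiv.apply_symm_apply]
      rw [h1]
      exact Submodule.smul_mem _ _ (Submodule.subset_span ⟨σ.symm j, rfl⟩)
  unfold cspan
  rw [h]

theorem blockMinimal_of [CompleteSpace X] {e : ℕ → X} (he : SchauderBasis 𝕜 e)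
    (hmin : ∀ c : ℕ → (ℕ →₀ 𝕜), Block c → ∃ d : ℕ → (ℕ →₀ 𝕜), Block d ∧
      Equivalent 𝕜 (seqOf (seqOf e c) d) e) :
    BlockMinimal 𝕜 e := by
  intro c hc
  obtain ⟨d, hd, hde⟩ := hmin c hc
  refine ⟨d, hd, ?_⟩
  obtain ⟨φ⟩ := cspan_equiv hde
  exact ⟨((LinearIsometryEquiv.ofTop X (cspan 𝕜 e) he.cspan_eq_top).symm.toContinuousLinearEquiv).trans
    φ.symm⟩

end

end Pool.Agent.EBM
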