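import Pool.Agent.EBM.U0
import Mathlib.Analysis.Normed.Module.Bases

/-!
MODULE U5 (difficulty 2). Facts on Schauder bases in Mathlib's sense.
schauder_of: for x the coefficients b.coord i x give a convergent expansion (b.tendsto_proj, SchauderBasis.proj_apply); if
∑_{i<n} a i • b i → x then applying the continuous functional b.coord j: the sequence is eventually a j, so a j = coord j x.
bc_of: K = max 1 C with C from SchauderBasis.exists_norm_proj_le; vec b (a.filter (· < n)) = b.proj n (vec b a)
(linear in a; on single i r both sides are r • b i or 0).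
bc_block: for a block family c and a, n let N be the minimum of the support of c n; comb c (a.filter (· < n)) =
(comb c a).filter (· < N) (comb_apply_of_mem, comb_apply_of_not_mem and Block.lt; the indices in the support of c k are < N for k < n and
≥ N for k ≥ n), and vec (seqOf x c) a = vec x (comb c a).
bc_coef: single i (a i) = a.filter (· < i+1) - a.filter (· < i).
-/

namespace Pool.Agent.EBM

open Finsupp Filter Topology

section
variable {𝕜 : Type*} [RCLike 𝕜] {X : Type*} [NormedAddCommGroup X] [NormedSpace 𝕜 X]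

theorem U5_fp (a : ℕ →₀ 𝕜) {n j : ℕ} (h : j < n) : (a.filter (fun i => i < n)) j = a j :=
  Finsupp.filter_apply_pos (fun i => i < n) a h

theorem U5_fn (a : ℕ →₀ 𝕜) {n j : ℕ} (h : ¬ j < n) : (a.filter (fun i => i < n)) j = 0 :=
  Finsupp.filter_apply_neg (fun i => i < n) a h

theorem schauder_of (b : _root_.SchauderBasis 𝕜 X) :
    Pool.Agent.EBM.SchauderBasis 𝕜 (b.basis) := by
  intro x
  refine ⟨fun i => b.coord i x, ?_, ?_⟩
  · have h := _root_.SchauderBasis.tendsto_proj b x
    simp only [_root_.SchauderBasis.proj_apply] at h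
    exact h
  · intro a ha
    funext j
    have h1 : Tendsto (fun n => b.coord j (∑ i ∈ Finset.range n, a i • b.basis i)) atTop
        (𝓝 (b.coord j x)) := ((b.coord j).continuous.tendsto x).comp ha
    have h2 : Tendsto (fun n => b.coord j (∑ i ∈ Finset.range n, a i • b.basis i)) atTop
        (𝓝 (a j)) := by
      apply tendsto_atTop_of_eventually_const (i₀ := j + 1)
      intro n hn
      rw [map_sum, Finset.sum_eq_single j]
      · rw [map_smul, b.ortho]
        simp
      · intro i _ hij
        rw [map_smul, b.ortho]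
        simp [Ne.symm hij]
      · intro h
        exact absurd (Finset.mem_range.mpr (by omega)) h
    exact tendsto_nhds_unique h2 h1

theorem U5_vec_filter (b : _root_.SchauderBasis 𝕜 X) (a : ℕ →₀ 𝕜) (n : ℕ) :
    vec b.basis (a.filter (fun i => i < n)) = _root_.SchauderBasis.proj b n (vec b.basis a) := by
  induction a using Finsupp.induction_linear with
  | zero =>
    have h0 : (0 : ℕ →₀ 𝕜).filter (fun i => i < n) = 0 := Finsupp.filter_zero _
    rw [h0, vec_zero, map_zero]
  | add f g hf hg =>
    rw [Finsupp.filter_add, vec_add, vec_add, map_add, hf, hg]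
  | single i r =>
    rw [vec_single, map_smul, _root_.SchauderBasis.proj_apply_basis_mem]
    by_cases h : i < n
    · have h1 : (single i r).filter (fun i => i < n) = single i r :=
        Finsupp.filter_single_of_pos (fun i => i < n) h
      rw [h1, vec_single, if_pos h]
    · have h1 : (single i r).filter (fun i => i < n) = 0 :=
        Finsupp.filter_single_of_neg (fun i => i < n) h
      rw [h1, vec_zero, if_neg h, smul_zero]

theorem bc_of [CompleteSpace X] (b : _root_.SchauderBasis 𝕜 X) :
    ∃ K : ℝ, 1 ≤ K ∧ BC 𝕜 K (b.basis) := by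
  obtain ⟨C, hC⟩ := _root_.SchauderBasis.exists_norm_proj_le b
  refine ⟨max 1 C, le_max_left _ _, ?_⟩
  intro a n
  rw [U5_vec_filter]
  refine (ContinuousLinearMap.le_opNorm _ _).trans ?_
  exact mul_le_mul_of_nonneg_right ((hC n).trans (le_max_right _ _)) (norm_nonneg _)

theorem U5_comb_filter {c : ℕ → (ℕ →₀ 𝕜)} (hc : Block c) (a : ℕ →₀ 𝕜) (n : ℕ) :
    ∃ N : ℕ, comb c (a.filter (fun i => i < n)) = (comb c a).filter (fun i => i < N) := by
  have hne : (c n).support.Nonempty := Finsupp.support_nonempty_iff.mpr (hc.1 n)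
  refine ⟨(c n).support.min' hne, ?_⟩
  have hN := (c n).support.min'_mem hne
  ext i
  by_cases h : ∃ k, i ∈ (c k).support
  · obtain ⟨k, hk⟩ := h
    rw [comb_apply_of_mem hc _ hk]
    by_cases hkn : k < n
    · have h1 : i < (c n).support.min' hne := hc.lt hkn hk hN
      rw [U5_fp _ hkn, U5_fp _ h1, comb_apply_of_mem hc _ hk]
    · have h1 : ¬ i < (c n).support.min' hne := by
        rcases Nat.lt_or_ge n k with h2 | h2
        · have := hc.lt h2 hN hk
          omega
        · have h3 : k = n := by omega
          subst h3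
          exact not_lt.mpr ((c k).support.min'_le i hk)
      rw [U5_fn _ hkn, U5_fn _ h1, zero_mul]
  · push Not at h
    rw [comb_apply_of_not_mem _ h]
    by_cases h1 : i < (c n).support.min' hne
    · rw [U5_fp _ h1, comb_apply_of_not_mem _ h]
    · rw [U5_fn _ h1]

theorem bc_block {K : ℝ} {x : ℕ → X} (h : BC 𝕜 K x) {c : ℕ → (ℕ →₀ 𝕜)} (hc : Block c) :
    BC 𝕜 K (seqOf x c) := by
  intro a n
  obtain ⟨N, hN⟩ := U5_comb_filter hc a n
  rw [vec_seqOf, vec_seqOf, hN]
  exact h _ _

theorem bc_coef {K : ℝ} {x : ℕ → X} (h : BC 𝕜 K x) (a : ℕ →₀ 𝕜) (i : ℕ) :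
    ‖a i‖ * ‖x i‖ ≤ 2 * K * ‖vec x a‖ := by
  have h1 : single i (a i) = a.filter (fun j => j < i + 1) - a.filter (fun j => j < i) := by
    ext j
    rw [Finsupp.sub_apply]
    rcases lt_trichotomy j i with hj | hj | hj
    · rw [U5_fp _ (by omega : j < i + 1), U5_fp _ hj,
        Finsupp.single_eq_of_ne (by omega), sub_self]
    · subst hj
      rw [U5_fp _ (by omega : j < j + 1), U5_fn _ (by omega : ¬ j < j),
        Finsupp.single_eq_same, sub_zero]
    · rw [U5_fn _ (by omega : ¬ j < i + 1), U5_fn _ (by omega : ¬ j < i),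
        Finsupp.single_eq_of_ne (by omega), sub_self]
  have h2 := h a (i + 1)
  have h3 := h a i
  have h4 : ‖a i‖ * ‖x i‖ = ‖vec x (single i (a i))‖ := by
    rw [vec_single, norm_smul]
  rw [h4, h1, vec_sub]
  refine (norm_sub_le _ _).trans ?_
  linarith

end

end Pool.Agent.EBM
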