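import Mathlib

/-!
Block minimality and the isomorphism relation on block sequences (definitions).
-/

namespace Pool.Agent.EBM

open Finsupp Filter Topology

noncomputable section

section
variable {𝕜 : Type*} [RCLike 𝕜] {X : Type*} [NormedAddCommGroup X] [NormedSpace 𝕜 X]

/-- The vector `∑ c i • x i` with the finitely supported coefficients `c`. -/
def vec (x : ℕ → X) (c : ℕ →₀ 𝕜) : X := Finsupp.linearCombination 𝕜 x c

/-- A Schauder basis: every vector has a unique norm convergent expansion. -/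
def SchauderBasis (𝕜 : Type*) [RCLike 𝕜] {X : Type*} [NormedAddCommGroup X] [NormedSpace 𝕜 X]
    (e : ℕ → X) : Prop :=
  ∀ x : X, ∃! a : ℕ → 𝕜, Tendsto (fun n => ∑ i ∈ Finset.range n, a i • e i) atTop (𝓝 x)

/-- Nonzero coefficient vectors with successive supports. -/
def Block (c : ℕ → (ℕ →₀ 𝕜)) : Prop :=
  (∀ k, c k ≠ 0) ∧ ∀ k, ∀ i ∈ (c k).support, ∀ j ∈ (c (k + 1)).support, i < j

/-- The sequence of vectors with the coefficients `c k` with respect to `x`. -/
def seqOf (x : ℕ → X) (c : ℕ → (ℕ →₀ 𝕜)) : ℕ → X := fun k => vec x (c k)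

/-- The closed linear span of a sequence. -/
def cspan (𝕜 : Type*) [RCLike 𝕜] {X : Type*} [NormedAddCommGroup X] [NormedSpace 𝕜 X]
    (x : ℕ → X) : Submodule 𝕜 X := (Submodule.span 𝕜 (Set.range x)).topologicalClosure

/-- Every block-subspace contains a block-subspace isomorphic to the whole space. -/
def BlockMinimal (𝕜 : Type*) [RCLike 𝕜] {X : Type*} [NormedAddCommGroup X] [NormedSpace 𝕜 X]
    (e : ℕ → X) : Prop :=
  ∀ c : ℕ → (ℕ →₀ 𝕜), Block c → ∃ d : ℕ → (ℕ →₀ 𝕜), Block d ∧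
    Nonempty (X ≃L[𝕜] cspan 𝕜 (seqOf (seqOf e c) d))

/-- Equivalence of sequences. -/
def Equivalent (𝕜 : Type*) [RCLike 𝕜] {X : Type*} [NormedAddCommGroup X] [NormedSpace 𝕜 X]
    (x y : ℕ → X) : Prop :=
  ∃ C : ℝ, 0 < C ∧ ∀ a : ℕ →₀ 𝕜, ‖vec x a‖ ≤ C * ‖vec y a‖ ∧ ‖vec y a‖ ≤ C * ‖vec x a‖

/-- Unconditional sequences: decreasing the moduli of the coefficients increases the norm
at most by a constant factor. -/
def Unconditional (𝕜 : Type*) [RCLike 𝕜] {X : Type*} [NormedAddCommGroup X] [NormedSpace 𝕜 X]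
    (x : ℕ → X) : Prop :=
  ∃ K : ℝ, 0 < K ∧ ∀ a b : ℕ →₀ 𝕜, (∀ i, ‖b i‖ ≤ ‖a i‖) → ‖vec x b‖ ≤ K * ‖vec x a‖

/-- Norm-one vectors among the finite `Q`-linear combinations of the `e i` (given by their
coefficients). -/
def Q0 (e : ℕ → X) (Q : Subfield 𝕜) : Type _ :=
  {c : ℕ →₀ 𝕜 // (∀ i, c i ∈ Q) ∧ ‖vec e c‖ = 1}

/-- `Q0` carries the discrete topology. -/
instance (e : ℕ → X) (Q : Subfield 𝕜) : TopologicalSpace (Q0 e Q) := ⊥

instance (e : ℕ → X) (Q : Subfield 𝕜) : DiscreteTopology (Q0 e Q) := ⟨rfl⟩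

/-- The space of block sequences with all terms in `Q0`. -/
def bX (e : ℕ → X) (Q : Subfield 𝕜) : Type _ :=
  {y : ℕ → Q0 e Q // Block (fun k => (y k).1)}

/-- `bX` carries the topology of a subspace of the product of discrete spaces. -/
instance (e : ℕ → X) (Q : Subfield 𝕜) : TopologicalSpace (bX e Q) :=
  instTopologicalSpaceSubtype

/-- The isomorphism relation on block sequences. -/
def IsRel (e : ℕ → X) (Q : Subfield 𝕜) : Set (bX e Q × bX e Q) :=
  {p | Nonempty (cspan 𝕜 (seqOf e (fun k => (p.1.1 k).1)) ≃L[𝕜]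
    cspan 𝕜 (seqOf e (fun k => (p.2.1 k).1)))}

end

end

end Pool.Agent.EBM
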