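import Mathlib

/-!
MODULE BMl (difficulty 3). A Banach-Mazur type criterion for comeager sets.
Proof. For a state t call a family F of states admissible if every t' in F satisfies next t t',
cyl t' ⊆ cyl t, (cyl t').Nonempty and the sets cyl t' (t' in F) are pairwise disjoint. By Zorn
(zorn_subset) there is a maximal admissible family F(t). Then the union of the cyl t', t' in F(t), is
dense in cyl t: otherwise there is an open U with U ∩ cyl t nonempty and disjoint from the
union (U ∩ cyl t is open); hstep gives t' with next t t', cyl t' ⊆ U ∩ cyl t nonempty, and F(t) with t'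
added is admissible (t' is not in F(t), since cyl t' is nonempty and disjoint from the union),
contradicting maximality. Define levels L 0 = {t0}, L (i+1) = union of the F(t), t in L i. By induction:
the sets cyl t (t in L i) are pairwise disjoint (for different t), and O i = union of the cyl t, t in L i,
is open and dense. So the intersection of the O i is in residual (countable intersection of
open dense sets; residual_of_dense_open, countable_iInter_mem). If x is in all O i: for every i there is a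
unique t_i in L i with x in cyl t_i; since t_(i+1) is in F(t) for some t in L i and x in cyl t_(i+1) ⊆ cyl t,
uniqueness gives t = t_i, so next t_i t_(i+1). Apply hS to the chain (t_i), t_0 = t0.
-/

namespace Pool.Agent.EBM

open Finsupp Filter Topology

theorem bml_exists_max {Z T : Type*} (cyl : T → Set Z) (next : T → T → Prop) (t : T) :
    ∃ F : Set T, (∀ a ∈ F, next t a ∧ cyl a ⊆ cyl t ∧ (cyl a).Nonempty) ∧
      (∀ a ∈ F, ∀ b ∈ F, a ≠ b → Disjoint (cyl a) (cyl b)) ∧
      ∀ t', next t t' → cyl t' ⊆ cyl t → (cyl t').Nonempty →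
        (∀ a ∈ F, Disjoint (cyl a) (cyl t')) → t' ∈ F := by
  obtain ⟨F, hF⟩ := zorn_subset {F : Set T | (∀ a ∈ F, next t a ∧ cyl a ⊆ cyl t ∧ (cyl a).Nonempty) ∧
      (∀ a ∈ F, ∀ b ∈ F, a ≠ b → Disjoint (cyl a) (cyl b))} (by
    intro c hc hchain
    refine ⟨⋃₀ c, ⟨?_, ?_⟩, fun s hs => Set.subset_sUnion_of_mem hs⟩
    · rintro a ⟨s, hs, ha⟩
      exact (hc hs).1 a ha
    · rintro a ⟨s, hs, ha⟩ b ⟨s', hs', hb⟩ hab
      rcases hchain.total hs hs' with h | h
      · exact (hc hs').2 a (h ha) b hb hab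
      · exact (hc hs).2 a ha b (h hb) hab)
  refine ⟨F, hF.1.1, hF.1.2, ?_⟩
  intro t' h1 h2 h3 h4
  have h5 : insert t' F ∈ {F : Set T | (∀ a ∈ F, next t a ∧ cyl a ⊆ cyl t ∧ (cyl a).Nonempty) ∧
      (∀ a ∈ F, ∀ b ∈ F, a ≠ b → Disjoint (cyl a) (cyl b))} := by
    refine ⟨?_, ?_⟩
    · rintro a (rfl | ha)
      · exact ⟨h1, h2, h3⟩
      · exact hF.1.1 a ha
    · rintro a (rfl | ha) b (rfl | hb) hab
      · exact absurd rfl hab
      · exact (h4 b hb).symm
      · exact h4 a ha
      · exact hF.1.2 a ha b hb hab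
  exact hF.2 h5 (Set.subset_insert _ _) (Set.mem_insert _ _)

theorem banach_mazur {Z T : Type*} [TopologicalSpace Z] (cyl : T → Set Z) (next : T → T → Prop)
    (t0 : T) (h0 : cyl t0 = Set.univ) (hopen : ∀ t, IsOpen (cyl t))
    (hstep : ∀ t, ∀ U : Set Z, IsOpen U → (U ∩ cyl t).Nonempty →
      ∃ t', next t t' ∧ cyl t' ⊆ U ∩ cyl t ∧ (cyl t').Nonempty)
    (S : Set Z)
    (hS : ∀ s : ℕ → T, s 0 = t0 → (∀ i, next (s i) (s (i + 1))) →
      ∀ x, (∀ i, x ∈ cyl (s i)) → x ∈ S) :
    S ∈ residual Z := by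
  choose F hF1 hF2 hF3 using bml_exists_max cyl next
  have hdense : ∀ t, ∀ U : Set Z, IsOpen U → (U ∩ cyl t).Nonempty →
      ∃ t' ∈ F t, (U ∩ cyl t').Nonempty := by
    intro t U hU hne
    by_contra hcon
    push Not at hcon
    obtain ⟨t', h1, h2, h3⟩ := hstep t U hU hne
    have h4 : t' ∈ F t := by
      refine hF3 t t' h1 (fun x hx => (h2 hx).2) h3 ?_
      intro a ha
      rw [Set.disjoint_left]
      intro x hx hx'
      have h5 := hcon a ha
      have h6 : x ∈ U ∩ cyl a := ⟨(h2 hx').1, hx⟩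
      rw [h5] at h6
      exact h6
    obtain ⟨x, hx⟩ := h3
    have h6 : x ∈ U ∩ cyl t' := ⟨(h2 hx).1, hx⟩
    rw [hcon t' h4] at h6
    exact h6
  let L : ℕ → Set T := fun i => Nat.rec {t0} (fun _ A => {b | ∃ t ∈ A, b ∈ F t}) i
  have hL0 : L 0 = {t0} := rfl
  have hL1 : ∀ i, L (i + 1) = {b | ∃ t ∈ L i, b ∈ F t} := fun i => rfl
  have hdisj : ∀ i, ∀ a ∈ L i, ∀ b ∈ L i, a ≠ b → Disjoint (cyl a) (cyl b) := by
    intro i
    induction i with
    | zero =>
      intro a ha b hb hab
      rw [hL0, Set.mem_singleton_iff] at ha hb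
      exact absurd (ha.trans hb.symm) hab
    | succ i ih =>
      intro a ha b hb hab
      rw [hL1] at ha hb
      obtain ⟨t, ht, hat⟩ := ha
      obtain ⟨t', ht', hbt⟩ := hb
      by_cases htt : t = t'
      · subst htt
        exact hF2 t a hat b hbt hab
      · exact (ih t ht t' ht' htt).mono (hF1 t a hat).2.1 (hF1 t' b hbt).2.1
  have hO : ∀ i, (⋃ t ∈ L i, cyl t) ∈ residual Z := by
    intro i
    refine residual_of_dense_open (isOpen_biUnion fun t _ => hopen t) ?_
    rw [dense_iff_inter_open]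
    intro U hU hne
    have key : ∀ i, ∃ t ∈ L i, (U ∩ cyl t).Nonempty := by
      intro i
      induction i with
      | zero =>
        refine ⟨t0, rfl, ?_⟩
        rw [h0, Set.inter_univ]
        exact hne
      | succ i ih =>
        obtain ⟨t, ht, htn⟩ := ih
        obtain ⟨t', ht', h⟩ := hdense t U hU htn
        exact ⟨t', ⟨t, ht, ht'⟩, h⟩
    obtain ⟨t, ht, x, hx1, hx2⟩ := key i
    exact ⟨x, hx1, Set.mem_biUnion ht hx2⟩
  have hall : (⋂ i, ⋃ t ∈ L i, cyl t) ∈ residual Z := countable_iInter_mem.2 hO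
  refine mem_of_superset hall ?_
  intro x hx
  rw [Set.mem_iInter] at hx
  have hx' : ∀ i, ∃ t, t ∈ L i ∧ x ∈ cyl t := by
    intro i
    have h := hx i
    rw [Set.mem_iUnion₂] at h
    obtain ⟨t, ht, h⟩ := h
    exact ⟨t, ht, h⟩
  choose s hs1 hs2 using hx'
  refine hS s (hs1 0) ?_ x hs2
  intro i
  obtain ⟨t, ht, h⟩ := hs1 (i + 1)
  have hxt : x ∈ cyl t := (hF1 t _ h).2.1 (hs2 (i + 1))
  have hst : s i = t := by
    by_contra hne
    exact Set.disjoint_left.1 (hdisj i (s i) (hs1 i) t ht hne) (hs2 i) hxt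
  rw [hst]
  exact (hF1 t _ h).1

end Pool.Agent.EBM
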