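import Pool.Agent.EBM.Bas

/-!
MODULE Ct (difficulty 2). b(X) is a Baire space.
Q0 e Q is countable (c ↦ the finitely supported function with values in the countable Q is
injective: e.g. Finsupp countable instance for ℕ →₀ Q; build g : Q0 → (ℕ →₀ Q) and
Function.Injective.countable). It is discrete, so it is Polish; ℕ → Q0 is Polish. The set of
the y with Block (fun k => (y k).1) is closed: the first part (c k ≠ 0) holds automatically
(norm 1), the second is an intersection of conditions on two coordinates, each of them clopen
(preimage of a set under the continuous map y ↦ (y k, y (k+1)) into a discrete space). So bX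
is a closed subspace of a Polish space, hence Polish (IsClosed.polishSpace), the product is
Polish, and Polish spaces are Baire (completely metrizable: upgradeIsCompletelyMetrizable /
BaireSpace instance of complete metric spaces).
-/

namespace Pool.Agent.EBM

open Finsupp Filter Topology

section
variable {𝕜 : Type*} [RCLike 𝕜] {X : Type*} [NormedAddCommGroup X] [NormedSpace 𝕜 X]

theorem ct_countable (e : ℕ → X) (Q : Subfield 𝕜) (hQc : Countable Q) : Countable (Q0 e Q) := by
  classical
  let g : Q0 e Q → (ℕ →₀ Q) := fun c =>
    Finsupp.onFinset c.1.support (fun i => ⟨c.1 i, c.2.1 i⟩) (by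
      intro i hi
      rw [Finsupp.mem_support_iff]
      intro h
      apply hi
      exact Subtype.ext h)
  have hg : Function.Injective g := by
    intro c d hcd
    apply Subtype.ext
    ext i
    have h := DFunLike.congr_fun hcd i
    have h2 := congrArg Subtype.val h
    simpa [g] using h2
  exact hg.countable

theorem ct_closed (e : ℕ → X) (Q : Subfield 𝕜) :
    IsClosed {y : ℕ → Q0 e Q | Block (fun k => (y k).1)} := by
  have h : {y : ℕ → Q0 e Q | Block (fun k => (y k).1)} =
      ⋂ k : ℕ, {y : ℕ → Q0 e Q | ∀ i ∈ (y k).1.support, ∀ j ∈ (y (k + 1)).1.support, i < j} := by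
    ext y
    rw [Set.mem_iInter]
    constructor
    · intro hy k
      exact hy.2 k
    · intro hy
      refine ⟨fun k h0 => ?_, hy⟩
      have h1 := (y k).2.2
      have h0' : (y k).1 = 0 := h0
      rw [h0', vec_zero, norm_zero] at h1
      exact zero_ne_one h1
  rw [h]
  refine isClosed_iInter fun k => ?_
  have hc : Continuous (fun y : ℕ → Q0 e Q => (y k, y (k + 1))) :=
    (continuous_apply k).prodMk (continuous_apply (k + 1))
  exact (isClosed_discrete {p : Q0 e Q × Q0 e Q |
    ∀ i ∈ p.1.1.support, ∀ j ∈ p.2.1.support, i < j}).preimage hc

theorem baire_bX (e : ℕ → X) (Q : Subfield 𝕜) (hQc : Countable Q) :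
    BaireSpace (bX e Q × bX e Q) := by
  have h1 : Countable (Q0 e Q) := ct_countable e Q hQc
  have h2 : PolishSpace (Q0 e Q) := inferInstance
  have h3 : PolishSpace (ℕ → Q0 e Q) := inferInstance
  have h4 : PolishSpace (bX e Q) := (ct_closed e Q).polishSpace
  have h5 : PolishSpace (bX e Q × bX e Q) := inferInstance
  let _ := TopologicalSpace.upgradeIsCompletelyMetrizable (bX e Q × bX e Q)
  infer_instance

end

end Pool.Agent.EBM
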