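import Pool.Agent.EBM.Bas

/-!
MODULE Ext (difficulty 2). Extending good lists and copying vectors.
tree_ext: induction on L: at each step use the continuation property of the tree with the
bound n; (s ++ [c]).getD i 0 = s.getD i 0 for i < s.length and = c for i = s.length.
copy: c = comb (ent s) u.1 has coefficients in Q (finite sums of products of elements of Q:
comb_apply, for k in the support of u we have k < s.length, so ent s k has values in Q), and by
the third property of EqL (C ≥ ... : norm (vec e u) = 1 ≤ C * norm (vec e c)) its norm r is positive; r is in Q by hQn.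
Put v = r⁻¹ • c; norm (vec e v) = 1. The support statement: mem_support_comb.
-/

namespace Pool.Agent.EBM

open Finsupp Filter Topology

section
variable {𝕜 : Type*} [RCLike 𝕜] {X : Type*} [NormedAddCommGroup X] [NormedSpace 𝕜 X]

theorem tree_ext {e : ℕ → X} {Q : Subfield 𝕜} {C : ℕ} {G : Set (List (ℕ →₀ 𝕜))}
    (hG : Tree e Q C G) {s : List (ℕ →₀ 𝕜)} (hs : s ∈ G) (L : ℕ) (hL : s.length ≤ L) (n : ℕ) :
    ∃ s' ∈ G, s'.length = L ∧ (∀ i < s.length, ent s' i = ent s i) ∧
      ∀ i, s.length ≤ i → i < L → Above (ent s' i) n := by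
  induction L, hL using Nat.le_induction with
  | base => exact ⟨s, hs, rfl, fun i _ => rfl, fun i h1 h2 => absurd h2 (not_lt.2 h1)⟩
  | succ L hL ih =>
    obtain ⟨s', hs', hlen, hold, hnew⟩ := ih
    obtain ⟨c, hc, hcG⟩ := (hG s' hs').2 n
    have h1 : ∀ i < L, ent (s' ++ [c]) i = ent s' i := by
      intro i hi
      unfold ent
      exact List.getD_append _ _ _ _ (by rw [hlen]; exact hi)
    have h2 : ent (s' ++ [c]) L = c := by
      unfold ent
      rw [List.getD_append_right _ _ _ _ (by rw [hlen]), hlen, Nat.sub_self]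
      rfl
    refine ⟨s' ++ [c], hcG, by simp [hlen], ?_, ?_⟩
    · intro i hi
      rw [h1 i (lt_of_lt_of_le hi hL)]
      exact hold i hi
    · intro i hi1 hi2
      rcases Nat.lt_succ_iff_lt_or_eq.1 hi2 with h | h
      · rw [h1 i h]
        exact hnew i hi1 h
      · rw [h, h2]
        exact hc

theorem copy_vec {e : ℕ → X} {Q : Subfield 𝕜}
    (hQn : ∀ c : ℕ →₀ 𝕜, (∀ i, c i ∈ Q) → ((‖vec e c‖ : ℝ) : 𝕜) ∈ Q) {C : ℕ}
    {s : List (ℕ →₀ 𝕜)} (hs : EqL e Q C s) (u : Q0 e Q) (hu : Below u.1 s.length) :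
    ∃ (r : ℝ) (v : Q0 e Q), 0 < r ∧ comb (ent s) u.1 = (r : 𝕜) • v.1 ∧
      ∀ i ∈ v.1.support, ∃ k ∈ u.1.support, i ∈ (ent s k).support := by
  obtain ⟨c, hc⟩ : ∃ c, c = comb (ent s) u.1 := ⟨_, rfl⟩
  have hcQ : ∀ i, c i ∈ Q := by
    intro i
    rw [hc, comb_apply]
    refine Q.sum_mem (fun k hk => ?_)
    exact Q.mul_mem (u.2.1 k) ((hs.1 k (hu k hk)).2 i)
  have hr : ((‖vec e c‖ : ℝ) : 𝕜) ∈ Q := hQn c hcQ
  have hle := (hs.2.2 u.1 hu).2
  rw [← hc, u.2.2] at hle
  have hr0 : 0 < ‖vec e c‖ := by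
    rcases (norm_nonneg (vec e c)).lt_or_eq with h | h
    · exact h
    · rw [← h, mul_zero] at hle
      exact absurd hle (by norm_num)
  have hrk : ((‖vec e c‖ : ℝ) : 𝕜) ≠ 0 := by
    rw [Ne, RCLike.ofReal_eq_zero]
    exact hr0.ne'
  refine ⟨‖vec e c‖, ⟨(((‖vec e c‖ : ℝ) : 𝕜))⁻¹ • c, ?_, ?_⟩, hr0, ?_, ?_⟩
  · intro i
    rw [Finsupp.smul_apply, smul_eq_mul]
    exact Q.mul_mem (Q.inv_mem hr) (hcQ i)
  · rw [vec_smul, norm_smul, norm_inv, RCLike.norm_ofReal, abs_of_pos hr0,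
      inv_mul_cancel₀ hr0.ne']
  · rw [← hc, smul_smul, mul_inv_cancel₀ hrk, one_smul]
  · intro i hi
    have h1 : i ∈ c.support := by
      rw [Finsupp.mem_support_iff] at hi ⊢
      intro h0
      apply hi
      show ((((‖vec e c‖ : ℝ) : 𝕜))⁻¹ • c) i = 0
      rw [Finsupp.smul_apply, h0, smul_zero]
    rw [hc] at h1
    exact mem_support_comb h1

end

end Pool.Agent.EBM
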