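import Pool.Agent.EBM.Bas

/-!
MODULE Fil (difficulty 2). Extending finite block sequences; basic open sets.
unit: single T (1 / norm (e T)) (norm (e T) is in Q by hQn applied to single T 1).
extend: let T be larger than all indices in the supports of y k, k < n. Put y' k = y k for k < n and
y' k = the unit vector above with support {T + k} for k ≥ n. Block: the vectors are nonzero (norm 1, vec_zero).
basis: the topology of bX is induced from the product of discrete spaces (use isOpen_pi_iff, or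
that the map bX → (ℕ → Q0) is inducing and that cylinders form a basis of neighbourhoods of a
product of discrete spaces; in the product of two copies take the larger N).
isOpen_cyl: finite intersection of preimages of points under continuous maps to Q0.
-/

namespace Pool.Agent.EBM

open Finsupp Filter Topology

section
variable {𝕜 : Type*} [RCLike 𝕜] {X : Type*} [NormedAddCommGroup X] [NormedSpace 𝕜 X]

theorem exists_unit {e : ℕ → X} (he : SchauderBasis 𝕜 e) {Q : Subfield 𝕜}
    (hQn : ∀ c : ℕ →₀ 𝕜, (∀ i, c i ∈ Q) → ((‖vec e c‖ : ℝ) : 𝕜) ∈ Q) (T : ℕ) :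
    ∃ u : Q0 e Q, u.1.support = {T} := by
  have hne : e T ≠ 0 := by
    intro h
    have h1 : (single T (1 : 𝕜) : ℕ →₀ 𝕜) = 0 := he.vec_inj (by rw [vec_single, h, smul_zero])
    have h2 := DFunLike.congr_fun h1 T
    rw [Finsupp.single_eq_same, Finsupp.zero_apply] at h2
    exact one_ne_zero h2
  have hpos : 0 < ‖e T‖ := norm_pos_iff.mpr hne
  have hmem : ((‖e T‖ : ℝ) : 𝕜) ∈ Q := by
    have h := hQn (single T 1) (by
      intro i
      by_cases hi : T = i
      · subst hi
        rw [Finsupp.single_eq_same]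
        exact Q.one_mem
      · rw [Finsupp.single_eq_of_ne (Ne.symm hi)]
        exact Q.zero_mem)
    rw [vec_single, one_smul] at h
    exact h
  have hne2 : (((‖e T‖ : ℝ) : 𝕜))⁻¹ ≠ 0 := by
    apply inv_ne_zero
    exact_mod_cast hpos.ne'
  refine ⟨⟨single T (((‖e T‖ : ℝ) : 𝕜))⁻¹, ?_, ?_⟩, ?_⟩
  · intro i
    by_cases hi : T = i
    · subst hi
      rw [Finsupp.single_eq_same]
      exact Q.inv_mem hmem
    · rw [Finsupp.single_eq_of_ne (Ne.symm hi)]
      exact Q.zero_mem
  · rw [vec_single, norm_smul, norm_inv, RCLike.norm_ofReal, abs_of_pos hpos]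
    exact inv_mul_cancel₀ hpos.ne'
  · exact Finsupp.support_single_ne_zero T hne2

theorem extend_block {e : ℕ → X} (he : SchauderBasis 𝕜 e) {Q : Subfield 𝕜}
    (hQn : ∀ c : ℕ →₀ 𝕜, (∀ i, c i ∈ Q) → ((‖vec e c‖ : ℝ) : 𝕜) ∈ Q) (n : ℕ)
    (y : ℕ → Q0 e Q)
    (hy : ∀ k, k + 1 < n → ∀ i ∈ (y k).1.support, ∀ j ∈ (y (k + 1)).1.support, i < j) :
    ∃ y' : bX e Q, ∀ k < n, y'.1 k = y k := by
  classical
  choose u hu using exists_unit he hQn
  obtain ⟨T, hT⟩ : ∃ T : ℕ, ∀ k < n, ∀ i ∈ (y k).1.support, i < T := by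
    refine ⟨(Finset.range n).sup (fun k => (y k).1.support.sup id) + 1, ?_⟩
    intro k hk i hi
    have h1 : i ≤ (y k).1.support.sup id := Finset.le_sup (f := id) hi
    have h2 : (y k).1.support.sup id ≤ (Finset.range n).sup (fun k => (y k).1.support.sup id) :=
      Finset.le_sup (f := fun k => (y k).1.support.sup id) (Finset.mem_range.mpr hk)
    omega
  refine ⟨⟨fun k => if k < n then y k else u (T + k), ?_, ?_⟩, ?_⟩
  · intro k h
    have h1 := (if k < n then y k else u (T + k)).2.2
    change (if k < n then y k else u (T + k)).1 = 0 at h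
    rw [h, vec_zero, norm_zero] at h1
    exact zero_ne_one h1
  · intro k i hi j hj
    change i ∈ (if k < n then y k else u (T + k)).1.support at hi
    change j ∈ (if k + 1 < n then y (k + 1) else u (T + (k + 1))).1.support at hj
    by_cases h1 : k + 1 < n
    · rw [if_pos h1] at hj
      rw [if_pos (by omega)] at hi
      exact hy k h1 i hi j hj
    · rw [if_neg h1, hu, Finset.mem_singleton] at hj
      by_cases h2 : k < n
      · rw [if_pos h2] at hi
        have := hT k h2 i hi
        omega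
      · rw [if_neg h2, hu, Finset.mem_singleton] at hi
        omega
  · intro k hk
    change (if k < n then y k else u (T + k)) = y k
    rw [if_pos hk]

/-- The basic neighbourhood of a pair of block sequences. -/
def cylP {e : ℕ → X} {Q : Subfield 𝕜} (p : bX e Q × bX e Q) (n : ℕ) : Set (bX e Q × bX e Q) :=
  {q | ∀ k < n, q.1.1 k = p.1.1 k ∧ q.2.1 k = p.2.1 k}

theorem isOpen_cylP {e : ℕ → X} {Q : Subfield 𝕜} (p : bX e Q × bX e Q) (n : ℕ) :
    IsOpen (cylP p n) := by
  have hc1 : ∀ k, Continuous (fun q : bX e Q × bX e Q => q.1.1 k) := fun k =>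
    (continuous_apply k).comp (continuous_subtype_val.comp continuous_fst)
  have hc2 : ∀ k, Continuous (fun q : bX e Q × bX e Q => q.2.1 k) := fun k =>
    (continuous_apply k).comp (continuous_subtype_val.comp continuous_snd)
  have h : cylP p n = ⋂ k ∈ Finset.range n,
      ((fun q : bX e Q × bX e Q => q.1.1 k) ⁻¹' {p.1.1 k} ∩
        (fun q : bX e Q × bX e Q => q.2.1 k) ⁻¹' {p.2.1 k}) := by
    ext q
    simp only [cylP, Set.mem_setOf_eq, Set.mem_iInter, Finset.mem_range, Set.mem_inter_iff,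
      Set.mem_preimage, Set.mem_singleton_iff]
  rw [h]
  refine isOpen_biInter_finset ?_
  intro k _
  exact ((isOpen_discrete _).preimage (hc1 k)).inter ((isOpen_discrete _).preimage (hc2 k))

theorem fil_cyl {e : ℕ → X} {Q : Subfield 𝕜} {U : Set (bX e Q)} (hU : IsOpen U)
    {p : bX e Q} (hp : p ∈ U) : ∃ n, ∀ q : bX e Q, (∀ k < n, q.1 k = p.1 k) → q ∈ U := by
  obtain ⟨V, hV, rfl⟩ := isOpen_induced_iff.mp hU
  obtain ⟨I, w, hw, hsub⟩ := isOpen_pi_iff.mp hV p.1 hp
  refine ⟨I.sup id + 1, fun q hq => hsub ?_⟩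
  intro i hi
  have h1 : i ≤ I.sup id := Finset.le_sup (f := id) hi
  rw [hq i (by omega)]
  exact (hw i hi).2

theorem exists_cylP {e : ℕ → X} {Q : Subfield 𝕜} {U : Set (bX e Q × bX e Q)} (hU : IsOpen U)
    {p : bX e Q × bX e Q} (hp : p ∈ U) : ∃ n, cylP p n ⊆ U := by
  obtain ⟨u, v, hu, hv, hpu, hpv, hsub⟩ := isOpen_prod_iff.mp hU p.1 p.2 hp
  obtain ⟨n, hn⟩ := fil_cyl hu hpu
  obtain ⟨m, hm⟩ := fil_cyl hv hpv
  refine ⟨max n m, fun q hq => hsub (Set.mk_mem_prod (hn _ ?_) (hm _ ?_))⟩
  · intro k hk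
    exact (hq k (lt_of_lt_of_le hk (le_max_left _ _))).1
  · intro k hk
    exact (hq k (lt_of_lt_of_le hk (le_max_right _ _))).2

end

end Pool.Agent.EBM
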