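import Mathlib

/-!
MODULE Gd (difficulty 3). Pure combinatorics (a determinacy argument).
Notation: pre w k = (List.range k).map w (length k, pre w (k+1) = pre w k ++ [w k]).
Proof. Define inductively (inductive predicate on List M, for fixed C) Bad s:
 base: ¬ E C s → Bad s;  step: (n : ℕ) → (∀ c ∈ N s.length, Ab c n → Bad (s ++ [c])) → Bad s.
If ¬ Bad C s for some C, s: G = {s | ¬ Bad C s} works (¬ Bad s gives E C s by base, and for every n some
c ∈ N s.length with Ab c n and ¬ Bad (s ++ [c]) by step). So assume Bad C s for all C, s.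
CLAIM (induction on Bad C s): there is b : List M → ℕ such that for every w : ℕ → M with
pre w s.length = s and ∀ k ≥ s.length, w k ∈ N k ∧ Ab (w k) (b (pre w k)), there is k with
¬ E C (pre w k). Base: any b, k = s.length. Step n: for every c ∈ N s.length with Ab c n choose
b_c for s ++ [c] (choice); define b t = n if t.length ≤ s.length, otherwise b t = b_c t where c is the
entry number s.length of t (b t = 0 if c does not satisfy the conditions). Given w: at k = s.length
w k ∈ N k and Ab (w k) n; apply the induction hypothesis to s ++ [w k].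
By choice get b C s for all C, s. For m let LL m be the set of the lists t with t.length ≤ m and
t[i] ∈ N i, Bl t[i] m for all i < t.length: a finite set (hfin). Let g m be an upper bound of m and of all
b C s t with C ≤ m, s ∈ LL m, t ∈ LL m. Define p 0 = 0 (or anything), p (i+1) = p i + 1 + g (p i + 1): strictly
increasing, p i ≥ i and p (i+1) ≥ b C s t for C ≤ p i + 1, s, t ∈ LL (p i + 1). By H get w, C, q. For every k
the list pre w (k+1) is in LL (p (q k) + 1): its length k + 1 ≤ q k + 1 ≤ p (q k) + 1 (q strictly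
increasing, p i ≥ i), and for i ≤ k: Bl (w i) (p (q i) + 1), monotone. Take k0 = C, s = pre w (k0+1).
For k ≥ k0 + 1: s and pre w k are in LL (p (q (k-1)) + 1) and C ≤ k - 1 ≤ p (q (k-1)) + 1, so
p (q (k-1) + 1) ≥ b C s (pre w k), and Ab (w k) (p (q (k-1) + 1)) gives Ab (w k) (b C s (pre w k)) by hAb.
The CLAIM gives k with ¬ E C (pre w k), a contradiction.
-/

namespace Pool.Agent.EBM

open Finsupp Filter Topology

inductive GdBad {M : Type*} (N : ℕ → Set M) (Ab : M → ℕ → Prop) (E : ℕ → List M → Prop)
    (C : ℕ) : List M → Prop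
  | base (s : List M) : ¬ E C s → GdBad N Ab E C s
  | step (s : List M) (n : ℕ) :
      (∀ c ∈ N s.length, Ab c n → GdBad N Ab E C (s ++ [c])) → GdBad N Ab E C s

lemma gd_pre_succ {M : Type*} (w : ℕ → M) (k : ℕ) :
    (List.range (k + 1)).map w = (List.range k).map w ++ [w k] := by
  rw [List.range_succ, List.map_append, List.map_singleton]

lemma gd_claim {M : Type*} (N : ℕ → Set M) (Ab : M → ℕ → Prop) (E : ℕ → List M → Prop)
    (C : ℕ) (s : List M) (h : GdBad N Ab E C s) :
    ∃ b : List M → ℕ, ∀ w : ℕ → M, (List.range s.length).map w = s →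
      (∀ k, s.length ≤ k → w k ∈ N k ∧ Ab (w k) (b ((List.range k).map w))) →
      ∃ k, ¬ E C ((List.range k).map w) := by
  classical
  induction h with
  | base s hE => exact ⟨fun _ => 0, fun w hw _ => ⟨s.length, by rw [hw]; exact hE⟩⟩
  | step s n hc ih =>
    let bc : M → List M → ℕ := fun c =>
      if h : c ∈ N s.length ∧ Ab c n then Classical.choose (ih c h.1 h.2) else fun _ => 0
    have hbc : ∀ c, ∀ h : c ∈ N s.length ∧ Ab c n, ∀ w : ℕ → M,
        (List.range (s ++ [c]).length).map w = s ++ [c] →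
        (∀ k, (s ++ [c]).length ≤ k → w k ∈ N k ∧ Ab (w k) (bc c ((List.range k).map w))) →
        ∃ k, ¬ E C ((List.range k).map w) := by
      intro c h
      have e : bc c = Classical.choose (ih c h.1 h.2) := by
        simp only [bc]
        rw [dif_pos h]
      rw [e]
      exact Classical.choose_spec (ih c h.1 h.2)
    refine ⟨fun t => if t.length ≤ s.length then n else
      match t[s.length]? with
      | Option.some c => bc c t
      | Option.none => 0, ?_⟩
    intro w hw hk
    have h0 := hk s.length le_rfl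
    have hlen : ∀ k, ((List.range k).map w).length = k := by
      intro k
      simp
    simp only [hlen, le_refl, if_true] at h0
    refine hbc (w s.length) h0 w ?_ ?_
    · rw [List.length_append, List.length_singleton, gd_pre_succ, hw]
    · intro k hks
      rw [List.length_append, List.length_singleton] at hks
      have h1 := hk k (by omega)
      have h2 : ¬ k ≤ s.length := by omega
      have h3 : ((List.range k).map w)[s.length]? = Option.some (w s.length) := by
        rw [List.getElem?_map, List.getElem?_range (by omega)]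
        rfl
      simp only [hlen, h2, if_false, h3] at h1
      exact h1

def gdLL {M : Type*} (N : ℕ → Set M) (Bl : M → ℕ → Prop) (m : ℕ) : Set (List M) :=
  {t | t.length ≤ m ∧ ∀ i, ∀ h : i < t.length, t[i] ∈ N i ∧ Bl t[i] m}

lemma gd_finite {M : Type*} (N : ℕ → Set M) (Bl : M → ℕ → Prop)
    (hfin : ∀ k m, {c : M | c ∈ N k ∧ Bl c m}.Finite) (m : ℕ) : (gdLL N Bl m).Finite := by
  classical
  let A : Set M := ⋃ i ∈ Set.Iio m, {c : M | c ∈ N i ∧ Bl c m}
  have hA : A.Finite := (Set.finite_Iio m).biUnion (fun i _ => hfin i m)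
  have : Finite A := hA
  have h1 : {l : List A | l.length ≤ m}.Finite := List.finite_length_le A m
  refine (h1.image (List.map Subtype.val)).subset ?_
  rintro t ⟨ht1, ht2⟩
  have h2 : ∀ x ∈ t, x ∈ A := by
    intro x hx
    obtain ⟨i, hi, rfl⟩ := List.mem_iff_getElem.mp hx
    exact Set.mem_biUnion (show i ∈ Set.Iio m by
      rw [Set.mem_Iio]; omega) (ht2 i hi)
  refine ⟨t.attachWith (· ∈ A) h2, ?_, ?_⟩
  · simpa using ht1
  · simp

theorem good_abstract {M : Type*} (N : ℕ → Set M) (Bl Ab : M → ℕ → Prop)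
    (hBl : ∀ c m m', Bl c m → m ≤ m' → Bl c m') (hAb : ∀ c n n', Ab c n → n' ≤ n → Ab c n')
    (hfin : ∀ k m, {c : M | c ∈ N k ∧ Bl c m}.Finite) (E : ℕ → List M → Prop)
    (H : ∀ p : ℕ → ℕ, StrictMono p → ∃ w : ℕ → M, (∀ k, w k ∈ N k) ∧
      (∃ C, ∀ k, E C ((List.range k).map w)) ∧
      ∃ q : ℕ → ℕ, StrictMono q ∧ ∀ k, Bl (w k) (p (q k) + 1) ∧ Ab (w (k + 1)) (p (q k + 1))) :
    ∃ C, ∃ G : Set (List M), G.Nonempty ∧ ∀ s ∈ G, E C s ∧
      ∀ n, ∃ c ∈ N s.length, Ab c n ∧ s ++ [c] ∈ G := by
  classical
  by_cases hall : ∀ C s, GdBad N Ab E C s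
  swap
  · push Not at hall
    obtain ⟨C, s0, hs0⟩ := hall
    refine ⟨C, {s | ¬ GdBad N Ab E C s}, ⟨s0, hs0⟩, ?_⟩
    intro s hs
    rw [Set.mem_setOf_eq] at hs
    refine ⟨?_, ?_⟩
    · by_contra hE
      exact hs (GdBad.base s hE)
    · intro n
      by_contra hcon
      push Not at hcon
      apply hs
      refine GdBad.step s n ?_
      intro c hc hab
      have := hcon c hc hab
      rw [Set.mem_setOf_eq, not_not] at this
      exact this
  · exfalso
    choose b hb using fun C s => gd_claim N Ab E C s (hall C s)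
    have hg : ∀ m : ℕ, ∃ g : ℕ, ∀ C ≤ m, ∀ s ∈ gdLL N Bl m, ∀ t ∈ gdLL N Bl m, b C s t ≤ g := by
      intro m
      have hF : ((Set.Iic m) ×ˢ ((gdLL N Bl m) ×ˢ (gdLL N Bl m))).Finite :=
        (Set.finite_Iic m).prod ((gd_finite N Bl hfin m).prod (gd_finite N Bl hfin m))
      obtain ⟨g, hg⟩ := (hF.image (fun x : ℕ × List M × List M => b x.1 x.2.1 x.2.2)).bddAbove
      refine ⟨g, fun C hC s hs t ht => hg ⟨(C, s, t), ⟨hC, hs, ht⟩, rfl⟩⟩
    choose g hg using hg
    obtain ⟨p, hp⟩ : ∃ p : ℕ → ℕ, ∀ i, p (i + 1) = p i + 1 + g (p i + 1) :=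
      ⟨fun i => Nat.rec 0 (fun _ x => x + 1 + g (x + 1)) i, fun i => rfl⟩
    have hpm : StrictMono p := strictMono_nat_of_lt_succ (fun i => by rw [hp i]; omega)
    obtain ⟨w, hwN, ⟨C, hC⟩, q, hq, hBA⟩ := H p hpm
    have hLL : ∀ j k, j ≤ k → (List.range (j + 1)).map w ∈ gdLL N Bl (p (q k) + 1) := by
      intro j k hjk
      have h1 : k ≤ q k := hq.le_apply
      have h2 : q k ≤ p (q k) := hpm.le_apply
      refine ⟨?_, ?_⟩
      · rw [List.length_map, List.length_range]
        omega
      · intro i hi
        rw [List.length_map, List.length_range] at hi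
        have e : ((List.range (j + 1)).map w)[i]'(by
            rw [List.length_map, List.length_range]; exact hi) = w i := by simp
        rw [e]
        refine ⟨hwN i, hBl _ _ _ (hBA i).1 ?_⟩
        have h3 : q i ≤ q k := hq.monotone (by omega)
        have h4 : p (q i) ≤ p (q k) := hpm.monotone h3
        omega
    obtain ⟨k, hk⟩ := hb C ((List.range (C + 1)).map w) w (by simp) (by
      intro k hks
      rw [List.length_map, List.length_range] at hks
      obtain ⟨k', rfl⟩ : ∃ k', k = k' + 1 := ⟨k - 1, by omega⟩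
      refine ⟨hwN _, hAb _ _ _ (hBA k').2 ?_⟩
      have h1 : k' ≤ q k' := hq.le_apply
      have h2 : q k' ≤ p (q k') := hpm.le_apply
      have h3 := hg (p (q k') + 1) C (by omega) _ (hLL C k' (by omega)) _ (hLL k' k' le_rfl)
      rw [hp (q k')]
      omega)
    exact hk (hC k)

end Pool.Agent.EBM
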