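import Pool.Agent.EBM.Sts

/-!
MODULE Inq (difficulty 2). The equivalence in the limit.
Proof. Let Y = seqOf e c, Z = fun j => (s j : 𝕜) • vec e (d (π j)). c and d are block families, so Y is
K-unconditional (Block.uncK) and Z is K-unconditional too: vec Z a = vec (seqOf e d) a' where a' (π j) = a j * s j
(a' = Finsupp.equivMapDomain π of (a j * s j), or Finsupp.mapDomain), and norm (b j) ≤ norm (a j) for all j implies the same for b', a'.
Let a be given, n with Below a n, w from hcopy n. Split a = a1 + a2 + a3 (Finsupp.filter):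
 a1 on j < F, a2 on F ≤ j with the first alternative of Copy (w), a3 on the other F ≤ j (for those with a j ≠ 0 we have
 j < n, so the second alternative holds). Every part p satisfies norm (vec Y p) ≤ K * norm (vec Y a),
 norm (vec Z p) ≤ K * norm (vec Z a).
 a1: norm (Y j) = 1 and norm (Z j) = 1 for j < F. So norm (vec Y a1) ≤ ∑_{j<F} norm (a j) ≤ F * K * norm (vec Z a) by
 UncK.coef (norm (a j) * norm (Z j) ≤ K * norm (vec Z a)); and with Y and Z exchanged.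
 a2: vec Z a2 = vec e (comb (ent w) (comb c a2)) (sum of a j • vec e (comb (ent w) (c j))), Below (comb c a2) w.length,
 and vec Y a2 = vec e (comb c a2) (vec_seqOf). EqL gives norm (vec Z a2) ≤ C * norm (vec Y a2) and
 norm (vec Y a2) ≤ C * norm (vec Z a2).
 a3: with f = ∑ (a3 j * s j) • d (π j) (Below f w.length): vec Z a3 = vec e f and vec Y a3 = vec e (comb (ent w) f); EqL
 gives again both inequalities.
Sum: norm (vec Y a) ≤ (F * K + 2 * C * K) * norm (vec Z a) and conversely. Take the constant F * K + 2 * C * K + 1 > 0.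
-/

namespace Pool.Agent.EBM

open Finsupp Filter Topology

section
variable {𝕜 : Type*} [RCLike 𝕜] {X : Type*} [NormedAddCommGroup X] [NormedSpace 𝕜 X]

theorem inq_apply {c : ℕ → (ℕ →₀ 𝕜)} (hdis : ∀ k l i, c k i ≠ 0 → c l i ≠ 0 → k = l)
    (a : ℕ →₀ 𝕜) {k i : ℕ} (hi : c k i ≠ 0) : comb c a i = a k * c k i := by
  rw [comb_apply]
  have hz : ∀ l, l ≠ k → c l i = 0 := by
    intro l hl
    by_contra h
    exact hl (hdis l k i h hi)
  by_cases hk : k ∈ a.support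
  · rw [Finset.sum_eq_single k]
    · intro l _ hl
      rw [hz l hl, mul_zero]
    · intro h
      exact absurd hk h
  · have h0 : a k = 0 := by simpa using hk
    rw [h0, zero_mul]
    apply Finset.sum_eq_zero
    intro l hl
    rw [hz l (by rintro rfl; exact hk hl), mul_zero]

theorem inq_norm_le {c : ℕ → (ℕ →₀ 𝕜)} (hdis : ∀ k l i, c k i ≠ 0 → c l i ≠ 0 → k = l)
    {a b : ℕ →₀ 𝕜} (hab : ∀ k, ‖b k‖ ≤ ‖a k‖) (i : ℕ) : ‖comb c b i‖ ≤ ‖comb c a i‖ := by
  by_cases h : ∃ k, c k i ≠ 0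
  · obtain ⟨k, hk⟩ := h
    rw [inq_apply hdis b hk, inq_apply hdis a hk, norm_mul, norm_mul]
    exact mul_le_mul_of_nonneg_right (hab k) (norm_nonneg _)
  · push Not at h
    rw [comb_apply_of_not_mem b (fun k => by simp [h k]),
      comb_apply_of_not_mem a (fun k => by simp [h k])]

theorem inq_unc {K : ℝ} {e : ℕ → X} (hx : UncK 𝕜 K e) {c : ℕ → (ℕ →₀ 𝕜)}
    (hdis : ∀ k l i, c k i ≠ 0 → c l i ≠ 0 → k = l) : UncK 𝕜 K (seqOf e c) := by
  intro a b hab
  rw [vec_seqOf, vec_seqOf]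
  exact hx _ _ (inq_norm_le hdis hab)

theorem inq_one {K : ℝ} {Y Z : ℕ → X} (hZ : UncK 𝕜 K Z) (F : ℕ)
    (hYF : ∀ j < F, ‖Y j‖ = 1) (hZF : ∀ j < F, ‖Z j‖ = 1) (a a1 : ℕ →₀ 𝕜)
    (h1 : ∀ j ∈ a1.support, j < F ∧ a1 j = a j) : ‖vec Y a1‖ ≤ F * (K * ‖vec Z a‖) := by
  rw [vec_eq_sum]
  have hK0 : 0 ≤ K * ‖vec Z a‖ := le_trans (by positivity) (hZ.coef a 0)
  have h2 : ∀ j ∈ a1.support, ‖a1 j • Y j‖ ≤ K * ‖vec Z a‖ := by
    intro j hj
    rw [norm_smul, hYF j (h1 j hj).1, (h1 j hj).2, ← hZF j (h1 j hj).1]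
    exact hZ.coef a j
  have h3 : a1.support ⊆ Finset.range F := by
    intro j hj
    exact Finset.mem_range.2 (h1 j hj).1
  have h4 : (a1.support.card : ℝ) ≤ F := by
    have := Finset.card_le_card h3
    rw [Finset.card_range] at this
    exact_mod_cast this
  calc ‖∑ i ∈ a1.support, a1 i • Y i‖ ≤ ∑ i ∈ a1.support, ‖a1 i • Y i‖ := norm_sum_le _ _
    _ ≤ ∑ _i ∈ a1.support, K * ‖vec Z a‖ := Finset.sum_le_sum h2
    _ = (a1.support.card : ℝ) * (K * ‖vec Z a‖) := by rw [Finset.sum_const, nsmul_eq_mul]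
    _ ≤ F * (K * ‖vec Z a‖) := mul_le_mul_of_nonneg_right h4 hK0

theorem inq_comb_comb (u : ℕ → (ℕ →₀ 𝕜)) (c D : ℕ → (ℕ →₀ 𝕜)) (a : ℕ →₀ 𝕜)
    (h : ∀ j ∈ a.support, comb u (c j) = D j) : comb u (comb c a) = comb D a := by
  rw [comb_eq_sum c a, comb_eq_sum D a]
  unfold comb
  rw [map_sum]
  refine Finset.sum_congr rfl fun j hj => ?_
  rw [map_smul]
  congr 1
  exact h j hj

theorem inq_eq {e : ℕ → X} {Q : Subfield 𝕜} {C : ℕ} {w : List (ℕ →₀ 𝕜)} (hw : EqL e Q C w)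
    (c D : ℕ → (ℕ →₀ 𝕜)) (a : ℕ →₀ 𝕜)
    (h : ∀ j ∈ a.support, Below (c j) w.length ∧ comb (ent w) (c j) = D j) :
    ‖vec e (comb D a)‖ ≤ C * ‖vec e (comb c a)‖ ∧ ‖vec e (comb c a)‖ ≤ C * ‖vec e (comb D a)‖ := by
  have h1 : Below (comb c a) w.length := by
    intro i hi
    obtain ⟨k, hk, hk2⟩ := mem_support_comb hi
    exact (h k hk).1 i hk2
  have h2 := hw.2.2 (comb c a) h1
  rw [inq_comb_comb (ent w) c D a (fun j hj => (h j hj).2)] at h2
  exact h2

theorem limit_equivalent {e : ℕ → X} {K : ℝ} (hK : 1 ≤ K) (hu : UncK 𝕜 K e)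
    {Q : Subfield 𝕜} {C : ℕ} (c d : ℕ → (ℕ →₀ 𝕜)) (hc : Block c) (hd : Block d)
    (hc1 : ∀ k, ‖vec e (c k)‖ = 1) (hd1 : ∀ k, ‖vec e (d k)‖ = 1)
    (π : ℕ ≃ ℕ) (s : ℕ → ℝ) (hs : ∀ j, 0 < s j) (F : ℕ) (hsF : ∀ j < F, s j = 1)
    (hcopy : ∀ n : ℕ, ∃ w : List (ℕ →₀ 𝕜), EqL e Q C w ∧
      ∀ j, F ≤ j → j < n → Copy w (c j) (d (π j)) (s j)) :
    Equivalent 𝕜 (seqOf e c) (fun j => (s j : 𝕜) • vec e (d (π j))) := by
  classical
  obtain ⟨D, hD⟩ : ∃ D : ℕ → (ℕ →₀ 𝕜), D = fun j => (s j : 𝕜) • d (π j) := ⟨_, rfl⟩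
  have hDj : ∀ j, D j = (s j : 𝕜) • d (π j) := fun j => by rw [hD]
  have hZ : (fun j => (s j : 𝕜) • vec e (d (π j))) = seqOf e D := by
    funext j
    unfold seqOf
    rw [hDj, vec_smul]
  rw [hZ]
  have hdisc : ∀ k l i, c k i ≠ 0 → c l i ≠ 0 → k = l := by
    intro k l i h1 h2
    by_contra hkl
    rcases lt_or_gt_of_ne hkl with h | h
    · exact lt_irrefl _ (hc.lt h (Finsupp.mem_support_iff.2 h1) (Finsupp.mem_support_iff.2 h2))
    · exact lt_irrefl _ (hc.lt h (Finsupp.mem_support_iff.2 h2) (Finsupp.mem_support_iff.2 h1))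
  have hdisd : ∀ k l i, d k i ≠ 0 → d l i ≠ 0 → k = l := by
    intro k l i h1 h2
    by_contra hkl
    rcases lt_or_gt_of_ne hkl with h | h
    · exact lt_irrefl _ (hd.lt h (Finsupp.mem_support_iff.2 h1) (Finsupp.mem_support_iff.2 h2))
    · exact lt_irrefl _ (hd.lt h (Finsupp.mem_support_iff.2 h2) (Finsupp.mem_support_iff.2 h1))
  have hdisD : ∀ k l i, D k i ≠ 0 → D l i ≠ 0 → k = l := by
    intro k l i h1 h2
    rw [hDj, Finsupp.smul_apply, smul_eq_mul] at h1 h2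
    exact π.injective (hdisd _ _ i (right_ne_zero_of_mul h1) (right_ne_zero_of_mul h2))
  have hY : UncK 𝕜 K (seqOf e c) := inq_unc hu hdisc
  have hZu : UncK 𝕜 K (seqOf e D) := inq_unc hu hdisD
  have hY1 : ∀ j < F, ‖seqOf e c j‖ = 1 := fun j _ => hc1 j
  have hZ1 : ∀ j < F, ‖seqOf e D j‖ = 1 := by
    intro j hj
    unfold seqOf
    rw [hDj, hsF j hj, vec_smul]
    simp [hd1]
  refine ⟨F * K + 2 * C * K + 1, by positivity, ?_⟩
  intro a
  obtain ⟨n, hn⟩ : ∃ n : ℕ, ∀ i ∈ a.support, i < n := by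
    refine ⟨a.support.sup id + 1, fun i hi => ?_⟩
    exact Nat.lt_succ_of_le (Finset.le_sup (f := id) hi)
  obtain ⟨w, hw, hcw⟩ := hcopy n
  obtain ⟨P, hP⟩ : ∃ P : ℕ → Prop, P = fun j => Below (c j) w.length ∧ comb (ent w) (c j) = D j := ⟨_, rfl⟩
  obtain ⟨a1, ha1⟩ : ∃ a1 : ℕ →₀ 𝕜, a1 = a.filter (fun j => j < F) := ⟨_, rfl⟩
  obtain ⟨a2, ha2⟩ : ∃ a2 : ℕ →₀ 𝕜, a2 = (a.filter (fun j => ¬ j < F)).filter P := ⟨_, rfl⟩
  obtain ⟨a3, ha3⟩ : ∃ a3 : ℕ →₀ 𝕜, a3 = (a.filter (fun j => ¬ j < F)).filter (fun j => ¬ P j) := ⟨_, rfl⟩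
  have hsum : a = a1 + (a2 + a3) := by
    rw [ha1, ha2, ha3, Finsupp.filter_add_filter_not, Finsupp.filter_add_filter_not]
  have h1 : ∀ j, a1 j = if j < F then a j else 0 := by
    intro j
    rw [ha1, Finsupp.filter_apply]
  have h2 : ∀ j, a2 j = if P j then (if ¬ j < F then a j else 0) else 0 := by
    intro j
    rw [ha2, Finsupp.filter_apply, Finsupp.filter_apply]
  have h3 : ∀ j, a3 j = if ¬ P j then (if ¬ j < F then a j else 0) else 0 := by
    intro j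
    rw [ha3, Finsupp.filter_apply, Finsupp.filter_apply]
  have hn2 : ∀ j, ‖a2 j‖ ≤ ‖a j‖ := by
    intro j
    rw [h2]
    split_ifs <;> simp
  have hn3 : ∀ j, ‖a3 j‖ ≤ ‖a j‖ := by
    intro j
    rw [h3]
    split_ifs <;> simp
  have hs1 : ∀ j ∈ a1.support, j < F ∧ a1 j = a j := by
    intro j hj
    have hj' := Finsupp.mem_support_iff.1 hj
    rw [h1] at hj' ⊢
    by_cases hjF : j < F
    · exact ⟨hjF, if_pos hjF⟩
    · rw [if_neg hjF] at hj'
      exact absurd rfl hj'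
  have hs2 : ∀ j ∈ a2.support, Below (c j) w.length ∧ comb (ent w) (c j) = D j := by
    intro j hj
    have hj' := Finsupp.mem_support_iff.1 hj
    rw [h2] at hj'
    by_cases hPj : P j
    · rw [hP] at hPj
      exact hPj
    · rw [if_neg hPj] at hj'
      exact absurd rfl hj'
  have hs3 : ∀ j ∈ a3.support, Below (D j) w.length ∧ comb (ent w) (D j) = c j := by
    intro j hj
    have hj' := Finsupp.mem_support_iff.1 hj
    rw [h3] at hj'
    by_cases hPj : P j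
    · rw [if_neg (not_not.2 hPj)] at hj'
      exact absurd rfl hj'
    · rw [if_pos hPj] at hj'
      by_cases hjF : j < F
      · rw [if_neg (not_not.2 hjF)] at hj'
        exact absurd rfl hj'
      · rw [if_pos hjF] at hj'
        have hjn : j < n := hn j (Finsupp.mem_support_iff.2 hj')
        have hcop := hcw j (not_lt.1 hjF) hjn
        rcases hcop with hcop | hcop
        · exfalso
          apply hPj
          rw [hP]
          refine ⟨hcop.1, ?_⟩
          rw [hDj]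
          exact hcop.2
        · refine ⟨?_, ?_⟩
          · intro i hi
            apply hcop.1 i
            rw [Finsupp.mem_support_iff] at hi ⊢
            rw [hDj, Finsupp.smul_apply, smul_eq_mul] at hi
            exact right_ne_zero_of_mul hi
          · rw [hDj, comb_smul]
            exact hcop.2.symm
  have e2 := inq_eq hw c D a2 hs2
  have e3 := inq_eq hw D c a3 hs3
  rw [← vec_seqOf, ← vec_seqOf] at e2 e3
  have f1 := inq_one hZu F hY1 hZ1 a a1 hs1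
  have f1' := inq_one hY F hZ1 hY1 a a1 hs1
  have g2 := hY a a2 hn2
  have g2' := hZu a a2 hn2
  have g3 := hY a a3 hn3
  have g3' := hZu a a3 hn3
  have hC0 : (0 : ℝ) ≤ C := Nat.cast_nonneg _
  have tri : ∀ x : ℕ → X, ‖vec x a‖ ≤ ‖vec x a1‖ + (‖vec x a2‖ + ‖vec x a3‖) := by
    intro x
    have : vec x a = vec x a1 + (vec x a2 + vec x a3) := by
      rw [← vec_add, ← vec_add, ← hsum]
    rw [this]
    exact (norm_add_le _ _).trans (add_le_add_right (norm_add_le _ _) _)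
  constructor
  · have t := tri (seqOf e c)
    have q2 : ‖vec (seqOf e c) a2‖ ≤ C * (K * ‖vec (seqOf e D) a‖) :=
      e2.2.trans (mul_le_mul_of_nonneg_left g2' hC0)
    have q3 : ‖vec (seqOf e c) a3‖ ≤ C * (K * ‖vec (seqOf e D) a‖) :=
      e3.1.trans (mul_le_mul_of_nonneg_left g3' hC0)
    have q4 := norm_nonneg (vec (seqOf e D) a)
    nlinarith
  · have t := tri (seqOf e D)
    have q2 : ‖vec (seqOf e D) a2‖ ≤ C * (K * ‖vec (seqOf e c) a‖) :=
      e2.1.trans (mul_le_mul_of_nonneg_left g2 hC0)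
    have q3 : ‖vec (seqOf e D) a3‖ ≤ C * (K * ‖vec (seqOf e c) a‖) :=
      e3.2.trans (mul_le_mul_of_nonneg_left g3 hC0)
    have q4 := norm_nonneg (vec (seqOf e c) a)
    nlinarith

end

end Pool.Agent.EBM
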