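import Pool.Agent.EBM.Sts

/-!
MODULE StA (difficulty 2). The first stage.
Proof. Take (y', z') in U and N with cylP (y', z') N ⊆ U (exists_cylP). Let T be a number larger than all
indices in the supports of y' j, z' j (j < N) and T + 1 ≥ w0.length. Let u be the unit vector with support
{T} (exists_unit). By extend_block (n = N + 1) there is y'' in bX with y'' j = y' j (j < N) and y'' N = u;
similarly z''. The stage is y'', z'', n = N + 1, F = N + 1, w = w0, π = ρ = id, s = 1 (the copy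
condition is void). cylP (y'', z'') (N + 1) ⊆ cylP (y', z') N ⊆ U.
-/

namespace Pool.Agent.EBM

open Finsupp Filter Topology

section
variable {𝕜 : Type*} [RCLike 𝕜] {X : Type*} [NormedAddCommGroup X] [NormedSpace 𝕜 X]

theorem sta_ext {e : ℕ → X} (he : SchauderBasis 𝕜 e) {Q : Subfield 𝕜}
    (hQn : ∀ c : ℕ →₀ 𝕜, (∀ i, c i ∈ Q) → ((‖vec e c‖ : ℝ) : 𝕜) ∈ Q)
    (y : bX e Q) (N T : ℕ) (hT : ∀ k < N, ∀ i ∈ (y.1 k).1.support, i < T) :
    ∃ y' : bX e Q, (∀ k < N, y'.1 k = y.1 k) ∧ (y'.1 N).1.support = {T} := by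
  obtain ⟨u, hu⟩ := exists_unit he hQn T
  obtain ⟨y', hy'⟩ := extend_block he hQn (N + 1) (fun k => if k < N then y.1 k else u) (by
    intro k hk i hi j hj
    have hkN : k < N := by omega
    simp only [if_pos hkN] at hi
    by_cases h : k + 1 < N
    · simp only [if_pos h] at hj
      exact y.2.2 k i hi j hj
    · simp only [if_neg h] at hj
      rw [hu, Finset.mem_singleton] at hj
      rw [hj]
      exact hT k hkN i hi)
  refine ⟨y', fun k hk => ?_, ?_⟩
  · rw [hy' k (by omega), if_pos hk]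
  · rw [hy' N (by omega), if_neg (lt_irrefl N), hu]

theorem sta_bound {e : ℕ → X} {Q : Subfield 𝕜} (y : bX e Q) (N : ℕ) :
    ∃ T : ℕ, ∀ k < N, ∀ i ∈ (y.1 k).1.support, i < T := by
  refine ⟨(Finset.range N).sup (fun k => (y.1 k).1.support.sup id) + 1, fun k hk i hi => ?_⟩
  have h1 : i ≤ (y.1 k).1.support.sup id := Finset.le_sup (f := id) hi
  have h2 : (y.1 k).1.support.sup id ≤ (Finset.range N).sup (fun k => (y.1 k).1.support.sup id) :=
    Finset.le_sup (f := fun k => (y.1 k).1.support.sup id) (Finset.mem_range.mpr hk)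
  omega

theorem stage_zero {e : ℕ → X} (he : SchauderBasis 𝕜 e) {Q : Subfield 𝕜}
    (hQn : ∀ c : ℕ →₀ 𝕜, (∀ i, c i ∈ Q) → ((‖vec e c‖ : ℝ) : 𝕜) ∈ Q)
    {G : Set (List (ℕ →₀ 𝕜))} {w0 : List (ℕ →₀ 𝕜)} (hw0 : w0 ∈ G)
    {U : Set (bX e Q × bX e Q)} (hU : IsOpen U) (hne : U.Nonempty) :
    ∃ t : Stage e Q, Valid G t ∧ cylP (t.y, t.z) t.n ⊆ U := by
  obtain ⟨⟨y, z⟩, hyz⟩ := hne
  obtain ⟨N, hN⟩ := exists_cylP hU hyz
  obtain ⟨T1, hT1⟩ := sta_bound y N
  obtain ⟨T2, hT2⟩ := sta_bound z N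
  obtain ⟨y', hy', hyN⟩ := sta_ext he hQn y N (T1 + T2 + w0.length)
    (fun k hk i hi => by have := hT1 k hk i hi; omega)
  obtain ⟨z', hz', hzN⟩ := sta_ext he hQn z N (T1 + T2 + w0.length)
    (fun k hk i hi => by have := hT2 k hk i hi; omega)
  refine ⟨⟨y', z', N + 1, N + 1, w0, id, id, fun _ => 1⟩, ?_, ?_⟩
  · refine ⟨Nat.succ_pos _, le_refl _, hw0, fun _ _ => one_pos, fun _ _ => rfl,
      fun j hj => ⟨hj, rfl⟩, fun j hj => ⟨hj, rfl⟩, ?_, ?_, ?_⟩
    · intro j hj hj'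
      exact absurd (lt_of_lt_of_le hj' hj) (lt_irrefl _)
    · refine ⟨T1 + T2 + w0.length, ?_, (by omega : w0.length ≤ T1 + T2 + w0.length + 1)⟩
      change _ ∈ (y'.1 (N + 1 - 1)).1.support
      rw [Nat.add_sub_cancel, hyN]
      exact Finset.mem_singleton_self _
    · refine ⟨T1 + T2 + w0.length, ?_, (by omega : w0.length ≤ T1 + T2 + w0.length + 1)⟩
      change _ ∈ (z'.1 (N + 1 - 1)).1.support
      rw [Nat.add_sub_cancel, hzN]
      exact Finset.mem_singleton_self _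
  · intro q hq
    apply hN
    intro k hk
    obtain ⟨h1, h2⟩ := hq k (Nat.lt_succ_of_lt hk)
    exact ⟨h1.trans (hy' k hk), h2.trans (hz' k hk)⟩

end

end Pool.Agent.EBM
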