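import Pool.Agent.EBM.Sts

/-!
MODULE StB (difficulty 3). The next stage.
Notation: t = (y, z, n, F, w, π, ρ, s).
Proof. Take (y', z') in U ∩ cylP (y, z) n, which is open (isOpen_cylP), and (exists_cylP) N ≥ n + 1 with
cylP (y', z') N ⊆ U ∩ cylP (y, z) n (cylP is antitone in n). y' j = y j, z' j = z j for j < n. Let a = N - n ≥ 1.
Let L be larger than all indices in the supports of y' j, z' j (j < N). By invy w.length ≤ L (N > n - 1).
By tree_ext (with L and bound L) get w' in G, w'.length = L, ent w' i = ent w i for i < w.length, and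
Above (ent w' i) L for w.length ≤ i < L.
(1) If n ≤ j < N and k is in the support of y' j or z' j then w.length ≤ k < L: by invy (invz) there is i in the
support of y (n-1) = y' (n-1) with w.length ≤ i + 1, and i < k (Block.lt). So every index of the support of ent w' k is ≥ L.
copy_vec (w' is EqL since w' is in G) gives for j < N: ry j > 0, vy j in Q0 with comb (ent w') (y' j) = ry j • vy j and
rz j > 0, vz j in Q0 with comb (ent w') (z' j) = rz j • vz j. By (1) for n ≤ j < N all indices in the supports of vy j,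
vz j are ≥ L. For n ≤ j < j' < N every index of vy j is < every index of vy j' (the lists are successive: prove first
i < i' for i in the support of ent w' k, i' in the support of ent w' k', k < k' < w'.length, by induction on k', the
entries are nonzero); similarly vz.
New stage (use extend_block with n' = N + a for both sequences):
 y'' j = y' j (j < N), y'' j = vz (j - a) (N ≤ j < N + a);  z'' j = z' j (j < N), z'' j = vy (j - a) (N ≤ j < N + a);
 n' = N + a, F' = F, w', π' j = π j (j < n), j + a (n ≤ j < N), j - a (N ≤ j < N + a); ρ' j = ρ j (j < n), the same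
 otherwise; s' j = s j (j < n), ry j (n ≤ j < N), (rz (j - a))⁻¹ (N ≤ j < N + a).
Copy for j < n: Below (..) w.length and ent w' = ent w below w.length, so comb (ent w') c = comb (ent w) c (comb_eq_sum).
Copy for n ≤ j < N: first alternative. Copy for N ≤ j < N + a: second alternative, z'' (π' j) = z' (j - a).
invy: y'' (n' - 1) = vz (N - 1), its support is nonempty (norm 1) and all its indices are ≥ L = w'.length. invz the same.
cylP (y'', z'') (N + a) ⊆ cylP (y', z') N.
-/

namespace Pool.Agent.EBM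

open Finsupp Filter Topology

section
variable {𝕜 : Type*} [RCLike 𝕜] {X : Type*} [NormedAddCommGroup X] [NormedSpace 𝕜 X]

theorem stB_bound {e : ℕ → X} {Q : Subfield 𝕜} (f : ℕ → Q0 e Q) (N : ℕ) :
    ∃ L : ℕ, ∀ j < N, ∀ i ∈ (f j).1.support, i < L := by
  refine ⟨((Finset.range N).biUnion (fun j => (f j).1.support)).sup id + 1, ?_⟩
  intro j hj i hi
  have h1 : i ∈ (Finset.range N).biUnion (fun j => (f j).1.support) :=
    Finset.mem_biUnion.mpr ⟨j, Finset.mem_range.mpr hj, hi⟩
  have h2 : id i ≤ ((Finset.range N).biUnion (fun j => (f j).1.support)).sup id :=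
    Finset.le_sup h1
  simp only [id] at h2
  omega

theorem stB_nonempty {e : ℕ → X} {Q : Subfield 𝕜} (v : Q0 e Q) : v.1.support.Nonempty := by
  rw [Finsupp.support_nonempty_iff]
  intro h
  have h1 := v.2.2
  rw [h, vec_zero, norm_zero] at h1
  exact zero_ne_one h1

theorem stB_succ {e : ℕ → X} {Q : Subfield 𝕜} {C : ℕ} {s : List (ℕ →₀ 𝕜)} (hs : EqL e Q C s)
    {k l : ℕ} (hkl : k < l) (hl : l < s.length) {i j : ℕ}
    (hi : i ∈ (ent s k).support) (hj : j ∈ (ent s l).support) : i < j := by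
  induction l, hkl using Nat.le_induction generalizing j with
  | base => exact hs.2.1 k hl i hi j hj
  | succ l hl' ih =>
    have hne := (hs.1 l (by omega)).1
    obtain ⟨m, hm⟩ := Finsupp.support_nonempty_iff.mpr hne
    exact lt_trans (ih (by omega) hm) (hs.2.1 l hl m hm j hj)

theorem stB_comb_congr {w w' : List (ℕ →₀ 𝕜)} (h : ∀ i < w.length, ent w' i = ent w i)
    {c : ℕ →₀ 𝕜} (hc : Below c w.length) : comb (ent w') c = comb (ent w) c := by
  rw [comb_eq_sum, comb_eq_sum]
  refine Finset.sum_congr rfl fun i hi => ?_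
  rw [h i (hc i hi)]

theorem stB_copies {e : ℕ → X} {Q : Subfield 𝕜}
    (hQn : ∀ c : ℕ →₀ 𝕜, (∀ i, c i ∈ Q) → ((‖vec e c‖ : ℝ) : 𝕜) ∈ Q) {C : ℕ}
    {s : List (ℕ →₀ 𝕜)} (hs : EqL e Q C s) (f : ℕ → Q0 e Q) (N : ℕ)
    (hf : ∀ j < N, Below (f j).1 s.length) :
    ∃ (r : ℕ → ℝ) (v : ℕ → Q0 e Q), ∀ j < N, 0 < r j ∧ comb (ent s) (f j).1 = ((r j : ℝ) : 𝕜) • (v j).1 ∧
      ∀ i ∈ (v j).1.support, ∃ k ∈ (f j).1.support, i ∈ (ent s k).support := by
  have h : ∀ j, ∃ (r : ℝ) (v : Q0 e Q), j < N → (0 < r ∧ comb (ent s) (f j).1 = (r : 𝕜) • v.1 ∧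
      ∀ i ∈ v.1.support, ∃ k ∈ (f j).1.support, i ∈ (ent s k).support) := by
    intro j
    by_cases hj : j < N
    · obtain ⟨r, v, h1⟩ := copy_vec hQn hs (f j) (hf j hj)
      exact ⟨r, v, fun _ => h1⟩
    · exact ⟨1, f j, fun h => absurd h hj⟩
  choose r v h using h
  exact ⟨r, v, h⟩

theorem stB_extend {e : ℕ → X} (he : SchauderBasis 𝕜 e) {Q : Subfield 𝕜}
    (hQn : ∀ c : ℕ →₀ 𝕜, (∀ i, c i ∈ Q) → ((‖vec e c‖ : ℝ) : 𝕜) ∈ Q) {C : ℕ}
    {s : List (ℕ →₀ 𝕜)} (hs : EqL e Q C s) (f g : bX e Q) (v : ℕ → Q0 e Q) (n N : ℕ) (hnN : n < N)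
    (hf : ∀ j < N, Below (f.1 j).1 s.length) (hg : ∀ j < N, Below (g.1 j).1 s.length)
    (hv : ∀ j < N, ∀ i ∈ (v j).1.support, ∃ k ∈ (g.1 j).1.support, i ∈ (ent s k).support)
    (hv2 : ∀ j, n ≤ j → j < N → ∀ i ∈ (v j).1.support, s.length ≤ i) :
    ∃ f' : bX e Q, (∀ k < N, f'.1 k = f.1 k) ∧ ∀ k, n ≤ k → k < N → f'.1 (k + (N - n)) = v k := by
  obtain ⟨f', hf'⟩ := extend_block he hQn (N + (N - n))
    (fun j => if j < N then f.1 j else v (j - (N - n))) (by
      intro k hk i hi j hj
      by_cases h1 : k + 1 < N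
      · have h2 : k < N := by omega
        simp only [h1, h2, if_true] at hi hj
        exact f.2.2 k i hi j hj
      · by_cases h2 : k < N
        · simp only [h1, h2, if_true, if_false] at hi hj
          have h3 : k + 1 - (N - n) = n := by omega
          rw [h3] at hj
          exact lt_of_lt_of_le (hf k h2 i hi) (hv2 n le_rfl hnN j hj)
        · simp only [h1, h2, if_false] at hi hj
          obtain ⟨k1, hk1, hi1⟩ := hv (k - (N - n)) (by omega) i hi
          obtain ⟨k2, hk2, hj2⟩ := hv (k + 1 - (N - n)) (by omega) j hj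
          have h3 : k1 < k2 := Block.lt g.2 (show k - (N - n) < k + 1 - (N - n) by omega) hk1 hk2
          exact stB_succ hs h3 (hg _ (by omega) k2 hk2) hi1 hj2)
  refine ⟨f', fun k hk => ?_, fun k hk1 hk2 => ?_⟩
  · rw [hf' k (by omega), if_pos hk]
  · rw [hf' _ (by omega), if_neg (by omega), Nat.add_sub_cancel]

theorem stage_succ {e : ℕ → X} (he : SchauderBasis 𝕜 e) {Q : Subfield 𝕜}
    (hQn : ∀ c : ℕ →₀ 𝕜, (∀ i, c i ∈ Q) → ((‖vec e c‖ : ℝ) : 𝕜) ∈ Q) {C : ℕ}
    {G : Set (List (ℕ →₀ 𝕜))} (hG : Tree e Q C G) (t : Stage e Q) (ht : Valid G t)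
    {U : Set (bX e Q × bX e Q)} (hU : IsOpen U) (hne : (U ∩ cylP (t.y, t.z) t.n).Nonempty) :
    ∃ t' : Stage e Q, Valid G t' ∧ Extends t t' ∧
      cylP (t'.y, t'.z) t'.n ⊆ U ∩ cylP (t.y, t.z) t.n := by
  obtain ⟨⟨y', z'⟩, hpU, hpc⟩ := hne
  obtain ⟨N0, hN0⟩ := exists_cylP (hU.inter (isOpen_cylP (t.y, t.z) t.n)) ⟨hpU, hpc⟩
  obtain ⟨N, hN, hnN⟩ : ∃ N, N0 ≤ N ∧ t.n < N := ⟨max N0 (t.n + 1), le_max_left _ _, by
    have := le_max_right N0 (t.n + 1); omega⟩
  have hyy : ∀ j < t.n, y'.1 j = t.y.1 j := fun j hj => (hpc j hj).1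
  have hzz : ∀ j < t.n, z'.1 j = t.z.1 j := fun j hj => (hpc j hj).2
  obtain ⟨L1, hL1⟩ := stB_bound y'.1 N
  obtain ⟨L2, hL2⟩ := stB_bound z'.1 N
  have hn0 := ht.npos
  obtain ⟨iy, hiy, hiy2⟩ := ht.invy
  obtain ⟨iz, hiz, hiz2⟩ := ht.invz
  rw [← hyy _ (by omega)] at hiy
  rw [← hzz _ (by omega)] at hiz
  obtain ⟨L, hLd⟩ : ∃ L, L = max L1 L2 := ⟨_, rfl⟩
  have hLy : ∀ j < N, ∀ i ∈ (y'.1 j).1.support, i < L := fun j hj i hi => by
    have := hL1 j hj i hi
    have := le_max_left L1 L2
    omega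
  have hLz : ∀ j < N, ∀ i ∈ (z'.1 j).1.support, i < L := fun j hj i hi => by
    have := hL2 j hj i hi
    have := le_max_right L1 L2
    omega
  have hwL : t.w.length ≤ L := by
    have := hLy _ (by omega) iy hiy
    omega
  obtain ⟨w', hw'G, hw'L, hw'1, hw'2⟩ := tree_ext hG ht.wG L hwL L
  have hE : EqL e Q C w' := (hG w' hw'G).1
  have hBy : ∀ j < N, Below (y'.1 j).1 w'.length := fun j hj i hi => by
    rw [hw'L]; exact hLy j hj i hi
  have hBz : ∀ j < N, Below (z'.1 j).1 w'.length := fun j hj i hi => by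
    rw [hw'L]; exact hLz j hj i hi
  have hky : ∀ j, t.n ≤ j → j < N → ∀ k ∈ (y'.1 j).1.support, t.w.length ≤ k := by
    intro j hj1 hj2 k hk
    have h1 : iy < k := Block.lt y'.2 (show t.n - 1 < j by omega) hiy hk
    omega
  have hkz : ∀ j, t.n ≤ j → j < N → ∀ k ∈ (z'.1 j).1.support, t.w.length ≤ k := by
    intro j hj1 hj2 k hk
    have h1 : iz < k := Block.lt z'.2 (show t.n - 1 < j by omega) hiz hk
    omega
  obtain ⟨ry, vy, hvy⟩ := stB_copies hQn hE y'.1 N hBy
  obtain ⟨rz, vz, hvz⟩ := stB_copies hQn hE z'.1 N hBz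
  have hvyL : ∀ j, t.n ≤ j → j < N → ∀ i ∈ (vy j).1.support, w'.length ≤ i := by
    intro j hj1 hj2 i hi
    obtain ⟨k, hk, hik⟩ := (hvy j hj2).2.2 i hi
    rw [hw'L]
    exact hw'2 k (hky j hj1 hj2 k hk) (hLy j hj2 k hk) i hik
  have hvzL : ∀ j, t.n ≤ j → j < N → ∀ i ∈ (vz j).1.support, w'.length ≤ i := by
    intro j hj1 hj2 i hi
    obtain ⟨k, hk, hik⟩ := (hvz j hj2).2.2 i hi
    rw [hw'L]
    exact hw'2 k (hkz j hj1 hj2 k hk) (hLz j hj2 k hk) i hik
  obtain ⟨Y, hY1, hY2⟩ := stB_extend he hQn hE y' z' vz t.n N hnN hBy hBz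
    (fun j hj => (hvz j hj).2.2) hvzL
  obtain ⟨Z, hZ1, hZ2⟩ := stB_extend he hQn hE z' y' vy t.n N hnN hBz hBy
    (fun j hj => (hvy j hj).2.2) hvyL
  obtain ⟨a, ha⟩ : ∃ a, a = N - t.n := ⟨_, rfl⟩
  rw [← ha] at hY2 hZ2
  let t' : Stage e Q :=
    { y := Y
      z := Z
      n := N + a
      F := t.F
      w := w'
      π := fun j => if j < t.n then t.π j else if j < N then j + a else j - a
      ρ := fun j => if j < t.n then t.ρ j else if j < N then j + a else j - a
      s := fun j => if j < t.n then t.s j else if j < N then ry j else (rz (j - a))⁻¹ }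
  have hFn := ht.Fle
  have hinv : ∀ (f g : ℕ → ℕ), (∀ j < t.n, f j < t.n ∧ g (f j) = j) → ∀ j < N + a,
      (if j < t.n then f j else if j < N then j + a else j - a) < N + a ∧
      (fun j => if j < t.n then g j else if j < N then j + a else j - a)
        (if j < t.n then f j else if j < N then j + a else j - a) = j := by
    intro f g hfg j hj
    by_cases h1 : j < t.n
    · have h2 := hfg j h1
      rw [if_pos h1]
      refine ⟨by omega, ?_⟩
      simp only
      rw [if_pos h2.1, h2.2]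
    · by_cases h2 : j < N
      · rw [if_neg h1, if_pos h2]
        refine ⟨by omega, ?_⟩
        simp only
        rw [if_neg (by omega), if_neg (by omega)]
        omega
      · rw [if_neg h1, if_neg h2]
        refine ⟨by omega, ?_⟩
        simp only
        rw [if_neg (by omega), if_pos (by omega)]
        omega
  refine ⟨t', ?_, ?_, ?_⟩
  · constructor
    · show 0 < N + a
      omega
    · show t.F ≤ N + a
      omega
    · exact hw'G
    · intro j hj
      have hj' : j < N + a := hj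
      show 0 < (if j < t.n then t.s j else if j < N then ry j else (rz (j - a))⁻¹)
      split_ifs with h1 h2
      · exact ht.spos j h1
      · exact (hvy j h2).1
      · exact inv_pos.mpr (hvz (j - a) (by omega)).1
    · intro j hj
      have hj' : j < t.F := hj
      show (if j < t.n then t.s j else if j < N then ry j else (rz (j - a))⁻¹) = 1
      rw [if_pos (by omega)]
      exact ht.sF j hj'
    · intro j hj
      exact hinv t.π t.ρ ht.pi_lt j hj
    · intro j hj
      exact hinv t.ρ t.π ht.rho_lt j hj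
    · intro j hF hj
      have hj' : j < N + a := hj
      have hF' : t.F ≤ j := hF
      show Copy w' (Y.1 j).1 (Z.1 (if j < t.n then t.π j else if j < N then j + a else j - a)).1
        (if j < t.n then t.s j else if j < N then ry j else (rz (j - a))⁻¹)
      by_cases h1 : j < t.n
      · have h2 := (ht.pi_lt j h1).1
        rw [if_pos h1, if_pos h1, hY1 j (by omega), hZ1 _ (by omega), hyy j h1, hzz _ h2]
        rcases ht.copy j hF' h1 with h3 | h3
        · refine Or.inl ⟨fun i hi => ?_, ?_⟩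
          · have := h3.1 i hi
            omega
          · rw [stB_comb_congr hw'1 h3.1]
            exact h3.2
        · refine Or.inr ⟨fun i hi => ?_, ?_⟩
          · have := h3.1 i hi
            omega
          · rw [stB_comb_congr hw'1 h3.1]
            exact h3.2
      · by_cases h2 : j < N
        · rw [if_neg h1, if_pos h2, if_neg h1, if_pos h2, hY1 j h2, hZ2 j (by omega) h2]
          exact Or.inl ⟨hBy j h2, (hvy j h2).2.1⟩
        · rw [if_neg h1, if_neg h2, if_neg h1, if_neg h2]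
          have h3 : j = (j - a) + a := by omega
          have h4 : Y.1 j = vz (j - a) := by
            conv_lhs => rw [h3]
            exact hY2 (j - a) (by omega) (by omega)
          rw [h4, hZ1 (j - a) (by omega)]
          refine Or.inr ⟨hBz (j - a) (by omega), ?_⟩
          have h5 := hvz (j - a) (by omega)
          rw [h5.2.1, smul_smul]
          have h6 : (((rz (j - a))⁻¹ : ℝ) : 𝕜) * ((rz (j - a) : ℝ) : 𝕜) = 1 := by
            rw [← RCLike.ofReal_mul, inv_mul_cancel₀ h5.1.ne', RCLike.ofReal_one]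
          rw [h6, one_smul]
    · show ∃ i ∈ (Y.1 (N + a - 1)).1.support, w'.length ≤ i + 1
      have h1 : N + a - 1 = (N - 1) + a := by omega
      rw [h1, hY2 (N - 1) (by omega) (by omega)]
      obtain ⟨i, hi⟩ := stB_nonempty (vz (N - 1))
      exact ⟨i, hi, (hvzL (N - 1) (by omega) (by omega) i hi).trans (Nat.le_succ i)⟩
    · show ∃ i ∈ (Z.1 (N + a - 1)).1.support, w'.length ≤ i + 1
      have h1 : N + a - 1 = (N - 1) + a := by omega
      rw [h1, hZ2 (N - 1) (by omega) (by omega)]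
      obtain ⟨i, hi⟩ := stB_nonempty (vy (N - 1))
      exact ⟨i, hi, (hvyL (N - 1) (by omega) (by omega) i hi).trans (Nat.le_succ i)⟩
  · refine ⟨show t.n < N + a by omega, rfl, fun j hj => ?_⟩
    refine ⟨?_, ?_, ?_, ?_, ?_⟩
    · show Y.1 j = t.y.1 j
      rw [hY1 j (by omega), hyy j hj]
    · show Z.1 j = t.z.1 j
      rw [hZ1 j (by omega), hzz j hj]
    · show (if j < t.n then t.π j else if j < N then j + a else j - a) = t.π j
      rw [if_pos hj]
    · show (if j < t.n then t.ρ j else if j < N then j + a else j - a) = t.ρ j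
      rw [if_pos hj]
    · show (if j < t.n then t.s j else if j < N then ry j else (rz (j - a))⁻¹) = t.s j
      rw [if_pos hj]
  · intro q hq
    apply hN0
    intro k hk
    have hq' : ∀ k < N + a, q.1.1 k = Y.1 k ∧ q.2.1 k = Z.1 k := hq
    have h1 := hq' k (by omega)
    refine ⟨?_, ?_⟩
    · show q.1.1 k = y'.1 k
      rw [h1.1, hY1 k (by omega)]
    · show q.2.1 k = z'.1 k
      rw [h1.2, hZ1 k (by omega)]

end

end Pool.Agent.EBM
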