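import Pool.Agent.EBM.Bas

/-!
MODULE Pt (difficulty 3). Perturbation.
perturb. Let x = seqOf e u, x' = seqOf e w, C ≥ 1 a constant of the equivalence of x and e
(enlarge it). w is a block family so x' is K-unconditional (Block.uncK), and x' k ≠ 0
(he.vec_inj and w k ≠ 0); the same for x. Coefficient bounds: UncK.coef.
Choose k1 with K * C * ∑_{k ≥ k1} (1/2)^k ≤ 1/2, i.e. K * C * 2 * (1/2)^k1 ≤ 1/2. For a supported
in [k1, ∞): norm (vec x' a - vec x a) ≤ ∑ norm (a k) * norm (e k) * (1/2)^k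
 ≤ ∑ (1/2)^k K norm (vec e a) ≤ K C (∑ (1/2)^k) norm (vec x a) ≤ (1/2) norm (vec x a).
Hence norm (vec x' a) ≤ (3/2) norm (vec x a) ≤ (3/2) C norm (vec e a) and
norm (vec e a) ≤ C norm (vec x a) ≤ 2 C norm (vec x' a).
For a supported in [0,k1): norm (vec x' a) ≤ ∑_{k<k1} norm (a k) norm (x' k)
 ≤ (∑_{k<k1} norm (x' k) K / norm (e k)) norm (vec e a), and in the other direction
norm (vec e a) ≤ ∑_{k<k1} norm (a k) norm (e k) ≤ (∑_{k<k1} norm (e k) K / norm (x' k)) norm (vec x' a).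
General a = a0 + a1 (restriction to {k < k1} and the rest, Finsupp.filter): the two parts have
norm ≤ K times the norm of the whole, for e and for x'. Add.
sparse. Let p be strictly increasing. c k = single (p k) 1 is a block family; hmin gives a block
family d with seqOf (seqOf e c) d equivalent to e. u0 k = comb c (d k) has support in
{p i : i in support of d k}. Let t k = norm (e k) / norm (vec e (u0 k)) and u k = t k • u0 k; then
norm (vec e (u k)) = norm (e k). By the equivalence (applied to single k 1) t k is between 1/C and C;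
vec (seqOf e u) a = vec (seqOf e u0) (fun k => a k * t k), so by unconditionality of
seqOf e u0 the sequence seqOf e u is equivalent to seqOf e u0, hence to e. Choose w k in N k close
to u k by hN3 (ε k = norm (e k) * (1/2)^k). From Above/Below: w is a block family (w k ≠ 0 since
norm (vec e (w k)) = norm (e k) ≠ 0; the support of w k lies between the minimum and the maximum of the
support of u k). Apply perturb. q k = max of the support of d k: strictly increasing as d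
is a block family; the support of u k is in {p i : i ≤ q k}, so Below (u k) (p (q k) + 1), and the
support of u (k+1) is in {p i : i > q k}, so Above (u (k+1)) (p (q k + 1)).
-/

namespace Pool.Agent.EBM

open Finsupp Filter Topology

section
variable {𝕜 : Type*} [RCLike 𝕜] {X : Type*} [NormedAddCommGroup X] [NormedSpace 𝕜 X]

theorem pt_filter {K : ℝ} {x : ℕ → X} (hx : UncK 𝕜 K x) (a : ℕ →₀ 𝕜) (P : ℕ → Prop)
    [DecidablePred P] : ‖vec x (a.filter P)‖ ≤ K * ‖vec x a‖ := by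
  apply hx
  intro i
  by_cases hi : P i
  · rw [Finsupp.filter_apply_pos P a hi]
  · rw [Finsupp.filter_apply_neg P a hi, norm_zero]
    exact norm_nonneg _

theorem pt_norm_vec_le (x : ℕ → X) (a : ℕ →₀ 𝕜) :
    ‖vec x a‖ ≤ ∑ i ∈ a.support, ‖a i‖ * ‖x i‖ := by
  rw [vec_eq_sum]
  refine (norm_sum_le _ _).trans (le_of_eq ?_)
  exact Finset.sum_congr rfl fun i _ => norm_smul _ _

/-- Comparison of the norms of vectors supported in an initial segment. -/
theorem pt_low {K : ℝ} (hK : 0 ≤ K) {x y : ℕ → X} (hx : UncK 𝕜 K x) (hx0 : ∀ i, x i ≠ 0)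
    (k1 : ℕ) :
    ∃ M : ℝ, 0 ≤ M ∧ ∀ a : ℕ →₀ 𝕜, (∀ i ∈ a.support, i < k1) → ‖vec y a‖ ≤ M * ‖vec x a‖ := by
  refine ⟨∑ i ∈ Finset.range k1, K * (‖y i‖ / ‖x i‖), ?_, ?_⟩
  · exact Finset.sum_nonneg fun i _ => by positivity
  · intro a ha
    calc ‖vec y a‖ ≤ ∑ i ∈ a.support, ‖a i‖ * ‖y i‖ := pt_norm_vec_le y a
      _ ≤ ∑ i ∈ Finset.range k1, ‖a i‖ * ‖y i‖ := by
          apply Finset.sum_le_sum_of_subset_of_nonneg
          · intro i hi
            exact Finset.mem_range.mpr (ha i hi)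
          · intro i _ _
            positivity
      _ ≤ ∑ i ∈ Finset.range k1, K * (‖y i‖ / ‖x i‖) * ‖vec x a‖ := by
          apply Finset.sum_le_sum
          intro i _
          have h1 := hx.coef a i
          have h2 : 0 < ‖x i‖ := norm_pos_iff.mpr (hx0 i)
          have h3 : ‖a i‖ ≤ K * ‖vec x a‖ / ‖x i‖ := by
            rw [le_div_iff₀ h2]
            exact h1
          calc ‖a i‖ * ‖y i‖ ≤ K * ‖vec x a‖ / ‖x i‖ * ‖y i‖ :=
                mul_le_mul_of_nonneg_right h3 (norm_nonneg _)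
            _ = K * (‖y i‖ / ‖x i‖) * ‖vec x a‖ := by ring
      _ = (∑ i ∈ Finset.range k1, K * (‖y i‖ / ‖x i‖)) * ‖vec x a‖ := by
          rw [Finset.sum_mul]

theorem pt_geom (k1 : ℕ) (s : Finset ℕ) (hs : ∀ i ∈ s, k1 ≤ i) :
    ∑ i ∈ s, (1 / 2 : ℝ) ^ i ≤ 2 * (1 / 2) ^ k1 := by
  calc ∑ i ∈ s, (1 / 2 : ℝ) ^ i ≤ ∑ i ∈ Finset.Ico k1 (s.sup id + 1), (1 / 2 : ℝ) ^ i := by
        apply Finset.sum_le_sum_of_subset_of_nonneg
        · intro i hi
          have h1 : i ≤ s.sup id := Finset.le_sup (f := id) hi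
          rw [Finset.mem_Ico]
          exact ⟨hs i hi, by omega⟩
        · intro i _ _
          positivity
    _ ≤ (1 / 2 : ℝ) ^ k1 / (1 - 1 / 2) :=
        geom_sum_Ico_le_of_lt_one (by norm_num) (by norm_num)
    _ = 2 * (1 / 2) ^ k1 := by ring

/-- The difference of two perturbed combinations supported in a tail. -/
theorem pt_tail {K : ℝ} (hK : 0 ≤ K) {e x y : ℕ → X} (he : UncK 𝕜 K e)
    (hxy : ∀ i, ‖y i - x i‖ ≤ ‖e i‖ * (1 / 2) ^ i) (k1 : ℕ) (a : ℕ →₀ 𝕜)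
    (ha : ∀ i ∈ a.support, k1 ≤ i) :
    ‖vec y a - vec x a‖ ≤ K * (2 * (1 / 2) ^ k1) * ‖vec e a‖ := by
  have h1 : vec y a - vec x a = ∑ i ∈ a.support, a i • (y i - x i) := by
    rw [vec_eq_sum, vec_eq_sum, ← Finset.sum_sub_distrib]
    exact Finset.sum_congr rfl fun i _ => (smul_sub _ _ _).symm
  rw [h1]
  calc ‖∑ i ∈ a.support, a i • (y i - x i)‖ ≤ ∑ i ∈ a.support, ‖a i • (y i - x i)‖ :=
        norm_sum_le _ _
    _ ≤ ∑ i ∈ a.support, K * ‖vec e a‖ * (1 / 2) ^ i := by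
        apply Finset.sum_le_sum
        intro i _
        rw [norm_smul]
        have h2 := he.coef a i
        calc ‖a i‖ * ‖y i - x i‖ ≤ ‖a i‖ * (‖e i‖ * (1 / 2) ^ i) :=
              mul_le_mul_of_nonneg_left (hxy i) (norm_nonneg _)
          _ = (‖a i‖ * ‖e i‖) * (1 / 2) ^ i := by ring
          _ ≤ (K * ‖vec e a‖) * (1 / 2) ^ i :=
              mul_le_mul_of_nonneg_right h2 (by positivity)
    _ = K * ‖vec e a‖ * ∑ i ∈ a.support, (1 / 2 : ℝ) ^ i := by rw [Finset.mul_sum]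
    _ ≤ K * ‖vec e a‖ * (2 * (1 / 2) ^ k1) :=
        mul_le_mul_of_nonneg_left (pt_geom k1 _ ha) (by positivity)
    _ = K * (2 * (1 / 2) ^ k1) * ‖vec e a‖ := by ring

theorem perturb {e : ℕ → X} (he : SchauderBasis 𝕜 e) {K : ℝ} (hK : 1 ≤ K) (hu : UncK 𝕜 K e)
    (u w : ℕ → (ℕ →₀ 𝕜)) (hub : Block u) (hwb : Block w)
    (hue : Equivalent 𝕜 (seqOf e u) e)
    (hw : ∀ k, ‖vec e (u k) - vec e (w k)‖ ≤ ‖e k‖ * (1 / 2) ^ k) :
    Equivalent 𝕜 (seqOf e w) e := by
  obtain ⟨C, hC, hC2⟩ := hue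
  have hK0 : 0 ≤ K := by linarith
  have hwu : UncK 𝕜 K (seqOf e w) := hwb.uncK hu
  have he0 : ∀ i, e i ≠ 0 := he.ne_zero
  have hw0 : ∀ i, seqOf e w i ≠ 0 := fun i h => hwb.1 i (he.vec_inj h)
  obtain ⟨k1, hk1⟩ : ∃ k1 : ℕ, K * (2 * (1 / 2 : ℝ) ^ k1) * C ≤ 1 / 2 := by
    obtain ⟨k1, hk1⟩ := exists_pow_lt_of_lt_one (show (0 : ℝ) < 1 / (4 * (K * C)) by positivity)
      (show (1 / 2 : ℝ) < 1 by norm_num)
    refine ⟨k1, ?_⟩
    have hKC : 0 < K * C := by positivity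
    rw [lt_div_iff₀ (by positivity)] at hk1
    nlinarith
  obtain ⟨M1, hM1, hM1'⟩ := pt_low (y := seqOf e w) hK0 hu he0 k1
  obtain ⟨M2, hM2, hM2'⟩ := pt_low (y := e) hK0 hwu hw0 k1
  have hdiff : ∀ i, ‖seqOf e w i - seqOf e u i‖ ≤ ‖e i‖ * (1 / 2) ^ i := by
    intro i
    rw [norm_sub_rev]
    exact hw i
  -- tails
  have htail : ∀ a : ℕ →₀ 𝕜, (∀ i ∈ a.support, k1 ≤ i) →
      ‖vec (seqOf e w) a‖ ≤ 2 * C * ‖vec e a‖ ∧ ‖vec e a‖ ≤ 2 * C * ‖vec (seqOf e w) a‖ := by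
    intro a ha
    have h1 := pt_tail hK0 hu hdiff k1 a ha
    have h2 := (hC2 a).1
    have h3 := (hC2 a).2
    have h4 : ‖vec (seqOf e w) a - vec (seqOf e u) a‖ ≤ 1 / 2 * ‖vec (seqOf e u) a‖ := by
      calc ‖vec (seqOf e w) a - vec (seqOf e u) a‖ ≤ K * (2 * (1 / 2) ^ k1) * ‖vec e a‖ := h1
        _ ≤ K * (2 * (1 / 2) ^ k1) * (C * ‖vec (seqOf e u) a‖) :=
            mul_le_mul_of_nonneg_left h3 (by positivity)
        _ = K * (2 * (1 / 2) ^ k1) * C * ‖vec (seqOf e u) a‖ := by ring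
        _ ≤ 1 / 2 * ‖vec (seqOf e u) a‖ := mul_le_mul_of_nonneg_right hk1 (norm_nonneg _)
    have h5 := norm_sub_norm_le (vec (seqOf e w) a) (vec (seqOf e u) a)
    have h6 := norm_sub_norm_le (vec (seqOf e u) a) (vec (seqOf e w) a)
    rw [norm_sub_rev] at h6
    have h7 : 0 ≤ C * ‖vec e a‖ := by positivity
    constructor
    · have : ‖vec (seqOf e w) a‖ ≤ 3 / 2 * ‖vec (seqOf e u) a‖ := by linarith
      nlinarith
    · have : ‖vec (seqOf e u) a‖ ≤ 2 * ‖vec (seqOf e w) a‖ := by linarith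
      calc ‖vec e a‖ ≤ C * ‖vec (seqOf e u) a‖ := h3
        _ ≤ C * (2 * ‖vec (seqOf e w) a‖) := mul_le_mul_of_nonneg_left this hC.le
        _ = 2 * C * ‖vec (seqOf e w) a‖ := by ring
  have hsplit : ∀ (x : ℕ → X) (a : ℕ →₀ 𝕜),
      ‖vec x a‖ ≤ ‖vec x (a.filter (· < k1))‖ + ‖vec x (a.filter (fun i => ¬ i < k1))‖ := by
    intro x a
    conv_lhs => rw [← Finsupp.filter_add_filter_not a (· < k1), vec_add]
    exact norm_add_le _ _
  have hs0 : ∀ a : ℕ →₀ 𝕜, ∀ i ∈ (a.filter (· < k1)).support, i < k1 := by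
    intro a i hi
    rw [Finsupp.support_filter, Finset.mem_filter] at hi
    exact hi.2
  have hs1 : ∀ a : ℕ →₀ 𝕜, ∀ i ∈ (a.filter (fun i => ¬ i < k1)).support, k1 ≤ i := by
    intro a i hi
    rw [Finsupp.support_filter, Finset.mem_filter] at hi
    exact not_lt.mp hi.2
  refine ⟨(M1 + M2 + 2 * C) * K, by positivity, ?_⟩
  intro a
  constructor
  · have h1 := hsplit (seqOf e w) a
    have h2 := hM1' _ (hs0 a)
    have h3 := (htail _ (hs1 a)).1
    have h4 := pt_filter hu a (· < k1)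
    have h5 := pt_filter hu a (fun i => ¬ i < k1)
    calc ‖vec (seqOf e w) a‖ ≤ M1 * ‖vec e (a.filter (· < k1))‖ +
          2 * C * ‖vec e (a.filter (fun i => ¬ i < k1))‖ := by linarith
      _ ≤ M1 * (K * ‖vec e a‖) + 2 * C * (K * ‖vec e a‖) := by
          gcongr
      _ ≤ (M1 + M2 + 2 * C) * K * ‖vec e a‖ := by
          have : 0 ≤ M2 * (K * ‖vec e a‖) := by positivity
          nlinarith
  · have h1 := hsplit e a
    have h2 := hM2' _ (hs0 a)
    have h3 := (htail _ (hs1 a)).2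
    have h4 := pt_filter hwu a (· < k1)
    have h5 := pt_filter hwu a (fun i => ¬ i < k1)
    calc ‖vec e a‖ ≤ M2 * ‖vec (seqOf e w) (a.filter (· < k1))‖ +
          2 * C * ‖vec (seqOf e w) (a.filter (fun i => ¬ i < k1))‖ := by linarith
      _ ≤ M2 * (K * ‖vec (seqOf e w) a‖) + 2 * C * (K * ‖vec (seqOf e w) a‖) := by
          gcongr
      _ ≤ (M1 + M2 + 2 * C) * K * ‖vec (seqOf e w) a‖ := by
          have : 0 ≤ M1 * (K * ‖vec (seqOf e w) a‖) := by positivity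
          nlinarith

theorem pt_trans {x y z : ℕ → X} (h1 : Equivalent 𝕜 x y) (h2 : Equivalent 𝕜 y z) :
    Equivalent 𝕜 x z := by
  obtain ⟨C, hC, h1⟩ := h1
  obtain ⟨D, hD, h2⟩ := h2
  refine ⟨C * D, by positivity, fun a => ⟨?_, ?_⟩⟩
  · calc ‖vec x a‖ ≤ C * ‖vec y a‖ := (h1 a).1
      _ ≤ C * (D * ‖vec z a‖) := mul_le_mul_of_nonneg_left (h2 a).1 hC.le
      _ = C * D * ‖vec z a‖ := by ring
  · calc ‖vec z a‖ ≤ D * ‖vec y a‖ := (h2 a).2
      _ ≤ D * (C * ‖vec x a‖) := mul_le_mul_of_nonneg_left (h1 a).2 hD.le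
      _ = C * D * ‖vec x a‖ := by ring

/-- Rescaling an unconditional sequence by bounded factors. -/
theorem pt_rescale {K C : ℝ} (hK : 0 ≤ K) (hC : 0 < C) {x y : ℕ → X} (hx : UncK 𝕜 K x)
    (t : ℕ → ℝ) (ht0 : ∀ k, 0 < t k) (ht1 : ∀ k, t k ≤ C) (ht2 : ∀ k, 1 ≤ C * t k)
    (hy : ∀ k, y k = (t k : 𝕜) • x k) : Equivalent 𝕜 y x := by
  have hb : ∀ a : ℕ →₀ 𝕜, ∃ b : ℕ →₀ 𝕜, (∀ k, b k = a k * (t k : 𝕜)) ∧ vec y a = vec x b := by
    intro a
    have hmem : ∀ k, a k * (t k : 𝕜) ≠ 0 → k ∈ a.support := by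
      intro k hk
      rw [Finsupp.mem_support_iff]
      intro h0
      exact hk (by rw [h0, zero_mul])
    refine ⟨Finsupp.onFinset a.support (fun k => a k * (t k : 𝕜)) hmem, fun k => rfl, ?_⟩
    rw [vec_eq_sum]
    unfold vec
    rw [Finsupp.linearCombination_apply, Finsupp.onFinset_sum]
    · apply Finset.sum_congr rfl
      intro k _
      rw [hy k, smul_smul]
    · intro k
      rw [zero_smul]
  refine ⟨K * C + 1, by positivity, fun a => ?_⟩
  obtain ⟨b, hb1, hb2⟩ := hb a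
  have hCn : ‖(C : 𝕜)‖ = C := by
    rw [RCLike.norm_ofReal, abs_of_pos hC]
  have htn : ∀ k, ‖(t k : 𝕜)‖ = t k := fun k => by
    rw [RCLike.norm_ofReal, abs_of_pos (ht0 k)]
  constructor
  · have h1 := hx ((C : 𝕜) • a) b (by
      intro k
      rw [hb1, Finsupp.smul_apply, norm_mul, norm_smul, hCn, htn, mul_comm]
      exact mul_le_mul_of_nonneg_right (ht1 k) (norm_nonneg _))
    rw [vec_smul, norm_smul, hCn] at h1
    rw [hb2]
    have h2 : 0 ≤ ‖vec x a‖ := norm_nonneg _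
    nlinarith
  · have h1 := hx ((C : 𝕜) • b) a (by
      intro k
      rw [Finsupp.smul_apply, norm_smul, hb1, norm_mul, hCn, htn]
      have h3 := ht2 k
      have h4 : 0 ≤ ‖a k‖ := norm_nonneg _
      nlinarith)
    rw [vec_smul, norm_smul, hCn] at h1
    rw [hb2]
    have h2 : 0 ≤ ‖vec x b‖ := norm_nonneg _
    nlinarith

theorem sparse {e : ℕ → X} (he : SchauderBasis 𝕜 e) {K : ℝ} (hK : 1 ≤ K) (hu : UncK 𝕜 K e)
    (hmin : ∀ c : ℕ → (ℕ →₀ 𝕜), Block c → ∃ d : ℕ → (ℕ →₀ 𝕜), Block d ∧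
      Equivalent 𝕜 (seqOf (seqOf e c) d) e)
    (N : ℕ → Set (ℕ →₀ 𝕜)) (hN1 : ∀ k, ∀ c ∈ N k, ‖vec e c‖ = ‖e k‖)
    (hN3 : ∀ k, ∀ c : ℕ →₀ 𝕜, ‖vec e c‖ = ‖e k‖ → ∃ c' ∈ N k,
      ‖vec e c - vec e c'‖ ≤ ‖e k‖ * (1 / 2) ^ k ∧
      (∀ a, Above c a → Above c' a) ∧ ∀ m, Below c m → Below c' m)
    (p : ℕ → ℕ) (hp : StrictMono p) :
    ∃ w : ℕ → (ℕ →₀ 𝕜), (∀ k, w k ∈ N k) ∧ Block w ∧ Equivalent 𝕜 (seqOf e w) e ∧
      ∃ q : ℕ → ℕ, StrictMono q ∧
        ∀ k, Below (w k) (p (q k) + 1) ∧ Above (w (k + 1)) (p (q k + 1)) := by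
  classical
  have hK0 : 0 ≤ K := by linarith
  have hsupp : ∀ k i, i ∈ (single (p k) (1 : 𝕜)).support → i = p k := by
    intro k i hi
    rw [Finsupp.mem_support_iff] at hi
    by_contra hne
    exact hi (Finsupp.single_eq_of_ne hne)
  have hcb : Block (fun k => single (p k) (1 : 𝕜)) := by
    refine ⟨fun k => ?_, fun k i hi j hj => ?_⟩
    · simp
    · rw [hsupp k i hi, hsupp (k + 1) j hj]
      exact hp (Nat.lt_succ_self k)
  obtain ⟨d, hd, hde⟩ := hmin _ hcb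
  rw [seqOf_seqOf] at hde
  set c : ℕ → (ℕ →₀ 𝕜) := fun k => single (p k) (1 : 𝕜) with hc
  set u0 : ℕ → (ℕ →₀ 𝕜) := fun k => comb c (d k) with hu0
  have hu0b : Block u0 := hcb.comb hd
  have hu0n : ∀ k, 0 < ‖vec e (u0 k)‖ := fun k =>
    norm_pos_iff.mpr fun h => hu0b.1 k (he.vec_inj h)
  have hen : ∀ k, 0 < ‖e k‖ := fun k => norm_pos_iff.mpr (he.ne_zero k)
  obtain ⟨C, hC, hC2⟩ := id hde
  have hb1 : ∀ k, ‖vec e (u0 k)‖ ≤ C * ‖e k‖ ∧ ‖e k‖ ≤ C * ‖vec e (u0 k)‖ := by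
    intro k
    have h := hC2 (single k 1)
    rw [vec_single, vec_single, one_smul, one_smul] at h
    exact h
  set t : ℕ → ℝ := fun k => ‖e k‖ / ‖vec e (u0 k)‖ with ht
  have ht0 : ∀ k, 0 < t k := fun k => div_pos (hen k) (hu0n k)
  have ht1 : ∀ k, t k ≤ C := fun k => by
    rw [ht]
    simp only
    rw [div_le_iff₀ (hu0n k)]
    exact (hb1 k).2
  have ht2 : ∀ k, 1 ≤ C * t k := fun k => by
    rw [ht]
    simp only
    rw [← mul_div_assoc, le_div_iff₀ (hu0n k), one_mul]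
    exact (hb1 k).1
  set u : ℕ → (ℕ →₀ 𝕜) := fun k => (t k : 𝕜) • u0 k with hu'
  have htne : ∀ k, (t k : 𝕜) ≠ 0 := fun k => by
    rw [Ne, RCLike.ofReal_eq_zero]
    exact (ht0 k).ne'
  have husupp : ∀ k, (u k).support ⊆ (u0 k).support := fun k => Finsupp.support_smul
  have hub : Block u := by
    refine ⟨fun k h => ?_, fun k i hi j hj => ?_⟩
    · rcases smul_eq_zero.mp h with h1 | h1
      · exact htne k h1
      · exact hu0b.1 k h1
    · exact hu0b.2 k i (husupp k hi) j (husupp (k + 1) hj)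
  have hun : ∀ k, ‖vec e (u k)‖ = ‖e k‖ := by
    intro k
    rw [hu']
    simp only
    rw [vec_smul, norm_smul, RCLike.norm_ofReal, abs_of_pos (ht0 k), ht]
    simp only
    rw [div_mul_cancel₀ _ (hu0n k).ne']
  have hueq : Equivalent 𝕜 (seqOf e u) e := by
    refine pt_trans (pt_rescale hK0 hC (hu0b.uncK hu) t ht0 ht1 ht2 ?_) hde
    intro k
    unfold seqOf
    rw [hu']
    simp only
    rw [vec_smul]
  choose w hwN hwd hwA hwB using fun k => hN3 k (u k) (hun k)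
  have hwb : Block w := by
    refine ⟨fun k h => ?_, fun k i hi j hj => ?_⟩
    · have h1 := hN1 k (w k) (hwN k)
      rw [h, vec_zero, norm_zero] at h1
      exact (hen k).ne h1
    · have h1 : Below (u k) ((u k).support.sup id + 1) := by
        intro l hl
        have : l ≤ (u k).support.sup id := Finset.le_sup (f := id) hl
        omega
      obtain ⟨l0, hl0, hl0'⟩ := Finset.exists_mem_eq_sup (u k).support
        (Finsupp.support_nonempty_iff.mpr (hub.1 k)) id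
      have h2 : Above (u (k + 1)) ((u k).support.sup id + 1) := by
        intro l hl
        have := hub.2 k l0 hl0 l hl
        rw [hl0']
        simp only [id]
        omega
      have h3 := hwB k _ h1 i hi
      have h4 := hwA (k + 1) _ h2 j hj
      omega
  refine ⟨w, hwN, hwb, perturb he hK hu u w hub hwb hueq hwd, fun k => (d k).support.sup id,
    ?_, ?_⟩
  · apply strictMono_nat_of_lt_succ
    intro k
    obtain ⟨l0, hl0, hl0'⟩ := Finset.exists_mem_eq_sup (d k).support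
      (Finsupp.support_nonempty_iff.mpr (hd.1 k)) id
    obtain ⟨l1, hl1, hl1'⟩ := Finset.exists_mem_eq_sup (d (k + 1)).support
      (Finsupp.support_nonempty_iff.mpr (hd.1 (k + 1))) id
    change (d k).support.sup id < (d (k + 1)).support.sup id
    rw [hl0', hl1']
    exact hd.2 k l0 hl0 l1 hl1
  · intro k
    constructor
    · apply hwB
      intro i hi
      obtain ⟨l, hl, hil⟩ := mem_support_comb (husupp k hi)
      have h1 : i = p l := hsupp l i hil
      have h2 : l ≤ (d k).support.sup id := Finset.le_sup (f := id) hl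
      rw [h1]
      exact Nat.lt_succ_of_le (hp.monotone h2)
    · apply hwA
      intro i hi
      obtain ⟨l, hl, hil⟩ := mem_support_comb (husupp (k + 1) hi)
      have h1 : i = p l := hsupp l i hil
      obtain ⟨l0, hl0, hl0'⟩ := Finset.exists_mem_eq_sup (d k).support
        (Finsupp.support_nonempty_iff.mpr (hd.1 k)) id
      have h2 : l0 < l := hd.2 k l0 hl0 l hl
      rw [h1]
      apply hp.monotone
      simp only
      rw [hl0']
      exact h2

end

end Pool.Agent.EBM
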