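import Pool.Agent.EBM.Net
import Pool.Agent.EBM.Pt
import Pool.Agent.EBM.Gd

/-!
MODULE Tre (difficulty 2). Existence of the good tree.
Proof. Take N from nets with ε k = norm (e k) * (1/2)^k (> 0 by he.ne_zero). Apply good_abstract with M = (ℕ →₀ 𝕜),
Bl = Below, Ab = Above and E C s = EqL e Q C s. Hypothesis H: for p strictly increasing take w, q from sparse;
let C be a natural number larger than the constant of the equivalence of seqOf e w and e. For s = (List.range k).map w: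
s.length = k, ent s i = w i for i < k. The entries are nonzero (Block) with values in Q (first property of N),
successive (Block), and for a with Below a k: comb (ent s) a = comb w a (comb_eq_sum; indices of the support are < k),
vec e (comb w a) = vec (seqOf e w) a (vec_seqOf). From the conclusion of good_abstract read off Tree e Q C G.
-/

namespace Pool.Agent.EBM

open Finsupp Filter Topology

section
variable {𝕜 : Type*} [RCLike 𝕜] {X : Type*} [NormedAddCommGroup X] [NormedSpace 𝕜 X]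

theorem tre_ent (w : ℕ → (ℕ →₀ 𝕜)) (k i : ℕ) (hi : i < k) :
    ent ((List.range k).map w) i = w i := by
  unfold ent
  simp [List.getD_eq_getElem?_getD, hi]

theorem tree_exists {e : ℕ → X} (he : SchauderBasis 𝕜 e) (Q : Subfield 𝕜) (hQI : RCLike.I ∈ Q)
    (hQn : ∀ c : ℕ →₀ 𝕜, (∀ i, c i ∈ Q) → ((‖vec e c‖ : ℝ) : 𝕜) ∈ Q)
    {K : ℝ} (hK : 1 ≤ K) (hu : UncK 𝕜 K e)
    (hmin : ∀ c : ℕ → (ℕ →₀ 𝕜), Block c → ∃ d : ℕ → (ℕ →₀ 𝕜), Block d ∧
      Equivalent 𝕜 (seqOf (seqOf e c) d) e) :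
    ∃ (C : ℕ) (G : Set (List (ℕ →₀ 𝕜))), G.Nonempty ∧ Tree e Q C G := by
  have hε : ∀ k, 0 < ‖e k‖ * (1 / 2 : ℝ) ^ k := by
    intro k
    have := norm_pos_iff.mpr (he.ne_zero k)
    positivity
  obtain ⟨N, hN1, hN2, hN3⟩ := nets he Q hQI hQn _ hε
  have H : ∀ p : ℕ → ℕ, StrictMono p → ∃ w : ℕ → (ℕ →₀ 𝕜), (∀ k, w k ∈ N k) ∧
      (∃ C : ℕ, ∀ k, EqL e Q C ((List.range k).map w)) ∧
      ∃ q : ℕ → ℕ, StrictMono q ∧
        ∀ k, Below (w k) (p (q k) + 1) ∧ Above (w (k + 1)) (p (q k + 1)) := by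
    intro p hp
    obtain ⟨w, hw1, hw2, ⟨C0, hC0, hC⟩, hq⟩ := sparse he hK hu hmin N (fun k c hc => (hN1 k c hc).2)
      hN3 p hp
    refine ⟨w, hw1, ?_, hq⟩
    obtain ⟨C, hCC⟩ := exists_nat_ge C0
    refine ⟨C, ?_⟩
    intro k
    have hlen : ((List.range k).map w).length = k := by simp
    refine ⟨?_, ?_, ?_⟩
    · intro i hi
      rw [hlen] at hi
      rw [tre_ent w k i hi]
      exact ⟨hw2.1 i, (hN1 i _ (hw1 i)).1⟩
    · intro i hi
      rw [hlen] at hi
      rw [tre_ent w k i (by omega), tre_ent w k (i + 1) hi]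
      exact hw2.2 i
    · intro a ha
      rw [hlen] at ha
      have h1 : comb (ent ((List.range k).map w)) a = comb w a := by
        rw [comb_eq_sum, comb_eq_sum]
        refine Finset.sum_congr rfl ?_
        intro i hi
        rw [tre_ent w k i (ha i hi)]
      rw [h1]
      have h2 := hC a
      rw [vec_seqOf] at h2
      have h3 : C0 * ‖vec e a‖ ≤ C * ‖vec e a‖ :=
        mul_le_mul_of_nonneg_right hCC (norm_nonneg _)
      have h4 : C0 * ‖vec e (comb w a)‖ ≤ C * ‖vec e (comb w a)‖ :=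
        mul_le_mul_of_nonneg_right hCC (norm_nonneg _)
      exact ⟨h2.1.trans h3, h2.2.trans h4⟩
  obtain ⟨C, G, hne, hG⟩ := good_abstract N (fun c m => Below c m) (fun c n => Above c n)
    (fun c m m' h hm i hi => lt_of_lt_of_le (h i hi) hm)
    (fun c n n' h hn i hi => le_trans hn (h i hi))
    hN2 (fun C s => EqL e Q C s) H
  refine ⟨C, G, hne, ?_⟩
  intro s hs
  obtain ⟨h1, h2⟩ := hG s hs
  refine ⟨h1, fun n => ?_⟩
  obtain ⟨c, _, hc2, hc3⟩ := h2 n
  exact ⟨c, hc2, hc3⟩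

end

end Pool.Agent.EBM
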