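import Pool.Agent.EBM.Iso
import Pool.Agent.EBM.Ct
import Pool.Agent.EBM.BMl
import Pool.Agent.EBM.StA
import Pool.Agent.EBM.StB
import Pool.Agent.EBM.Inq
import Pool.Agent.EBM.Tre

/-!
The main theorem.
-/

namespace Pool.Agent.EBM

open Finsupp Filter Topology

section
variable {𝕜 : Type*} [RCLike 𝕜] {X : Type*} [NormedAddCommGroup X] [NormedSpace 𝕜 X]

/-- The limit of a chain of stages. -/
theorem lim_mem [CompleteSpace X] {e : ℕ → X} {K : ℝ} (hK : 1 ≤ K) (hu : UncK 𝕜 K e)
    {Q : Subfield 𝕜} {C : ℕ} {G : Set (List (ℕ →₀ 𝕜))} (hG : Tree e Q C G)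
    (t : ℕ → Stage e Q) (ht : ∀ i, Valid G (t i)) (hext : ∀ i, Extends (t i) (t (i + 1)))
    (x : bX e Q × bX e Q) (hx : ∀ i, x ∈ cylP ((t i).y, (t i).z) (t i).n) :
    x ∈ IsRel e Q := by
  have hn : ∀ i, i < (t i).n := by
    intro i
    induction i with
    | zero => exact (ht 0).npos
    | succ i ih => exact lt_of_le_of_lt ih (hext i).1
  have hF : ∀ i, (t i).F = (t 0).F := by
    intro i
    induction i with
    | zero => rfl
    | succ i ih => rw [(hext i).2.1, ih]
  have hmono : ∀ i k, (t i).n ≤ (t (i + k)).n := by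
    intro i k
    induction k with
    | zero => exact le_rfl
    | succ k ih => exact le_trans ih (le_of_lt (hext (i + k)).1)
  have hagree : ∀ i k, ∀ j < (t i).n, (t (i + k)).π j = (t i).π j ∧
      (t (i + k)).ρ j = (t i).ρ j ∧ (t (i + k)).s j = (t i).s j := by
    intro i k
    induction k with
    | zero => intro j _; exact ⟨rfl, rfl, rfl⟩
    | succ k ih =>
      intro j hj
      have h1 := (hext (i + k)).2.2 j (lt_of_lt_of_le hj (hmono i k))
      obtain ⟨h2, h3, h4⟩ := ih j hj
      exact ⟨h1.2.2.1.trans h2, h1.2.2.2.1.trans h3, h1.2.2.2.2.trans h4⟩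
  have hlim : ∀ i j, j < (t i).n → (t i).π j = (t j).π j ∧ (t i).ρ j = (t j).ρ j ∧
      (t i).s j = (t j).s j := by
    intro i j hj
    rcases le_total i j with h | h
    · obtain ⟨k, rfl⟩ := Nat.exists_eq_add_of_le h
      obtain ⟨h2, h3, h4⟩ := hagree i k (i + k) hj
      exact ⟨h2.symm, h3.symm, h4.symm⟩
    · obtain ⟨k, rfl⟩ := Nat.exists_eq_add_of_le h
      exact hagree j k j (hn j)
  let pi : ℕ ≃ ℕ :=
    { toFun := fun j => (t j).π j
      invFun := fun j => (t j).ρ j
      left_inv := by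
        intro j
        have h1 := (ht j).pi_lt j (hn j)
        change (t ((t j).π j)).ρ ((t j).π j) = j
        rw [← (hlim j ((t j).π j) h1.1).2.1]
        exact h1.2
      right_inv := by
        intro j
        have h1 := (ht j).rho_lt j (hn j)
        change (t ((t j).ρ j)).π ((t j).ρ j) = j
        rw [← (hlim j ((t j).ρ j) h1.1).1]
        exact h1.2 }
  have hpi : ∀ j, pi j = (t j).π j := fun j => rfl
  have heq : Equivalent 𝕜 (seqOf e (fun k => (x.1.1 k).1))
      (fun j => (((t j).s j : ℝ) : 𝕜) • vec e ((x.2.1 (pi j)).1)) := by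
    refine limit_equivalent hK hu (Q := Q) (C := C) (fun k => (x.1.1 k).1)
      (fun k => (x.2.1 k).1) x.1.2 x.2.2 (fun k => (x.1.1 k).2.2) (fun k => (x.2.1 k).2.2)
      pi (fun j => (t j).s j) (fun j => (ht j).spos j (hn j)) (t 0).F ?_ ?_
    · intro j hj
      refine (ht j).sF j ?_
      rw [hF j]; exact hj
    · intro n
      refine ⟨(t n).w, (hG _ (ht n).wG).1, ?_⟩
      intro j hj1 hj2
      have hjn : j < (t n).n := lt_trans hj2 (hn n)
      have h1 := (ht n).copy j (by rw [hF n]; exact hj1) hjn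
      have h2 := hx n
      have h3 := (h2 j hjn).1
      have h4 := (h2 ((t n).π j) ((ht n).pi_lt j hjn).1).2
      have h5 := hlim n j hjn
      have h6 : pi j = (t n).π j := by rw [hpi, h5.1]
      change Copy (t n).w (x.1.1 j).1 (x.2.1 (pi j)).1 ((t j).s j)
      rw [h6, h3, h4, ← h5.2.2]
      exact h1
  obtain ⟨φ⟩ := cspan_equiv heq
  have hperm := cspan_perm (𝕜 := 𝕜) (seqOf e (fun k => (x.2.1 k).1)) pi
    (fun j => (((t j).s j : ℝ) : 𝕜)) (fun j => by
      have := (ht j).spos j (hn j)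
      exact_mod_cast ne_of_gt this)
  change Nonempty _
  have hφ : Nonempty (cspan 𝕜 (seqOf e (fun k => (x.1.1 k).1)) ≃L[𝕜]
      cspan 𝕜 (fun j => (((t j).s j : ℝ) : 𝕜) • seqOf e (fun k => (x.2.1 k).1) (pi j))) := ⟨φ⟩
  rw [hperm] at hφ
  exact hφ

theorem main_theorem [CompleteSpace X] {e : ℕ → X} (he : SchauderBasis 𝕜 e) (Q : Subfield 𝕜)
    (hQc : Countable Q) (hQI : RCLike.I ∈ Q)
    (hQn : ∀ c : ℕ →₀ 𝕜, (∀ i, c i ∈ Q) → ((‖vec e c‖ : ℝ) : 𝕜) ∈ Q)
    (hmin : ∀ c : ℕ → (ℕ →₀ 𝕜), Block c → ∃ d : ℕ → (ℕ →₀ 𝕜), Block d ∧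
      Equivalent 𝕜 (seqOf (seqOf e c) d) e)
    (hunc : ∃ c : ℕ → (ℕ →₀ 𝕜), Block c ∧ Unconditional 𝕜 (seqOf e c)) :
    BlockMinimal 𝕜 e ∧ IsRel e Q ∈ residual (bX e Q × bX e Q) ∧ ¬ IsMeagre (IsRel e Q) := by
  have hune : Unconditional 𝕜 e := unconditional_of hmin hunc
  obtain ⟨K, hK, hu⟩ := hune.uncK
  obtain ⟨C, G, ⟨w0, hw0⟩, hG⟩ := tree_exists he Q hQI hQn hK hu hmin
  have hres : IsRel e Q ∈ residual (bX e Q × bX e Q) := by
    let T := Option {t : Stage e Q // Valid G t}
    let cyl : T → Set (bX e Q × bX e Q) := fun o =>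
      match o with
      | none => Set.univ
      | Option.some t => cylP (t.1.y, t.1.z) t.1.n
    let next : T → T → Prop := fun o o' =>
      match o, o' with
      | none, Option.some _ => True
      | Option.some t, Option.some t' => Extends t.1 t'.1
      | _, none => False
    refine banach_mazur (T := T) cyl next none rfl ?_ ?_ (IsRel e Q) ?_
    · intro o
      match o with
      | none => exact isOpen_univ
      | Option.some t => exact isOpen_cylP _ _
    · intro o U hU hne
      match o with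
      | none =>
        obtain ⟨t, ht, hsub⟩ := stage_zero he hQn hw0 hU (hne.mono Set.inter_subset_left)
        refine ⟨Option.some ⟨t, ht⟩, trivial, ?_, ⟨(t.y, t.z), fun k _ => ⟨rfl, rfl⟩⟩⟩
        exact Set.subset_inter hsub (Set.subset_univ _)
      | Option.some t =>
        obtain ⟨t', ht', hext, hsub⟩ := stage_succ he hQn hG t.1 t.2 hU hne
        exact ⟨Option.some ⟨t', ht'⟩, hext, hsub, ⟨(t'.y, t'.z), fun k _ => ⟨rfl, rfl⟩⟩⟩
    · intro s hs0 hs x hx
      have h1 : ∀ i, ∃ t : {t : Stage e Q // Valid G t}, s (i + 1) = Option.some t := by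
        intro i
        have h2 := hs i
        cases h3 : s (i + 1) with
        | none =>
          rw [h3] at h2
          cases h4 : s i with
          | none => rw [h4] at h2; exact h2.elim
          | some t => rw [h4] at h2; exact h2.elim
        | some t => exact ⟨t, rfl⟩
      choose t ht using h1
      refine lim_mem hK hu hG (fun i => (t i).1) (fun i => (t i).2) ?_ x ?_
      · intro i
        have h2 := hs (i + 1)
        rw [ht i, ht (i + 1)] at h2
        exact h2
      · intro i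
        have h2 := hx (i + 1)
        rw [ht i] at h2
        exact h2
  refine ⟨blockMinimal_of he hmin, hres, ?_⟩
  intro hmeag
  have := baire_bX e Q hQc
  obtain ⟨y, -⟩ := exists_unit he hQn 0
  obtain ⟨z, -⟩ := extend_block he hQn 0 (fun _ => y) (by intro k hk; omega)
  have : Nonempty (bX e Q × bX e Q) := ⟨(z, z)⟩
  have h1 : (IsRel e Q)ᶜ ∈ residual (bX e Q × bX e Q) := hmeag
  have h2 : IsRel e Q ∩ (IsRel e Q)ᶜ ∈ residual (bX e Q × bX e Q) := Filter.inter_mem hres h1
  rw [Set.inter_compl_self] at h2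
  have h3 := dense_of_mem_residual h2
  exact h3.nonempty.ne_empty rfl

end

end Pool.Agent.EBM
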