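import Pool.Agent.EBM.Bas

/-!
MODULE Net (difficulty 3). Finite nets of block vectors with coefficients in Q.
Proof. For k, a ≤ m let S(k,a,m) be the set of the vec e c, where c has all coefficients in Q,
support in [a,m], c m ≠ 0 and norm (vec e c) = norm (e k). This is a bounded subset of the finite
dimensional space spanned by e 0, ..., e m, hence totally bounded, so there is a finite
subset of S(k,a,m) which is an (ε k)/2-net of S(k,a,m) (totallyBounded with centres in the set: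
totallyBounded_iff_subset, Metric.finite_approx...). Choose for every element of the net one
coefficient vector c as above; let D(k,a,m) be the finite set of these and
N k = union of the D(k,a,m), a ≤ m.
(ii): if c in N k satisfies Below c M then it comes from D(k,a,m) with c m ≠ 0, so m < M and
a ≤ m: a finite union of finite sets.
(iii): let norm (vec e c) = norm (e k) (≠ 0 by he.ne_zero, so c ≠ 0), a = min, m = max of the
support. Q is dense in 𝕜: it contains the rationals and I (approximate real and imaginary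
part by rationals). Choose q with coefficients in Q, q i = 0 where c i = 0, q m ≠ 0,
norm (vec e q - vec e c) ≤ η (η small: approximating the finitely many coefficients), let
q1 = (norm (e k) / norm (vec e q)) • q: the two norms are in Q by hQn (e k = vec e (single k 1)), so q1
has coefficients in Q, norm (vec e q1) = norm (e k), norm (vec e q1 - vec e q) ≤ η. With 2 η ≤ (ε k)/2
choose a net element within (ε k)/2 of vec e q1. Its coefficient vector c' has support in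
[a,m], hence the Above / Below implications.
-/

namespace Pool.Agent.EBM

open Finsupp Filter Topology

section
variable {𝕜 : Type*} [RCLike 𝕜] {X : Type*} [NormedAddCommGroup X] [NormedSpace 𝕜 X]

theorem net_dense (Q : Subfield 𝕜) (hQI : RCLike.I ∈ Q) (z : 𝕜) {δ : ℝ} (hδ : 0 < δ) :
    ∃ w ∈ Q, ‖w - z‖ < δ := by
  obtain ⟨r, hr1, hr2⟩ := exists_rat_btwn (show RCLike.re z < RCLike.re z + δ / 2 by linarith)
  obtain ⟨s, hs1, hs2⟩ := exists_rat_btwn (show RCLike.im z < RCLike.im z + δ / 2 by linarith)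
  have hI : ‖(RCLike.I : 𝕜)‖ ≤ 1 := by
    rcases RCLike.I_mul_I_ax (K := 𝕜) with h | h
    · rw [h, norm_zero]; exact zero_le_one
    · have h2 : ‖(RCLike.I : 𝕜)‖ * ‖(RCLike.I : 𝕜)‖ = 1 := by
        rw [← norm_mul, h, norm_neg, norm_one]
      nlinarith [norm_nonneg (RCLike.I : 𝕜)]
  have hr : ((r : ℝ) : 𝕜) ∈ Q := by
    have : ((r : ℝ) : 𝕜) = ((r : ℚ) : 𝕜) := by push_cast; rfl
    rw [this]
    exact SubfieldClass.ratCast_mem Q r
  have hs : ((s : ℝ) : 𝕜) ∈ Q := by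
    have : ((s : ℝ) : 𝕜) = ((s : ℚ) : 𝕜) := by push_cast; rfl
    rw [this]
    exact SubfieldClass.ratCast_mem Q s
  refine ⟨((r : ℝ) : 𝕜) + ((s : ℝ) : 𝕜) * RCLike.I, add_mem hr (mul_mem hs hQI), ?_⟩
  have he : ((r : ℝ) : 𝕜) + ((s : ℝ) : 𝕜) * RCLike.I - z
      = (((r : ℝ) - RCLike.re z : ℝ) : 𝕜) + (((s : ℝ) - RCLike.im z : ℝ) : 𝕜) * RCLike.I := by
    have hz := RCLike.re_add_im z
    push_cast
    linear_combination hz
  rw [he]
  calc ‖(((r : ℝ) - RCLike.re z : ℝ) : 𝕜) + (((s : ℝ) - RCLike.im z : ℝ) : 𝕜) * RCLike.I‖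
      ≤ ‖(((r : ℝ) - RCLike.re z : ℝ) : 𝕜)‖
        + ‖(((s : ℝ) - RCLike.im z : ℝ) : 𝕜) * RCLike.I‖ := norm_add_le _ _
    _ ≤ ‖(((r : ℝ) - RCLike.re z : ℝ) : 𝕜)‖ + ‖(((s : ℝ) - RCLike.im z : ℝ) : 𝕜)‖ := by
        rw [norm_mul]
        have := mul_le_mul_of_nonneg_left hI
          (norm_nonneg (((s : ℝ) - RCLike.im z : ℝ) : 𝕜))
        linarith
    _ < δ := by
        rw [RCLike.norm_ofReal, RCLike.norm_ofReal, abs_of_pos (by linarith),
          abs_of_pos (by linarith)]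
        linarith

theorem net_finite {e : ℕ → X} (S : Set (ℕ →₀ 𝕜)) (m : ℕ) (R : ℝ)
    (hS : ∀ c ∈ S, ‖vec e c‖ ≤ R ∧ ∀ i ∈ c.support, i ≤ m) {δ : ℝ} (hδ : 0 < δ) :
    ∃ D : Set (ℕ →₀ 𝕜), D.Finite ∧ D ⊆ S ∧ ∀ c ∈ S, ∃ c' ∈ D, ‖vec e c - vec e c'‖ < δ := by
  have htb : TotallyBounded (vec e '' S) := by
    let W : Submodule 𝕜 X := Submodule.span 𝕜 (e '' Set.Iic m)
    have : FiniteDimensional 𝕜 W :=
      FiniteDimensional.span_of_finite 𝕜 ((Set.finite_Iic m).image e)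
    have : ProperSpace W := FiniteDimensional.proper 𝕜 W
    have hcomp : IsCompact ((Submodule.subtype W) '' (Metric.closedBall (0 : W) R)) :=
      (isCompact_closedBall (0 : W) R).image continuous_subtype_val
    refine hcomp.totallyBounded.subset ?_
    rintro _ ⟨c, hc, rfl⟩
    have hmem : vec e c ∈ W := by
      rw [vec_eq_sum]
      exact Submodule.sum_mem _ fun i hi =>
        Submodule.smul_mem _ _ (Submodule.subset_span ⟨i, (hS c hc).2 i hi, rfl⟩)
    refine ⟨⟨vec e c, hmem⟩, ?_, rfl⟩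
    rw [mem_closedBall_zero_iff]
    exact (hS c hc).1
  obtain ⟨t, hts, htf, htc⟩ := Metric.finite_approx_of_totallyBounded htb δ hδ
  have h1 : ∀ y ∈ t, ∃ c ∈ S, vec e c = y := fun y hy => hts hy
  choose! g hg1 hg2 using h1
  refine ⟨g '' t, htf.image g, ?_, ?_⟩
  · rintro _ ⟨y, hy, rfl⟩
    exact hg1 y hy
  · intro c hc
    have h2 := htc (Set.mem_image_of_mem (vec e) hc)
    simp only [Set.mem_iUnion, Metric.mem_ball, exists_prop] at h2
    obtain ⟨y, hy, hd⟩ := h2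
    refine ⟨g y, ⟨y, hy, rfl⟩, ?_⟩
    rw [hg2 y hy, ← dist_eq_norm]
    exact hd

/-- The sets for which finite nets are chosen. -/
def netSet (e : ℕ → X) (Q : Subfield 𝕜) (k a m : ℕ) : Set (ℕ →₀ 𝕜) :=
  {c | (∀ i, c i ∈ Q) ∧ ‖vec e c‖ = ‖e k‖ ∧ (∀ i ∈ c.support, a ≤ i ∧ i ≤ m) ∧ c m ≠ 0}

theorem net_approx {e : ℕ → X} (he : SchauderBasis 𝕜 e) (Q : Subfield 𝕜) (hQI : RCLike.I ∈ Q)
    (hQn : ∀ c : ℕ →₀ 𝕜, (∀ i, c i ∈ Q) → ((‖vec e c‖ : ℝ) : 𝕜) ∈ Q) (k : ℕ) {η : ℝ}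
    (hη : 0 < η) (c : ℕ →₀ 𝕜) (hc : ‖vec e c‖ = ‖e k‖) {a m : ℕ} (hm : m ∈ c.support)
    (hsup : ∀ i ∈ c.support, a ≤ i ∧ i ≤ m) :
    ∃ q ∈ netSet e Q k a m, ‖vec e c - vec e q‖ ≤ 2 * η := by
  classical
  have hcm : c m ≠ 0 := Finsupp.mem_support_iff.mp hm
  have hs0 : 0 ≤ ∑ i ∈ c.support, ‖e i‖ := Finset.sum_nonneg fun i _ => norm_nonneg _
  set δ : ℝ := min ‖c m‖ (η / (1 + ∑ i ∈ c.support, ‖e i‖)) with hδdef
  have hδ : 0 < δ := lt_min (norm_pos_iff.mpr hcm) (by positivity)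
  choose w hwQ hw using fun i => net_dense Q hQI (c i) hδ
  let q : ℕ →₀ 𝕜 := Finsupp.onFinset c.support (fun i => if i ∈ c.support then w i else 0)
    (by intro i hi; by_contra h; simp only [h, if_false, ne_eq, not_true_eq_false] at hi)
  have hqv : ∀ i, q i = if i ∈ c.support then w i else 0 := fun i => rfl
  have hqs : q.support ⊆ c.support := Finsupp.support_onFinset_subset
  have hqQ : ∀ i, q i ∈ Q := by
    intro i
    rw [hqv]
    split_ifs
    · exact hwQ i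
    · exact zero_mem Q
  have hqm : q m ≠ 0 := by
    rw [hqv, if_pos hm]
    intro h
    have h1 := hw m
    rw [h, zero_sub, norm_neg] at h1
    exact absurd (lt_of_lt_of_le h1 (min_le_left _ _)) (lt_irrefl _)
  have hvq : vec e q = ∑ i ∈ c.support, q i • e i := by
    rw [vec_eq_sum]
    apply Finset.sum_subset hqs
    intro i _ hi
    have : q i = 0 := by simpa using hi
    rw [this, zero_smul]
  have hclose : ‖vec e c - vec e q‖ ≤ η := by
    rw [hvq, vec_eq_sum, ← Finset.sum_sub_distrib]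
    calc ‖∑ i ∈ c.support, (c i • e i - q i • e i)‖
        ≤ ∑ i ∈ c.support, ‖c i • e i - q i • e i‖ := norm_sum_le _ _
      _ ≤ ∑ i ∈ c.support, δ * ‖e i‖ := by
          apply Finset.sum_le_sum
          intro i hi
          rw [← sub_smul, norm_smul, hqv, if_pos hi, norm_sub_rev]
          exact mul_le_mul_of_nonneg_right (hw i).le (norm_nonneg _)
      _ = δ * ∑ i ∈ c.support, ‖e i‖ := by rw [Finset.mul_sum]
      _ ≤ (η / (1 + ∑ i ∈ c.support, ‖e i‖)) * (1 + ∑ i ∈ c.support, ‖e i‖) :=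
          mul_le_mul (min_le_right _ _) (by linarith) hs0 (by positivity)
      _ = η := by field_simp
  have hq0 : vec e q ≠ 0 := by
    intro h
    have := he.vec_inj h
    rw [this] at hqm
    exact hqm rfl
  have hqn : (0 : ℝ) < ‖vec e q‖ := norm_pos_iff.mpr hq0
  have hekQ : ((‖e k‖ : ℝ) : 𝕜) ∈ Q := by
    have h := hQn (single k 1) (by
      intro i
      rw [Finsupp.single_apply]
      split_ifs
      · exact one_mem Q
      · exact zero_mem Q)
    rwa [vec_single, one_smul] at h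
  set r : 𝕜 := ((‖e k‖ : ℝ) : 𝕜) / ((‖vec e q‖ : ℝ) : 𝕜) with hr
  have hrQ : r ∈ Q := div_mem hekQ (hQn q hqQ)
  have hek : (0 : ℝ) < ‖e k‖ := norm_pos_iff.mpr (he.ne_zero k)
  have hr0 : r ≠ 0 := by
    rw [hr]
    apply div_ne_zero
    · exact RCLike.ofReal_ne_zero.mpr hek.ne'
    · exact RCLike.ofReal_ne_zero.mpr hqn.ne'
  have hrR : r = ((‖e k‖ / ‖vec e q‖ : ℝ) : 𝕜) := by rw [hr]; push_cast; rfl
  refine ⟨r • q, ⟨?_, ?_, ?_, ?_⟩, ?_⟩
  · intro i
    rw [Finsupp.smul_apply, smul_eq_mul]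
    exact mul_mem hrQ (hqQ i)
  · rw [vec_smul, norm_smul, hrR, RCLike.norm_ofReal, abs_of_pos (by positivity)]
    field_simp
  · intro i hi
    have hi2 : (r • q) i ≠ 0 := Finsupp.mem_support_iff.mp hi
    rw [Finsupp.smul_apply, smul_eq_mul] at hi2
    exact hsup i (hqs (Finsupp.mem_support_iff.mpr (right_ne_zero_of_mul hi2)))
  · rw [Finsupp.smul_apply, smul_eq_mul]
    exact mul_ne_zero hr0 hqm
  · have h2 : ‖vec e q - vec e (r • q)‖ ≤ η := by
      have h3 : vec e q - vec e (r • q) = (((1 - ‖e k‖ / ‖vec e q‖ : ℝ)) : 𝕜) • vec e q := by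
        rw [vec_smul, hrR]
        push_cast
        rw [sub_smul, one_smul]
      rw [h3, norm_smul, RCLike.norm_ofReal]
      have h4 : |1 - ‖e k‖ / ‖vec e q‖| * ‖vec e q‖ = |‖vec e q‖ - ‖e k‖| := by
        rw [← abs_of_pos hqn, ← abs_mul, abs_of_pos hqn]
        congr 1
        field_simp
      rw [h4, ← hc]
      refine (abs_norm_sub_norm_le _ _).trans ?_
      rw [norm_sub_rev]
      exact hclose
    calc ‖vec e c - vec e (r • q)‖
        = ‖(vec e c - vec e q) + (vec e q - vec e (r • q))‖ := by congr 1; abel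
      _ ≤ ‖vec e c - vec e q‖ + ‖vec e q - vec e (r • q)‖ := norm_add_le _ _
      _ ≤ 2 * η := by linarith

theorem nets {e : ℕ → X} (he : SchauderBasis 𝕜 e) (Q : Subfield 𝕜) (hQI : RCLike.I ∈ Q)
    (hQn : ∀ c : ℕ →₀ 𝕜, (∀ i, c i ∈ Q) → ((‖vec e c‖ : ℝ) : 𝕜) ∈ Q)
    (ε : ℕ → ℝ) (hε : ∀ k, 0 < ε k) :
    ∃ N : ℕ → Set (ℕ →₀ 𝕜),
      (∀ k, ∀ c ∈ N k, (∀ i, c i ∈ Q) ∧ ‖vec e c‖ = ‖e k‖) ∧
      (∀ k m, {c : ℕ →₀ 𝕜 | c ∈ N k ∧ Below c m}.Finite) ∧
      ∀ k, ∀ c : ℕ →₀ 𝕜, ‖vec e c‖ = ‖e k‖ → ∃ c' ∈ N k, ‖vec e c - vec e c'‖ ≤ ε k ∧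
        (∀ a, Above c a → Above c' a) ∧ ∀ m, Below c m → Below c' m := by
  classical
  have hD := fun k a m => net_finite (e := e) (netSet e Q k a m) m ‖e k‖
    (fun c hc => ⟨hc.2.1.le, fun i hi => (hc.2.2.1 i hi).2⟩) (half_pos (hε k))
  choose D hDf hDs hDn using hD
  refine ⟨fun k => {c | ∃ a m, c ∈ D k a m}, ?_, ?_, ?_⟩
  · rintro k c ⟨a, m, hc⟩
    exact ⟨(hDs k a m hc).1, (hDs k a m hc).2.1⟩
  · intro k M
    have hfin : (⋃ p ∈ (Finset.range M ×ˢ Finset.range M : Finset (ℕ × ℕ)), D k p.1 p.2).Finite :=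
      Set.Finite.biUnion (Finset.finite_toSet _) fun p _ => hDf k p.1 p.2
    refine hfin.subset ?_
    rintro c ⟨⟨a, m, hc⟩, hB⟩
    have hcS := hDs k a m hc
    have hms : m ∈ c.support := Finsupp.mem_support_iff.mpr hcS.2.2.2
    have h1 : a ≤ m := (hcS.2.2.1 m hms).1
    have h2 : m < M := hB m hms
    simp only [Set.mem_iUnion]
    refine ⟨(a, m), ?_, hc⟩
    simp only [Finset.mem_product, Finset.mem_range]
    omega
  · intro k c hc
    have hc0 : c ≠ 0 := by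
      rintro rfl
      rw [vec_zero, norm_zero] at hc
      exact (he.ne_zero k) (norm_eq_zero.mp hc.symm)
    have hne : c.support.Nonempty := Finsupp.support_nonempty_iff.mpr hc0
    obtain ⟨q, hqS, hq⟩ := net_approx he Q hQI hQn k (show 0 < ε k / 4 by have := hε k; linarith)
      c hc (a := c.support.min' hne) (c.support.max'_mem hne)
      (fun i hi => ⟨c.support.min'_le i hi, c.support.le_max' i hi⟩)
    obtain ⟨c', hc', hd⟩ := hDn k _ _ q hqS
    have hcS := hDs k _ _ hc'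
    refine ⟨c', ⟨_, _, hc'⟩, ?_, ?_, ?_⟩
    · calc ‖vec e c - vec e c'‖ = ‖(vec e c - vec e q) + (vec e q - vec e c')‖ := by
            congr 1; abel
        _ ≤ ‖vec e c - vec e q‖ + ‖vec e q - vec e c'‖ := norm_add_le _ _
        _ ≤ ε k := by linarith
    · intro a ha i hi
      exact (ha _ (c.support.min'_mem hne)).trans (hcS.2.2.1 i hi).1
    · intro m hm i hi
      exact lt_of_le_of_lt (hcS.2.2.1 i hi).2 (hm _ (c.support.max'_mem hne))

end

end Pool.Agent.EBM
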