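import Pool.Agent.EBM.Defs

/-!
Auxiliary definitions used in the proofs only.
-/

namespace Pool.Agent.EBM

open Finsupp Filter Topology

noncomputable section

section
variable {𝕜 : Type*} [RCLike 𝕜] {X : Type*} [NormedAddCommGroup X] [NormedSpace 𝕜 X]

/-- The coefficient vector `∑ a k • c k`. -/
def comb (c : ℕ → (ℕ →₀ 𝕜)) (a : ℕ →₀ 𝕜) : ℕ →₀ 𝕜 := Finsupp.linearCombination 𝕜 c a

/-- All indices of the support are `< m`. -/
def Below (c : ℕ →₀ 𝕜) (m : ℕ) : Prop := ∀ i ∈ c.support, i < m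

/-- All indices of the support are `≥ n`. -/
def Above (c : ℕ →₀ 𝕜) (n : ℕ) : Prop := ∀ i ∈ c.support, n ≤ i

/-- Unconditionality with a given constant. -/
def UncK (𝕜 : Type*) [RCLike 𝕜] {X : Type*} [NormedAddCommGroup X] [NormedSpace 𝕜 X]
    (K : ℝ) (x : ℕ → X) : Prop :=
  ∀ a b : ℕ →₀ 𝕜, (∀ i, ‖b i‖ ≤ ‖a i‖) → ‖vec x b‖ ≤ K * ‖vec x a‖

/-- The entries of a list as a sequence (zero after the end). -/
def ent (s : List (ℕ →₀ 𝕜)) : ℕ → (ℕ →₀ 𝕜) := fun i => s.getD i 0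

/-- The list is a block sequence with coefficients in `Q` which is `C`-equivalent to the
initial segment of `e`. -/
def EqL (e : ℕ → X) (Q : Subfield 𝕜) (C : ℕ) (s : List (ℕ →₀ 𝕜)) : Prop :=
  (∀ k < s.length, ent s k ≠ 0 ∧ ∀ i, ent s k i ∈ Q) ∧
  (∀ k, k + 1 < s.length → ∀ i ∈ (ent s k).support, ∀ j ∈ (ent s (k + 1)).support, i < j) ∧
  ∀ a : ℕ →₀ 𝕜, Below a s.length →
    ‖vec e (comb (ent s) a)‖ ≤ C * ‖vec e a‖ ∧ ‖vec e a‖ ≤ C * ‖vec e (comb (ent s) a)‖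

/-- A good tree of block lists: all members are `C`-equivalent to initial segments of `e`
and can be continued arbitrarily far out. -/
def Tree (e : ℕ → X) (Q : Subfield 𝕜) (C : ℕ) (G : Set (List (ℕ →₀ 𝕜))) : Prop :=
  ∀ s ∈ G, EqL e Q C s ∧ ∀ n : ℕ, ∃ c : ℕ →₀ 𝕜, Above c n ∧ s ++ [c] ∈ G

end

end

end Pool.Agent.EBM
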