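import Pool.Agent.EBM.Fil
import Pool.Agent.EBM.Ext

/-!
The stages of the construction (definitions only).
-/

namespace Pool.Agent.EBM

open Finsupp Filter Topology

section
variable {𝕜 : Type*} [RCLike 𝕜] {X : Type*} [NormedAddCommGroup X] [NormedSpace 𝕜 X]

/-- The data of a stage: two block sequences (only the first `n` terms matter), a list `w`,
a matching `π` with inverse `ρ` and scalars `s`. -/
structure Stage (e : ℕ → X) (Q : Subfield 𝕜) where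
  y : bX e Q
  z : bX e Q
  n : ℕ
  F : ℕ
  w : List (ℕ →₀ 𝕜)
  π : ℕ → ℕ
  ρ : ℕ → ℕ
  s : ℕ → ℝ

/-- The vectors `c` and `d` are copies of each other by the list `w`, up to the scalar `r`. -/
def Copy (w : List (ℕ →₀ 𝕜)) (c d : ℕ →₀ 𝕜) (r : ℝ) : Prop :=
  (Below c w.length ∧ comb (ent w) c = (r : 𝕜) • d) ∨
  (Below d w.length ∧ c = (r : 𝕜) • comb (ent w) d)

/-- Valid stages. -/
structure Valid {e : ℕ → X} {Q : Subfield 𝕜} (G : Set (List (ℕ →₀ 𝕜))) (t : Stage e Q) :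
    Prop where
  npos : 0 < t.n
  Fle : t.F ≤ t.n
  wG : t.w ∈ G
  spos : ∀ j < t.n, 0 < t.s j
  sF : ∀ j < t.F, t.s j = 1
  pi_lt : ∀ j < t.n, t.π j < t.n ∧ t.ρ (t.π j) = j
  rho_lt : ∀ j < t.n, t.ρ j < t.n ∧ t.π (t.ρ j) = j
  copy : ∀ j, t.F ≤ j → j < t.n → Copy t.w (t.y.1 j).1 (t.z.1 (t.π j)).1 (t.s j)
  invy : ∃ i ∈ (t.y.1 (t.n - 1)).1.support, t.w.length ≤ i + 1
  invz : ∃ i ∈ (t.z.1 (t.n - 1)).1.support, t.w.length ≤ i + 1

/-- `t'` extends `t`. -/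
def Extends {e : ℕ → X} {Q : Subfield 𝕜} (t t' : Stage e Q) : Prop :=
  t.n < t'.n ∧ t'.F = t.F ∧ ∀ j < t.n, t'.y.1 j = t.y.1 j ∧ t'.z.1 j = t.z.1 j ∧
    t'.π j = t.π j ∧ t'.ρ j = t.ρ j ∧ t'.s j = t.s j

end

end Pool.Agent.EBM
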