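import Pool.Agent.EBM.Bas

/-!
Rational block sequences, good and bad pairs of subspaces (definitions for the dichotomy).
-/

namespace Pool.Agent.EBM

open Finsupp Filter Topology

section
variable {𝕜 : Type*} [RCLike 𝕜] {X : Type*} [NormedAddCommGroup X] [NormedSpace 𝕜 X]

/-- The linear span of a sequence of coefficient vectors. -/
noncomputable def sp (u : ℕ → (ℕ →₀ 𝕜)) : Submodule 𝕜 (ℕ →₀ 𝕜) := Submodule.span 𝕜 (Set.range u)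

/-- Block sequences with coefficients in `Q`. -/
def RB (Q : Subfield 𝕜) (c : ℕ → (ℕ →₀ 𝕜)) : Prop := Block c ∧ ∀ k i, c k i ∈ Q

/-- `u` is a block sequence of `z` with coefficients in `Q`. -/
def Sb (Q : Subfield 𝕜) (u z : ℕ → (ℕ →₀ 𝕜)) : Prop :=
  ∃ d : ℕ → (ℕ →₀ 𝕜), RB Q d ∧ u = fun k => comb z (d k)

/-- The tail of a sequence. -/
def tl (u : ℕ → (ℕ →₀ 𝕜)) (m : ℕ) : ℕ → (ℕ →₀ 𝕜) := fun k => u (m + k)

/-- The pair `E, F` is bad for `z`. -/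
def Bad (e : ℕ → X) (Q : Subfield 𝕜) (ε : ℝ) (E F : Submodule 𝕜 (ℕ →₀ 𝕜))
    (z : ℕ → (ℕ →₀ 𝕜)) : Prop :=
  ∀ u v, Sb Q u z → Sb Q v z →
    ∃ x ∈ E ⊔ sp u, ∃ y ∈ F ⊔ sp v, ‖vec e (x - y)‖ < ε * ‖vec e (x + y)‖

/-- The pair `E, F` is good for `z`: not bad for any block sequence of `z`. -/
def Good (e : ℕ → X) (Q : Subfield 𝕜) (ε : ℝ) (E F : Submodule 𝕜 (ℕ →₀ 𝕜))
    (z : ℕ → (ℕ →₀ 𝕜)) : Prop :=
  ∀ z', Sb Q z' z → ¬ Bad e Q ε E F z'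

/-- The initial projections are bounded by `K`. -/
def BC (𝕜 : Type*) [RCLike 𝕜] {X : Type*} [NormedAddCommGroup X] [NormedSpace 𝕜 X]
    (K : ℝ) (x : ℕ → X) : Prop :=
  ∀ (a : ℕ →₀ 𝕜) (n : ℕ), ‖vec x (a.filter (fun i => i < n))‖ ≤ K * ‖vec x a‖

end

end Pool.Agent.EBM
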