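import Pool.Agent.EBM.U0

/-!
MODULE U1 (difficulty 2). Elementary facts on block sequences with coefficients in Q.
sb_refl: d k = single k 1. sb_trans: if u k = comb v (d k) and v k = comb z (g k) then u k = comb z (comb g (d k))
(linear combination of linear combinations), and k ↦ comb g (d k) is in RB (Block.comb of Bas; the coefficients are
finite sums of products of elements of Q, comb_apply). sb_rb: the same computation.
sb_tl: in u (m + k) = comb z (d (m + k)) the support of d (m + k) is in [m + k, ∞) (supports successive and nonempty),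
so u (m + k) = comb (tl z m) (g k), where g k i = d (m + k) (m + i) (shift, e.g. Finsupp.comapDomain).
tl_sb: d k = single (m + k) 1. sp_le: every u k is a finite linear combination of the z i. sp_tl_le: clear.
bad_mono: for u, v with Sb u z', Sb v z' we have Sb (tl u m) (tl z' m), so Sb (tl u m) z, the same for v; the
vectors x in E ⊔ sp (tl u m) ≤ E ⊔ sp u and y do it.
good_mono: let Sb z2 z' and Bad z2. Then Sb (tl z2 m) (tl z' m), so Sb (tl z2 m) z; and Bad (tl z2 m) by bad_mono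
(Sb (tl (tl z2 m) 0) z2). This contradicts Good z.
-/

namespace Pool.Agent.EBM

open Finsupp Filter Topology

section
variable {𝕜 : Type*} [RCLike 𝕜] {X : Type*} [NormedAddCommGroup X] [NormedSpace 𝕜 X]

theorem u1_comb_comb (z g : ℕ → (ℕ →₀ 𝕜)) (a : ℕ →₀ 𝕜) :
    comb (fun k => comb z (g k)) a = comb z (comb g a) := by
  unfold comb
  rw [Finsupp.apply_linearCombination]
  rfl

theorem u1_single_rb (Q : Subfield 𝕜) (m : ℕ) :
    RB Q (fun k => (single (m + k) (1 : 𝕜) : ℕ →₀ 𝕜)) := by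
  refine ⟨⟨fun k => ?_, fun k i hi j hj => ?_⟩, fun k i => ?_⟩
  · simp
  · rw [Finsupp.mem_support_iff, Finsupp.single_apply] at hi hj
    have h1 : m + k = i := by
      by_contra h
      simp [h] at hi
    have h2 : m + (k + 1) = j := by
      by_contra h
      simp [h] at hj
    omega
  · rw [Finsupp.single_apply]
    split_ifs
    · exact Q.one_mem
    · exact Q.zero_mem

theorem u1_ge {d : ℕ → (ℕ →₀ 𝕜)} (hd : Block d) : ∀ k, ∀ i ∈ (d k).support, k ≤ i := by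
  intro k
  induction k with
  | zero => intro i _; exact Nat.zero_le i
  | succ k ih =>
    intro i hi
    obtain ⟨j, hj⟩ := Finsupp.support_nonempty_iff.mpr (hd.1 k)
    have h1 := ih j hj
    have h2 := hd.2 k j hj i hi
    omega

theorem u1_comb_mem {Q : Subfield 𝕜} {g : ℕ → (ℕ →₀ 𝕜)} (hg : ∀ k i, g k i ∈ Q)
    {a : ℕ →₀ 𝕜} (ha : ∀ i, a i ∈ Q) (i : ℕ) : comb g a i ∈ Q := by
  rw [comb_apply]
  exact Q.sum_mem fun k _ => Q.mul_mem (ha k) (hg k i)

theorem u1_rb_comb {Q : Subfield 𝕜} {g d : ℕ → (ℕ →₀ 𝕜)} (hg : RB Q g) (hd : RB Q d) :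
    RB Q (fun k => comb g (d k)) :=
  ⟨Block.comb hg.1 hd.1, fun k i => u1_comb_mem hg.2 (hd.2 k) i⟩

theorem sb_refl (Q : Subfield 𝕜) (z : ℕ → (ℕ →₀ 𝕜)) : Sb Q z z := by
  refine ⟨_, u1_single_rb Q 0, ?_⟩
  funext k
  rw [comb_single, one_smul, Nat.zero_add]

theorem sb_trans {Q : Subfield 𝕜} {u v z : ℕ → (ℕ →₀ 𝕜)} (h1 : Sb Q u v) (h2 : Sb Q v z) :
    Sb Q u z := by
  obtain ⟨d, hd, rfl⟩ := h1
  obtain ⟨g, hg, rfl⟩ := h2
  refine ⟨_, u1_rb_comb hg hd, ?_⟩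
  funext k
  exact u1_comb_comb z g (d k)

theorem sb_rb {Q : Subfield 𝕜} {u z : ℕ → (ℕ →₀ 𝕜)} (h1 : Sb Q u z) (h2 : RB Q z) :
    RB Q u := by
  obtain ⟨d, hd, rfl⟩ := h1
  exact u1_rb_comb h2 hd

theorem sb_tl {Q : Subfield 𝕜} {u z : ℕ → (ℕ →₀ 𝕜)} (h1 : Sb Q u z) (m : ℕ) :
    Sb Q (tl u m) (tl z m) := by
  obtain ⟨d, hd, rfl⟩ := h1
  have hinj : Function.Injective (fun i : ℕ => m + i) := fun i j h => Nat.add_left_cancel h
  set g : ℕ → (ℕ →₀ 𝕜) := fun k =>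
    Finsupp.comapDomain (fun i : ℕ => m + i) (d (m + k)) hinj.injOn with hg
  have hgi : ∀ k i, g k i = d (m + k) (m + i) := fun k i => rfl
  have hmap : ∀ k, Finsupp.mapDomain (fun i : ℕ => m + i) (g k) = d (m + k) := by
    intro k
    refine Finsupp.mapDomain_comapDomain _ hinj _ ?_
    intro i hi
    have h := u1_ge hd.1 (m + k) i hi
    exact ⟨i - m, by simp only; omega⟩
  have hmem : ∀ k i, i ∈ (g k).support → m + i ∈ (d (m + k)).support := by
    intro k i hi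
    rw [Finsupp.mem_support_iff] at hi ⊢
    rwa [hgi] at hi
  refine ⟨g, ⟨⟨fun k hk => ?_, fun k i hi j hj => ?_⟩, fun k i => ?_⟩, ?_⟩
  · have h := hmap k
    rw [hk, Finsupp.mapDomain_zero] at h
    exact hd.1.1 (m + k) h.symm
  · have h := hd.1.2 (m + k) (m + i) (hmem k i hi) (m + j) (hmem (k + 1) j hj)
    omega
  · rw [hgi]
    exact hd.2 _ _
  · funext k
    change comb z (d (m + k)) = comb (tl z m) (g k)
    rw [← hmap k]
    unfold comb
    rw [Finsupp.linearCombination_mapDomain]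
    rfl

theorem tl_sb (Q : Subfield 𝕜) (z : ℕ → (ℕ →₀ 𝕜)) (m : ℕ) : Sb Q (tl z m) z := by
  refine ⟨_, u1_single_rb Q m, ?_⟩
  funext k
  rw [comb_single, one_smul]
  rfl

theorem sp_le {Q : Subfield 𝕜} {u z : ℕ → (ℕ →₀ 𝕜)} (h1 : Sb Q u z) : sp u ≤ sp z := by
  obtain ⟨d, hd, rfl⟩ := h1
  refine Submodule.span_le.2 ?_
  rintro _ ⟨k, rfl⟩
  simp only [SetLike.mem_coe]
  rw [comb_eq_sum]
  exact Submodule.sum_mem _ fun i _ =>
    Submodule.smul_mem _ _ (Submodule.subset_span (Set.mem_range_self i))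

theorem sp_tl_le (u : ℕ → (ℕ →₀ 𝕜)) (m : ℕ) : sp (tl u m) ≤ sp u := by
  refine Submodule.span_mono ?_
  rintro _ ⟨k, rfl⟩
  exact ⟨m + k, rfl⟩

theorem bad_mono {e : ℕ → X} {Q : Subfield 𝕜} {ε : ℝ} {E F : Submodule 𝕜 (ℕ →₀ 𝕜)}
    {z z' : ℕ → (ℕ →₀ 𝕜)} (m : ℕ) (h : Sb Q (tl z' m) z) (hb : Bad e Q ε E F z) :
    Bad e Q ε E F z' := by
  intro u v hu hv
  obtain ⟨x, hx, y, hy, hxy⟩ := hb (tl u m) (tl v m) (sb_trans (sb_tl hu m) h)
    (sb_trans (sb_tl hv m) h)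
  exact ⟨x, sup_le_sup_left (sp_tl_le u m) E hx, y, sup_le_sup_left (sp_tl_le v m) F hy, hxy⟩

theorem good_mono {e : ℕ → X} {Q : Subfield 𝕜} {ε : ℝ} {E F : Submodule 𝕜 (ℕ →₀ 𝕜)}
    {z z' : ℕ → (ℕ →₀ 𝕜)} (m : ℕ) (h : Sb Q (tl z' m) z) (hb : Good e Q ε E F z) :
    Good e Q ε E F z' := by
  intro z2 h2 hbad
  refine hb (tl z2 m) (sb_trans (sb_tl h2 m) h) ?_
  exact bad_mono 0 (sb_trans (tl_sb Q (tl z2 m) 0) (tl_sb Q z2 m)) hbad

end

end Pool.Agent.EBM
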