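import Pool.Agent.EBM.U1

/-!
MODULE U2 (difficulty 3). Diagonal sequences and deciding all pairs.
diag: choose f i in RB Q with z (i+1) j = comb (z i) (f i j). Fix m. Define by recursion D 0 j = single j 1,
D (k+1) j = comb (D k) (f (m+k) j). By induction: D k is in RB Q (Block.comb) and z (m+k) j = comb (z m) (D k j). Put
g k = D k (m+k): then z (m+k) (m+k) = comb (z m) (g k), g k is nonzero with coefficients in Q, and the supports are successive:
g (k+1) = comb (D k) (f (m+k) (m+k+1)), the support of f (m+k) (m+k+1) is in [m+k+1, ∞) (successive nonempty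
supports), so every index of the support of g (k+1) is in the support of some D k j, j ≥ m+k+1 > m+k
(mem_support_comb), hence larger than all indices of the support of D k (m+k) = g k (Block.lt).
decided: the set of the pairs (P, R) of finite sets of vectors with coefficients in the countable Q is countable and
nonempty: enumerate it (exists_surjective_nat; or use Encodable / Countable of Finset (ℕ →₀ Q) × Finset (ℕ →₀ Q) with the
coercion map). Define z_0 = z and z_(i+1) as follows: if the pair number i is Good for z_i then z_(i+1) = z_i,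
otherwise z_(i+1) is a block sequence of z_i (Sb) for which the pair is Bad. Let w i = z_i i. By diag
Sb (tl w (i+1)) (z_(i+1)) and bad_mono, good_mono (with m = i+1) show that the pair number i is Bad or Good for w
(Good z_i gives Good z_(i+1) = z_i). Sb w z is diag with m = 0 (tl w 0 = w).
-/

namespace Pool.Agent.EBM

open Finsupp Filter Topology

section
variable {𝕜 : Type*} [RCLike 𝕜] {X : Type*} [NormedAddCommGroup X] [NormedSpace 𝕜 X]

theorem diag {Q : Subfield 𝕜} (z : ℕ → ℕ → (ℕ →₀ 𝕜)) (h : ∀ i, Sb Q (z (i + 1)) (z i))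
    (m : ℕ) : Sb Q (tl (fun i => z i i) m) (z m) := by
  choose f hf hfz using h
  let D : ℕ → ℕ → (ℕ →₀ 𝕜) := fun k => Nat.rec (fun j => single j 1)
    (fun k Dk j => comb Dk (f (m + k) j)) k
  have hD0 : D 0 = fun j => single j 1 := rfl
  have hDs : ∀ k, D (k + 1) = fun j => comb (D k) (f (m + k) j) := fun k => rfl
  have hrb : ∀ k, RB Q (D k) := by
    intro k
    induction k with
    | zero =>
      rw [hD0]
      have h1 := u1_single_rb Q 0
      simpa using h1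
    | succ k ih =>
      rw [hDs]
      refine ⟨ih.1.comb (hf (m + k)).1, fun j i => ?_⟩
      exact u1_comb_mem ih.2 ((hf (m + k)).2 j) i
  have hz : ∀ k j, z (m + k) j = comb (z m) (D k j) := by
    intro k
    induction k with
    | zero =>
      intro j
      rw [hD0, comb_single, one_smul]
      rfl
    | succ k ih =>
      intro j
      have h1 : z (m + (k + 1)) = fun j => comb (z (m + k)) (f (m + k) j) := hfz (m + k)
      rw [h1, hDs]
      have h2 : z (m + k) = fun j => comb (z m) (D k j) := funext ih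
      change comb (z (m + k)) (f (m + k) j) = comb (z m) (comb (D k) (f (m + k) j))
      rw [h2, u1_comb_comb]
  refine ⟨fun k => D k (m + k), ⟨⟨fun k => (hrb k).1.1 _, fun k i hi j hj => ?_⟩,
    fun k i => (hrb k).2 _ i⟩, ?_⟩
  · have h1 : D (k + 1) (m + (k + 1)) = comb (D k) (f (m + k) (m + (k + 1))) := rfl
    change j ∈ (D (k + 1) (m + (k + 1))).support at hj
    rw [h1] at hj
    obtain ⟨l, hl, hjl⟩ := mem_support_comb hj
    have h2 := u1_ge (hf (m + k)).1 (m + (k + 1)) l hl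
    exact (hrb k).1.lt (show m + k < l by omega) hi hjl
  · funext k
    exact hz k (m + k)

theorem u2_seq (e : ℕ → X) (Q : Subfield 𝕜) (ε : ℝ) (z : ℕ → (ℕ →₀ 𝕜))
    (p : ℕ → Submodule 𝕜 (ℕ →₀ 𝕜) × Submodule 𝕜 (ℕ →₀ 𝕜)) :
    ∃ z', Sb Q z' z ∧ ∀ i, Bad e Q ε (p i).1 (p i).2 z' ∨ Good e Q ε (p i).1 (p i).2 z' := by
  have hstep : ∀ (i : ℕ) (y : ℕ → (ℕ →₀ 𝕜)), ∃ y', Sb Q y' y ∧
      (Bad e Q ε (p i).1 (p i).2 y' ∨ Good e Q ε (p i).1 (p i).2 y') := by
    intro i y
    by_cases hg : Good e Q ε (p i).1 (p i).2 y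
    · exact ⟨y, sb_refl Q y, Or.inr hg⟩
    · unfold Good at hg
      push Not at hg
      obtain ⟨y', h1, h2⟩ := hg
      exact ⟨y', h1, Or.inl h2⟩
  choose g hg1 hg2 using hstep
  let zz : ℕ → ℕ → (ℕ →₀ 𝕜) := fun n => Nat.rec z (fun n y => g n y) n
  have hz0 : zz 0 = z := rfl
  have hzs : ∀ n, zz (n + 1) = g n (zz n) := fun n => rfl
  have hd := diag zz (fun i => by rw [hzs]; exact hg1 i (zz i)) (Q := Q)
  refine ⟨fun i => zz i i, ?_, ?_⟩
  · have h0 := hd 0
    rw [hz0] at h0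
    have h1 : tl (fun i => zz i i) 0 = fun i => zz i i := by
      funext k
      simp [tl]
    rw [h1] at h0
    exact h0
  · intro i
    have h1 := hd (i + 1)
    have h2 := hg2 i (zz i)
    rw [← hzs] at h2
    rcases h2 with h2 | h2
    · exact Or.inl (bad_mono (i + 1) h1 h2)
    · exact Or.inr (good_mono (i + 1) h1 h2)

theorem decided (e : ℕ → X) (Q : Subfield 𝕜) (hQc : Countable Q) (ε : ℝ)
    (z : ℕ → (ℕ →₀ 𝕜)) :
    ∃ z', Sb Q z' z ∧ ∀ P R : Finset (ℕ →₀ 𝕜), (∀ c ∈ P, ∀ i, c i ∈ Q) →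
      (∀ c ∈ R, ∀ i, c i ∈ Q) →
      Bad e Q ε (Submodule.span 𝕜 (P : Set (ℕ →₀ 𝕜))) (Submodule.span 𝕜 (R : Set (ℕ →₀ 𝕜))) z' ∨
      Good e Q ε (Submodule.span 𝕜 (P : Set (ℕ →₀ 𝕜)))
        (Submodule.span 𝕜 (R : Set (ℕ →₀ 𝕜))) z' := by
  classical
  let V : Set (ℕ →₀ 𝕜) := {c | ∀ i, c i ∈ Q}
  have hV : V.Countable := by
    have hinj : Function.Injective (fun c : V => (Finsupp.onFinset c.1.support
        (fun i => (⟨c.1 i, c.2 i⟩ : Q)) (fun i hi => by
          rw [Finsupp.mem_support_iff]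
          intro h0
          apply hi
          exact Subtype.ext h0) : ℕ →₀ Q)) := by
      intro c d hcd
      apply Subtype.ext
      ext i
      have h1 := DFunLike.congr_fun hcd i
      simp only [Finsupp.onFinset_apply] at h1
      exact congrArg Subtype.val h1
    have : Countable V := hinj.countable
    exact Set.countable_coe_iff.mp this
  have hS : ({P : Finset (ℕ →₀ 𝕜) | (P : Set (ℕ →₀ 𝕜)) ⊆ V}).Countable :=
    by
    have h1 : {t : Set (ℕ →₀ 𝕜) | Set.Finite t ∧ t ⊆ V}.Countable :=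
      Set.countable_ofPred_finite_subset hV
    have h2 : ({P : Finset (ℕ →₀ 𝕜) | (P : Set (ℕ →₀ 𝕜)) ⊆ V}) ⊆
        (fun P : Finset (ℕ →₀ 𝕜) => (P : Set (ℕ →₀ 𝕜))) ⁻¹'
          {t : Set (ℕ →₀ 𝕜) | Set.Finite t ∧ t ⊆ V} := by
      intro P hP
      exact ⟨P.finite_toSet, hP⟩
    exact (h1.preimage_of_injOn Finset.coe_injective.injOn).mono h2
  have hc : Countable ({P : Finset (ℕ →₀ 𝕜) | (P : Set (ℕ →₀ 𝕜)) ⊆ V} ×
      {P : Finset (ℕ →₀ 𝕜) | (P : Set (ℕ →₀ 𝕜)) ⊆ V}) := by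
    have := Set.countable_coe_iff.mpr hS
    infer_instance
  have hne : Nonempty ({P : Finset (ℕ →₀ 𝕜) | (P : Set (ℕ →₀ 𝕜)) ⊆ V} ×
      {P : Finset (ℕ →₀ 𝕜) | (P : Set (ℕ →₀ 𝕜)) ⊆ V}) :=
    ⟨(⟨∅, by simp⟩, ⟨∅, by simp⟩)⟩
  obtain ⟨q, hq⟩ := exists_surjective_nat ({P : Finset (ℕ →₀ 𝕜) | (P : Set (ℕ →₀ 𝕜)) ⊆ V} ×
      {P : Finset (ℕ →₀ 𝕜) | (P : Set (ℕ →₀ 𝕜)) ⊆ V})
  obtain ⟨z', h1, h2⟩ := u2_seq e Q ε z (fun i =>
    (Submodule.span 𝕜 ((q i).1.1 : Set (ℕ →₀ 𝕜)), Submodule.span 𝕜 ((q i).2.1 : Set (ℕ →₀ 𝕜))))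
  refine ⟨z', h1, fun P R hP hR => ?_⟩
  obtain ⟨i, hi⟩ := hq (⟨P, fun c hc => hP c hc⟩, ⟨R, fun c hc => hR c hc⟩)
  have h3 := h2 i
  rw [hi] at h3
  exact h3

end

end Pool.Agent.EBM
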