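import Pool.Agent.EBM.U1

/-!
MODULE U3 (difficulty 3). Maurey's argument.
Write [P] = Submodule.span 𝕜 P. For a finite set of vectors with coefficients in Q the pair ([P],[R]) is Bad or Good for z (hdec).
Bad implies not Good (sb_refl).
STEP 1. Let ([P],[R]) be Good for z (P, R with coefficients in Q) and Sb y z. Then there is y' with Sb y' y such that for
every w in sp y' with coefficients in Q the pairs ([P ∪ {w}],[R]) and ([P],[R ∪ {w}]) are Good for z.
Proof: Good passes to y (good_mono with m = 0), so not Bad for y: there are u, v with Sb u y, Sb v y such that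
 (*) norm (vec e (x - y)) ≥ ε * norm (vec e (x + y)) for all x in [P] ⊔ sp u, y in [R] ⊔ sp v.
If w in sp u then [P ∪ {w}] ⊔ sp u = [P] ⊔ sp u, so ([P ∪ {w}],[R]) is not Bad for z (u, v are Sb z by
sb_trans), hence Good by hdec. Now apply the same to u instead of y: there are u2, v2 with Sb u2 u, Sb v2 u
and (*); for w in sp v2 the pair ([P],[R ∪ {w}]) is not Bad, hence Good. Take y' = v2: sp v2 ≤ sp u (sp_le).
STEP 2. The same for finitely many pairs simultaneously (induction on the number, y' for the first k pairs, then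
STEP 1 inside y'; sp decreases by sp_le).
STEP 3. Construct w 0, w 1, ... with coefficients in Q, nonzero, successive supports, such that for all n and all disjoint
A, B ⊆ {0,...,n-1} the pair ([w(A)],[w(B)]) is Good for z: n = 0 is hgood. Given w 0..w (n-1): STEP 2 for all pairs
(A,B) gives y' with Sb y' z; take w n = y' k with k larger than all indices in the support of w (n-1) (the support of
y' k is in [k, ∞) since y' is a block sequence, sb_rb). Disjoint subsets of {0,...,n}: n is in at most one of them.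
STEP 4. A pair Good for z is not Bad for z: there are u, v with (*), in particular for x in [w(A)], y in [w(B)]. For a, b with disjoint
supports A, B: vec (seqOf e w) (a + b) = vec e (comb w a + comb w b) with comb w a in [w(A)], comb w b in [w(B)],
the same with minus.
(In Lean: the recursion of STEP 3 is convenient on lists or with exists_seq... on n-tuples; or define the property of finite
sequences ℕ → (ℕ →₀ 𝕜) up to n and use a Nat.rec on subtypes.)
-/

namespace Pool.Agent.EBM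

open Finsupp Filter Topology

section
variable {𝕜 : Type*} [RCLike 𝕜] {X : Type*} [NormedAddCommGroup X] [NormedSpace 𝕜 X]

theorem u3_span_le {P : Set (ℕ →₀ 𝕜)} {w : ℕ →₀ 𝕜} {S : Submodule 𝕜 (ℕ →₀ 𝕜)} (hw : w ∈ S) :
    Submodule.span 𝕜 (insert w P) ⊔ S ≤ Submodule.span 𝕜 P ⊔ S := by
  refine sup_le ?_ le_sup_right
  rw [Submodule.span_le]
  intro x hx
  rcases Set.mem_insert_iff.mp hx with h | h
  · rw [h]
    exact Submodule.mem_sup_right hw
  · exact Submodule.mem_sup_left (Submodule.subset_span h)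

/-- The hypothesis that all rational pairs are decided. -/
def U3Dec (e : ℕ → X) (Q : Subfield 𝕜) (ε : ℝ) (z : ℕ → (ℕ →₀ 𝕜)) : Prop :=
  ∀ P R : Finset (ℕ →₀ 𝕜), (∀ c ∈ P, ∀ i, c i ∈ Q) →
      (∀ c ∈ R, ∀ i, c i ∈ Q) →
      Bad e Q ε (Submodule.span 𝕜 (P : Set (ℕ →₀ 𝕜))) (Submodule.span 𝕜 (R : Set (ℕ →₀ 𝕜))) z ∨
      Good e Q ε (Submodule.span 𝕜 (P : Set (ℕ →₀ 𝕜)))
        (Submodule.span 𝕜 (R : Set (ℕ →₀ 𝕜))) z

/-- Rational finite sets. -/
def U3Rat (Q : Subfield 𝕜) (P : Finset (ℕ →₀ 𝕜)) : Prop := ∀ c ∈ P, ∀ i, c i ∈ Q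

/-- Good pairs of finite sets. -/
def U3G (e : ℕ → X) (Q : Subfield 𝕜) (ε : ℝ) (z : ℕ → (ℕ →₀ 𝕜)) (P R : Finset (ℕ →₀ 𝕜)) : Prop :=
  Good e Q ε (Submodule.span 𝕜 (P : Set (ℕ →₀ 𝕜)))
        (Submodule.span 𝕜 (R : Set (ℕ →₀ 𝕜))) z

theorem u3_rat_insert [DecidableEq (ℕ →₀ 𝕜)] {Q : Subfield 𝕜} {P : Finset (ℕ →₀ 𝕜)}
    (hP : U3Rat Q P) {w : ℕ →₀ 𝕜} (hw : ∀ i, w i ∈ Q) : U3Rat Q (insert w P) := by
  intro c hc
  rcases Finset.mem_insert.mp hc with h | h
  · rw [h]; exact hw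
  · exact hP c h

theorem u3_step [DecidableEq (ℕ →₀ 𝕜)] {e : ℕ → X} {Q : Subfield 𝕜} {ε : ℝ}
    {z : ℕ → (ℕ →₀ 𝕜)} (hdec : U3Dec e Q ε z) {P R : Finset (ℕ →₀ 𝕜)} (hP : U3Rat Q P)
    (hR : U3Rat Q R) (hG : U3G e Q ε z P R) {y : ℕ → (ℕ →₀ 𝕜)} (hy : Sb Q y z) :
    ∃ y', Sb Q y' y ∧ ∀ w ∈ sp y', (∀ i, w i ∈ Q) →
      U3G e Q ε z (insert w P) R ∧ U3G e Q ε z P (insert w R) := by
  have htl : ∀ u : ℕ → (ℕ →₀ 𝕜), tl u 0 = u := by
    intro u; funext k; simp [tl]
  have key : ∀ y : ℕ → (ℕ →₀ 𝕜), Sb Q y z → ∃ u v, Sb Q u y ∧ Sb Q v y ∧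
      ∀ x ∈ Submodule.span 𝕜 (P : Set (ℕ →₀ 𝕜)) ⊔ sp u,
      ∀ x' ∈ Submodule.span 𝕜 (R : Set (ℕ →₀ 𝕜)) ⊔ sp v,
        ε * ‖vec e (x + x')‖ ≤ ‖vec e (x - x')‖ := by
    intro y hy
    have hGy : Good e Q ε (Submodule.span 𝕜 (P : Set (ℕ →₀ 𝕜)))
        (Submodule.span 𝕜 (R : Set (ℕ →₀ 𝕜))) y :=
      good_mono 0 (by rw [htl]; exact hy) hG
    have h1 := hGy y (sb_refl Q y)
    unfold Bad at h1
    push Not at h1
    obtain ⟨u, v, h2, h3, h4⟩ := h1
    exact ⟨u, v, h2, h3, h4⟩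
  obtain ⟨u, v, hu, hv, huv⟩ := key y hy
  obtain ⟨u2, v2, hu2, hv2, huv2⟩ := key u (sb_trans hu hy)
  refine ⟨v2, sb_trans hv2 hu, ?_⟩
  intro w hw hwQ
  constructor
  · rcases hdec (insert w P) R (u3_rat_insert hP hwQ) hR with h | h
    · exfalso
      obtain ⟨x, hx, x', hx', hlt⟩ := h u v (sb_trans hu hy) (sb_trans hv hy)
      have hwu : w ∈ sp u := sp_le hv2 hw
      rw [Finset.coe_insert] at hx
      have h2 := huv x (u3_span_le hwu hx) x' hx'
      linarith
    · exact h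
  · rcases hdec P (insert w R) hP (u3_rat_insert hR hwQ) with h | h
    · exfalso
      obtain ⟨x, hx, x', hx', hlt⟩ := h u2 v2 (sb_trans hu2 (sb_trans hu hy))
        (sb_trans hv2 (sb_trans hu hy))
      rw [Finset.coe_insert] at hx'
      have h2 := huv2 x hx x' (u3_span_le hw hx')
      linarith
    · exact h

theorem u3_steps [DecidableEq (ℕ →₀ 𝕜)] {e : ℕ → X} {Q : Subfield 𝕜} {ε : ℝ}
    {z : ℕ → (ℕ →₀ 𝕜)} (hdec : U3Dec e Q ε z)
    (L : List (Finset (ℕ →₀ 𝕜) × Finset (ℕ →₀ 𝕜)))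
    (hL : ∀ p ∈ L, U3Rat Q p.1 ∧ U3Rat Q p.2 ∧ U3G e Q ε z p.1 p.2) :
    ∃ y', Sb Q y' z ∧ ∀ p ∈ L, ∀ w ∈ sp y', (∀ i, w i ∈ Q) →
      U3G e Q ε z (insert w p.1) p.2 ∧ U3G e Q ε z p.1 (insert w p.2) := by
  induction L with
  | nil => exact ⟨z, sb_refl Q z, fun p hp => by simp at hp⟩
  | cons q L ih =>
    obtain ⟨y, hy, hyL⟩ := ih (fun p hp => hL p (List.mem_cons_of_mem q hp))
    obtain ⟨h1, h2, h3⟩ := hL q List.mem_cons_self
    obtain ⟨y', hy', hq⟩ := u3_step hdec h1 h2 h3 hy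
    refine ⟨y', sb_trans hy' hy, ?_⟩
    intro p hp w hw hwQ
    rcases List.mem_cons.mp hp with h | h
    · rw [h]; exact hq w hw hwQ
    · exact hyL p h w (sp_le hy' hw) hwQ

/-- The first `n` terms of `w` are as required. -/
def U3Inv [DecidableEq (ℕ →₀ 𝕜)] (e : ℕ → X) (Q : Subfield 𝕜) (ε : ℝ) (z : ℕ → (ℕ →₀ 𝕜)) (n : ℕ)
    (w : ℕ → (ℕ →₀ 𝕜)) : Prop :=
  (∀ k < n, w k ≠ 0 ∧ ∀ i, w k i ∈ Q) ∧
  (∀ k, k + 1 < n → ∀ i ∈ (w k).support, ∀ j ∈ (w (k + 1)).support, i < j) ∧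
  ∀ A B : Finset ℕ, A ⊆ Finset.range n → B ⊆ Finset.range n → Disjoint A B →
    U3G e Q ε z (A.image w) (B.image w)

theorem u3_next [DecidableEq (ℕ →₀ 𝕜)] {e : ℕ → X} {Q : Subfield 𝕜} {ε : ℝ}
    {z : ℕ → (ℕ →₀ 𝕜)} (hz : RB Q z) (hdec : U3Dec e Q ε z) (n : ℕ) (w : ℕ → (ℕ →₀ 𝕜))
    (hw : U3Inv e Q ε z n w) :
    ∃ w', U3Inv e Q ε z (n + 1) w' ∧ ∀ k < n, w' k = w k := by
  classical
  obtain ⟨hw1, hw2, hw3⟩ := hw
  let S : Finset (Finset ℕ × Finset ℕ) :=
    ((Finset.range n).powerset ×ˢ (Finset.range n).powerset).filter (fun p => Disjoint p.1 p.2)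
  have hS : ∀ A B : Finset ℕ, (A, B) ∈ S ↔
      (A ⊆ Finset.range n ∧ B ⊆ Finset.range n) ∧ Disjoint A B := by
    intro A B
    simp [S, Finset.mem_filter, Finset.mem_product, Finset.mem_powerset]
  have hrat : ∀ A : Finset ℕ, A ⊆ Finset.range n → U3Rat Q (A.image w) := by
    intro A hA c hc
    obtain ⟨k, hk, rfl⟩ := Finset.mem_image.mp hc
    exact (hw1 k (Finset.mem_range.mp (hA hk))).2
  obtain ⟨y', hy', hgood⟩ := u3_steps hdec
    (S.toList.map (fun p => (p.1.image w, p.2.image w))) (by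
      intro p hp
      obtain ⟨q, hq, rfl⟩ := List.mem_map.mp hp
      have h1 := (hS q.1 q.2).mp (Finset.mem_toList.mp hq)
      exact ⟨hrat _ h1.1.1, hrat _ h1.1.2, hw3 _ _ h1.1.1 h1.1.2 h1.2⟩)
  have hy : RB Q y' := sb_rb hy' hz
  obtain ⟨M, hM⟩ : ∃ M : ℕ, ∀ k < n, ∀ i ∈ (w k).support, i < M := by
    refine ⟨((Finset.range n).biUnion (fun k => (w k).support)).sup id + 1, ?_⟩
    intro k hk i hi
    have h1 : i ∈ (Finset.range n).biUnion (fun k => (w k).support) :=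
      Finset.mem_biUnion.mpr ⟨k, Finset.mem_range.mpr hk, hi⟩
    have h2 := Finset.le_sup (f := id) h1
    simp only [id] at h2
    omega
  have hMem : y' M ∈ sp y' := Submodule.subset_span ⟨M, rfl⟩
  have hupd : ∀ k < n, Function.update w n (y' M) k = w k := by
    intro k hk
    exact Function.update_of_ne (by omega) _ _
  have hupn : Function.update w n (y' M) n = y' M := Function.update_self _ _ _
  have himg : ∀ A : Finset ℕ, A ⊆ Finset.range n →
      A.image (Function.update w n (y' M)) = A.image w := by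
    intro A hA
    refine Finset.image_congr ?_
    intro k hk
    exact hupd k (Finset.mem_range.mp (hA hk))
  have himg2 : ∀ A : Finset ℕ, A ⊆ Finset.range (n + 1) → n ∈ A →
      A.image (Function.update w n (y' M)) = insert (y' M) ((A.erase n).image w) := by
    intro A hA hn
    have h1 : A.erase n ⊆ Finset.range n := by
      intro k hk
      have h2 := Finset.mem_erase.mp hk
      have h3 := Finset.mem_range.mp (hA h2.2)
      exact Finset.mem_range.mpr (by omega)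
    rw [← himg _ h1]
    conv_lhs => rw [← Finset.insert_erase hn]
    rw [Finset.image_insert, hupn]
  have herase : ∀ A : Finset ℕ, A ⊆ Finset.range (n + 1) → A.erase n ⊆ Finset.range n := by
    intro A hA k hk
    have h2 := Finset.mem_erase.mp hk
    have h3 := Finset.mem_range.mp (hA h2.2)
    exact Finset.mem_range.mpr (by omega)
  have hnot : ∀ A : Finset ℕ, A ⊆ Finset.range (n + 1) → n ∉ A → A ⊆ Finset.range n := by
    intro A hA hn k hk
    have h3 := Finset.mem_range.mp (hA hk)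
    have h4 : k ≠ n := fun h => hn (h ▸ hk)
    exact Finset.mem_range.mpr (by omega)
  have hmemL : ∀ A B : Finset ℕ, A ⊆ Finset.range n → B ⊆ Finset.range n → Disjoint A B →
      (A.image w, B.image w) ∈ S.toList.map (fun p => (p.1.image w, p.2.image w)) := by
    intro A B hA hB hd
    exact List.mem_map.mpr ⟨(A, B), Finset.mem_toList.mpr ((hS A B).mpr ⟨⟨hA, hB⟩, hd⟩), rfl⟩
  refine ⟨Function.update w n (y' M), ⟨?_, ?_, ?_⟩, hupd⟩
  · intro k hk
    rcases Nat.lt_succ_iff_lt_or_eq.mp hk with h | h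
    · rw [hupd k h]; exact hw1 k h
    · rw [h, hupn]; exact ⟨hy.1.1 M, hy.2 M⟩
  · intro k hk i hi j hj
    have hkn : k < n := by omega
    rw [hupd k hkn] at hi
    rcases Nat.lt_succ_iff_lt_or_eq.mp hk with h | h
    · rw [hupd (k + 1) h] at hj
      exact hw2 k h i hi j hj
    · rw [h, hupn] at hj
      have h1 := u1_ge hy.1 M j hj
      have h2 := hM k hkn i hi
      omega
  · intro A B hA hB hd
    by_cases hnA : n ∈ A
    · have hnB : n ∉ B := fun h => (Finset.disjoint_left.mp hd) hnA h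
      rw [himg2 A hA hnA, himg B (hnot B hB hnB)]
      exact (hgood _ (hmemL (A.erase n) B (herase A hA) (hnot B hB hnB)
        (Finset.disjoint_of_subset_left (Finset.erase_subset n A) hd)) (y' M) hMem
        (hy.2 M)).1
    · by_cases hnB : n ∈ B
      · rw [himg2 B hB hnB, himg A (hnot A hA hnA)]
        exact (hgood _ (hmemL A (B.erase n) (hnot A hA hnA) (herase B hB)
          (Finset.disjoint_of_subset_right (Finset.erase_subset n B) hd)) (y' M) hMem
          (hy.2 M)).2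
      · rw [himg A (hnot A hA hnA), himg B (hnot B hB hnB)]
        exact hw3 A B (hnot A hA hnA) (hnot B hB hnB) hd

theorem maurey (e : ℕ → X) (Q : Subfield 𝕜) (ε : ℝ) (z : ℕ → (ℕ →₀ 𝕜)) (hz : RB Q z)
    (hdec : ∀ P R : Finset (ℕ →₀ 𝕜), (∀ c ∈ P, ∀ i, c i ∈ Q) →
      (∀ c ∈ R, ∀ i, c i ∈ Q) →
      Bad e Q ε (Submodule.span 𝕜 (P : Set (ℕ →₀ 𝕜))) (Submodule.span 𝕜 (R : Set (ℕ →₀ 𝕜))) z ∨
      Good e Q ε (Submodule.span 𝕜 (P : Set (ℕ →₀ 𝕜)))
        (Submodule.span 𝕜 (R : Set (ℕ →₀ 𝕜))) z)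
    (hgood : Good e Q ε ⊥ ⊥ z) :
    ∃ w : ℕ → (ℕ →₀ 𝕜), RB Q w ∧ ∀ a b : ℕ →₀ 𝕜, Disjoint a.support b.support →
      ε * ‖vec (seqOf e w) (a + b)‖ ≤ ‖vec (seqOf e w) (a - b)‖ := by
  classical
  have h0 : U3Inv e Q ε z 0 (fun _ => 0) := by
    refine ⟨fun k hk => absurd hk (Nat.not_lt_zero k), fun k hk => absurd hk (Nat.not_lt_zero _), ?_⟩
    intro A B hA hB _
    have hA0 : A = ∅ := Finset.subset_empty.mp (by simpa using hA)
    have hB0 : B = ∅ := Finset.subset_empty.mp (by simpa using hB)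
    rw [hA0, hB0]
    unfold U3G
    simpa using hgood
  choose nx hnx1 hnx2 using u3_next (e := e) (ε := ε) hz hdec
  let F : (n : ℕ) → {w : ℕ → (ℕ →₀ 𝕜) // U3Inv e Q ε z n w} := fun n =>
    Nat.rec ⟨fun _ => 0, h0⟩ (fun n w => ⟨nx n w.1 w.2, hnx1 n w.1 w.2⟩) n
  have hF : ∀ n, ∀ k < n, (F (n + 1)).1 k = (F n).1 k := fun n k hk => hnx2 n (F n).1 (F n).2 k hk
  have hF2 : ∀ n k, k < n → (F n).1 k = (F (k + 1)).1 k := by
    intro n
    induction n with
    | zero => intro k hk; exact absurd hk (Nat.not_lt_zero k)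
    | succ n ih =>
      intro k hk
      rcases Nat.lt_succ_iff_lt_or_eq.mp hk with h | h
      · rw [hF n k h]; exact ih k h
      · rw [h]
  let W : ℕ → (ℕ →₀ 𝕜) := fun k => (F (k + 1)).1 k
  have hW : ∀ n k, k < n → (F n).1 k = W k := hF2
  have hWB : RB Q W := by
    refine ⟨⟨fun k => ((F (k + 1)).2.1 k (Nat.lt_succ_self k)).1, ?_⟩,
      fun k => ((F (k + 1)).2.1 k (Nat.lt_succ_self k)).2⟩
    intro k i hi j hj
    have h1 := (F (k + 2)).2.2.1 k (by omega) i
    rw [hW (k + 2) k (by omega), hW (k + 2) (k + 1) (by omega)] at h1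
    exact h1 hi j hj
  have hWG : ∀ A B : Finset ℕ, Disjoint A B → U3G e Q ε z (A.image W) (B.image W) := by
    intro A B hd
    obtain ⟨n, hn⟩ : ∃ n : ℕ, A ∪ B ⊆ Finset.range n := by
      refine ⟨(A ∪ B).sup id + 1, ?_⟩
      intro k hk
      have h2 := Finset.le_sup (f := id) hk
      simp only [id] at h2
      exact Finset.mem_range.mpr (by omega)
    have hA : A ⊆ Finset.range n := Finset.union_subset_left hn
    have hB : B ⊆ Finset.range n := Finset.union_subset_right hn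
    have h1 := (F n).2.2.2 A B hA hB hd
    have h2 : ∀ A : Finset ℕ, A ⊆ Finset.range n → A.image (F n).1 = A.image W := by
      intro A hA
      refine Finset.image_congr ?_
      intro k hk
      exact hW n k (Finset.mem_range.mp (hA hk))
    rw [h2 A hA, h2 B hB] at h1
    exact h1
  refine ⟨W, hWB, ?_⟩
  intro a b hab
  have h1 := hWG a.support b.support hab
  have h2 := h1 z (sb_refl Q z)
  unfold Bad at h2
  push Not at h2
  obtain ⟨u, v, _, _, h3⟩ := h2
  have hmem : ∀ a : ℕ →₀ 𝕜, comb W a ∈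
      Submodule.span 𝕜 ((a.support.image W : Finset (ℕ →₀ 𝕜)) : Set (ℕ →₀ 𝕜)) := by
    intro a
    rw [comb_eq_sum]
    refine Submodule.sum_mem _ ?_
    intro i hi
    refine Submodule.smul_mem _ _ (Submodule.subset_span ?_)
    exact Finset.mem_coe.mpr (Finset.mem_image_of_mem W hi)
  have h4 := h3 (comb W a) (Submodule.mem_sup_left (hmem a)) (comb W b)
    (Submodule.mem_sup_left (hmem b))
  have h5 : vec (seqOf e W) (a + b) = vec e (comb W a + comb W b) := by
    rw [vec_seqOf, comb_add]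
  have h6 : vec (seqOf e W) (a - b) = vec e (comb W a - comb W b) := by
    rw [vec_seqOf]
    congr 1
    exact map_sub (Finsupp.linearCombination 𝕜 W) a b
  rw [h5, h6]
  exact h4

end

end Pool.Agent.EBM
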