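import Pool.Agent.EBM.U0

/-!
MODULE U4 (difficulty 2). Sign-unconditional sequences are unconditional.
Let M = 1 / ε, so norm (vec w (a + b)) ≤ M * norm (vec w (a - b)) for disjoint supports. Applied to a, -b:
the norm of vec w (s a) is ≤ M times the norm of vec w a for every choice of signs s : ℕ → {1,-1} (split a into the part with
s = 1 and the part with s = -1). Hence (adding a) the parts: norm (vec w (a restricted to A)) ≤ ((M + 1)/2) norm (vec w a).
Multipliers with real values in [-1,1]: by induction on the (finite) number of indices i with |t i| < 1 we have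
norm (vec w (t a)) ≤ M * norm (vec w a), since t is the convex combination ((1 + t i)/2) t' + ((1 - t i)/2) t'', where t' and t'' are t with
the value at i replaced by 1 and by -1. (Alternative: the function t ↦ norm (vec w (t a)) is convex on a cube.)
General: norm (b i) ≤ norm (a i): b i = l i * a i with norm (l i) ≤ 1 (l i = b i / a i, or 0 if a i = 0; then b i = 0), l i = re + im * I,
both real and imaginary part are in [-1,1]: norm (vec w b) ≤ 2 M norm (vec w a) (for RCLike: I is 0 or norm 1).
-/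

namespace Pool.Agent.EBM

open Finsupp Filter Topology

section
variable {𝕜 : Type*} [RCLike 𝕜] {X : Type*} [NormedAddCommGroup X] [NormedSpace 𝕜 X]

/-- Multiplication of the coefficients with real numbers. -/
private noncomputable def u4_tm (t : ℕ → ℝ) (a : ℕ →₀ 𝕜) : ℕ →₀ 𝕜 :=
  Finsupp.onFinset a.support (fun i => ((t i : ℝ) : 𝕜) * a i) (by
    intro i hi
    rw [Finsupp.mem_support_iff]
    intro h0
    exact hi (by rw [h0, mul_zero]))

private theorem u4_tm_apply (t : ℕ → ℝ) (a : ℕ →₀ 𝕜) (i : ℕ) :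
    u4_tm t a i = ((t i : ℝ) : 𝕜) * a i := rfl

private theorem u4_sign (w : ℕ → X) {ε : ℝ} (hε : 0 < ε)
    (h : ∀ a b : ℕ →₀ 𝕜, Disjoint a.support b.support →
      ε * ‖vec w (a + b)‖ ≤ ‖vec w (a - b)‖)
    (t : ℕ → ℝ) (ht : ∀ i, t i = 1 ∨ t i = -1) (a : ℕ →₀ 𝕜) :
    ‖vec w (u4_tm t a)‖ ≤ (1 / ε) * ‖vec w a‖ := by
  classical
  set a1 : ℕ →₀ 𝕜 := a.filter (fun i => t i = 1) with ha1
  set a2 : ℕ →₀ 𝕜 := a.filter (fun i => ¬ t i = 1) with ha2
  have hsum : a1 + a2 = a := Finsupp.filter_add_filter_not a _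
  have hd : Disjoint a1.support (-a2).support := by
    rw [Finsupp.support_neg, Finset.disjoint_left]
    intro i hi hi2
    rw [ha1, Finsupp.support_filter, Finset.mem_filter] at hi
    rw [ha2, Finsupp.support_filter, Finset.mem_filter] at hi2
    exact hi2.2 hi.2
  have h1 := h a1 (-a2) hd
  have h2 : a1 + -a2 = u4_tm t a := by
    ext i
    rw [u4_tm_apply, Finsupp.add_apply, Finsupp.neg_apply, ha1, ha2, Finsupp.filter_apply,
      Finsupp.filter_apply]
    rcases ht i with h3 | h3
    · simp [h3]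
    · have h4 : ¬ ((-1 : ℝ) = 1) := by norm_num
      simp [h3, h4]
  have h3 : a1 - -a2 = a := by rw [sub_neg_eq_add, hsum]
  rw [h2, h3] at h1
  rw [one_div, ← div_eq_inv_mul, le_div_iff₀ hε, mul_comm]
  exact h1

private theorem u4_real (w : ℕ → X) {ε : ℝ} (hε : 0 < ε)
    (h : ∀ a b : ℕ →₀ 𝕜, Disjoint a.support b.support →
      ε * ‖vec w (a + b)‖ ≤ ‖vec w (a - b)‖) (a : ℕ →₀ 𝕜) (S : Finset ℕ) :
    ∀ t : ℕ → ℝ, (∀ i, |t i| ≤ 1) → (∀ i, i ∉ S → (t i = 1 ∨ t i = -1)) →
    ‖vec w (u4_tm t a)‖ ≤ (1 / ε) * ‖vec w a‖ := by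
  classical
  induction S using Finset.induction_on with
  | empty =>
    intro t _ ht
    exact u4_sign w hε h t (fun i => ht i (Finset.notMem_empty i)) a
  | insert j S _ ih =>
    intro t ht1 ht2
    have hp := ih (Function.update t j 1) (by
      intro i
      by_cases hi : i = j
      · subst hi; simp
      · rw [Function.update_of_ne hi]; exact ht1 i) (by
      intro i hi
      by_cases hij : i = j
      · subst hij; left; simp
      · rw [Function.update_of_ne hij]
        exact ht2 i (by simp [hij, hi]))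
    have hm := ih (Function.update t j (-1)) (by
      intro i
      by_cases hi : i = j
      · subst hi; simp
      · rw [Function.update_of_ne hi]; exact ht1 i) (by
      intro i hi
      by_cases hij : i = j
      · subst hij; right; simp
      · rw [Function.update_of_ne hij]
        exact ht2 i (by simp [hij, hi]))
    have hj := abs_le.mp (ht1 j)
    have hdec : u4_tm t a = (((1 + t j) / 2 : ℝ) : 𝕜) • u4_tm (Function.update t j 1) a +
        (((1 - t j) / 2 : ℝ) : 𝕜) • u4_tm (Function.update t j (-1)) a := by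
      ext i
      rw [Finsupp.add_apply, Finsupp.smul_apply, Finsupp.smul_apply, u4_tm_apply, u4_tm_apply,
        u4_tm_apply, smul_eq_mul, smul_eq_mul]
      by_cases hi : i = j
      · subst hi
        rw [Function.update_self, Function.update_self]
        push_cast
        ring
      · rw [Function.update_of_ne hi, Function.update_of_ne hi]
        push_cast
        ring
    rw [hdec, vec_add, vec_smul, vec_smul]
    refine (norm_add_le _ _).trans ?_
    rw [norm_smul, norm_smul, RCLike.norm_ofReal, RCLike.norm_ofReal,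
      abs_of_nonneg (by linarith), abs_of_nonneg (by linarith)]
    have e1 := mul_le_mul_of_nonneg_left hp (show (0 : ℝ) ≤ (1 + t j) / 2 by linarith)
    have e2 := mul_le_mul_of_nonneg_left hm (show (0 : ℝ) ≤ (1 - t j) / 2 by linarith)
    calc (1 + t j) / 2 * ‖vec w (u4_tm (Function.update t j 1) a)‖ +
        (1 - t j) / 2 * ‖vec w (u4_tm (Function.update t j (-1)) a)‖
        ≤ (1 + t j) / 2 * ((1 / ε) * ‖vec w a‖) + (1 - t j) / 2 * ((1 / ε) * ‖vec w a‖) :=
          add_le_add e1 e2
      _ = (1 / ε) * ‖vec w a‖ := by ring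

private theorem u4_real' (w : ℕ → X) {ε : ℝ} (hε : 0 < ε)
    (h : ∀ a b : ℕ →₀ 𝕜, Disjoint a.support b.support →
      ε * ‖vec w (a + b)‖ ≤ ‖vec w (a - b)‖) (a : ℕ →₀ 𝕜)
    (t : ℕ → ℝ) (ht : ∀ i, |t i| ≤ 1) :
    ‖vec w (u4_tm t a)‖ ≤ (1 / ε) * ‖vec w a‖ := by
  classical
  have h1 : u4_tm t a = u4_tm (fun i => if i ∈ a.support then t i else 1) a := by
    ext i
    rw [u4_tm_apply, u4_tm_apply]
    by_cases hi : i ∈ a.support
    · rw [if_pos hi]
    · have h0 : a i = 0 := by simpa using hi
      rw [h0, mul_zero, mul_zero]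
  rw [h1]
  refine u4_real w hε h a a.support _ ?_ ?_
  · intro i
    by_cases hi : i ∈ a.support
    · simp only [if_pos hi]; exact ht i
    · simp only [if_neg hi]; simp
  · intro i hi
    left
    simp only [if_neg hi]

theorem unconditional_of_sign (w : ℕ → X) {ε : ℝ} (hε : 0 < ε)
    (h : ∀ a b : ℕ →₀ 𝕜, Disjoint a.support b.support →
      ε * ‖vec w (a + b)‖ ≤ ‖vec w (a - b)‖) :
    Unconditional 𝕜 w := by
  refine ⟨2 * (1 / ε), by positivity, ?_⟩
  intro a b hab
  have hl : ∀ i, ‖b i / a i‖ ≤ 1 := by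
    intro i
    rw [norm_div]
    by_cases h0 : ‖a i‖ = 0
    · rw [h0, div_zero]; exact zero_le_one
    · exact (div_le_one (lt_of_le_of_ne (norm_nonneg _) (Ne.symm h0))).mpr (hab i)
  have hb : b = u4_tm (fun i => RCLike.re (b i / a i)) a +
      (RCLike.I : 𝕜) • u4_tm (fun i => RCLike.im (b i / a i)) a := by
    ext i
    rw [Finsupp.add_apply, Finsupp.smul_apply, u4_tm_apply, u4_tm_apply, smul_eq_mul]
    by_cases h0 : a i = 0
    · have h1 : b i = 0 := by
        have := hab i
        rw [h0, norm_zero] at this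
        exact norm_le_zero_iff.mp this
      rw [h0, h1]; simp
    · have h2 : b i / a i * a i = b i := div_mul_cancel₀ _ h0
      have h3 := RCLike.re_add_im (b i / a i)
      calc b i = b i / a i * a i := h2.symm
        _ = (((RCLike.re (b i / a i) : ℝ) : 𝕜) + ((RCLike.im (b i / a i) : ℝ) : 𝕜) * RCLike.I) *
            a i := by rw [h3]
        _ = _ := by ring
  have hI : ‖(RCLike.I : 𝕜)‖ ≤ 1 := by
    by_cases h0 : (RCLike.I : 𝕜) = 0
    · rw [h0, norm_zero]; exact zero_le_one
    · exact (RCLike.norm_I_of_ne_zero h0).le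
  have h1 := u4_real' w hε h a (fun i => RCLike.re (b i / a i))
    (fun i => (RCLike.abs_re_le_norm _).trans (hl i))
  have h2 := u4_real' w hε h a (fun i => RCLike.im (b i / a i))
    (fun i => (RCLike.abs_im_le_norm _).trans (hl i))
  rw [hb, vec_add, vec_smul]
  refine (norm_add_le _ _).trans ?_
  rw [norm_smul]
  have h3 : ‖(RCLike.I : 𝕜)‖ * ‖vec w (u4_tm (fun i => RCLike.im (b i / a i)) a)‖ ≤
      ‖vec w (u4_tm (fun i => RCLike.im (b i / a i)) a)‖ :=
    mul_le_of_le_one_left (norm_nonneg _) hI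
  linarith

end

end Pool.Agent.EBM
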