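import Pool.Agent.EBM.U5

/-!
MODULE U6 (difficulty 3). Block sequences with coefficients in Q which are equivalent to the basis.
Proof. hmin for c = z gives a block family g with seqOf (seqOf e z) g equivalent to e (constant C); seqOf (seqOf e z) g = seqOf e u'
with u' k = comb z (g k) (seqOf_seqOf), u' is a block family (Block.comb), vec e (u' k) ≠ 0 (he.vec_inj). Q is dense in 𝕜
(it contains the rationals and I). So there is h k : ℕ →₀ 𝕜 with coefficients in Q, support contained in the support of g k,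
h k ≠ 0 and norm (vec e (comb z (h k)) - vec e (u' k)) ≤ (1/(16 K)) * (1/2)^k * norm (vec e (u' k)) (the map h ↦ vec e (comb z h) is continuous on
the finite dimensional space of the vectors with support in the support of g k; approximate each of the finitely many
coefficients; h k ≠ 0 because otherwise the left side would be the norm of vec e (u' k)). h is a block family: in RB Q.
Put u k = comb z (h k): Sb Q u z. By bc_block, bc_coef for u': norm (a k) * norm (vec e (u' k)) ≤ 2 K norm (vec (seqOf e u') a). Hence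
norm (vec (seqOf e u) a - vec (seqOf e u') a) ≤ ∑_k norm (a k) (1/(16K)) (1/2)^k norm (vec e (u' k)) ≤ (1/4) norm (vec (seqOf e u') a)
(finite geometric sum ≤ 2). So (3/4) norm (vec (seqOf e u') a) ≤ norm (vec (seqOf e u) a) ≤ (5/4) norm (vec (seqOf e u') a) and seqOf e u is
equivalent to seqOf e u', hence to e (constant 2 C).
-/

namespace Pool.Agent.EBM

open Finsupp Filter Topology

section
variable {𝕜 : Type*} [RCLike 𝕜] {X : Type*} [NormedAddCommGroup X] [NormedSpace 𝕜 X]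

theorem u6_dense (Q : Subfield 𝕜) (hQI : RCLike.I ∈ Q) (x : 𝕜) {δ : ℝ} (hδ : 0 < δ) :
    ∃ q ∈ Q, ‖q - x‖ ≤ δ := by
  obtain ⟨r1, h1⟩ := exists_rat_near (RCLike.re x) (show (0 : ℝ) < δ / 2 by positivity)
  obtain ⟨r2, h2⟩ := exists_rat_near (RCLike.im x) (show (0 : ℝ) < δ / 2 by positivity)
  refine ⟨(r1 : 𝕜) + (r2 : 𝕜) * RCLike.I, ?_, ?_⟩
  · exact Q.add_mem (SubfieldClass.ratCast_mem Q r1) (Q.mul_mem (SubfieldClass.ratCast_mem Q r2) hQI)
  · have h3 : (r1 : 𝕜) + (r2 : 𝕜) * RCLike.I - x =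
        -(((RCLike.re x - (r1 : ℝ) : ℝ) : 𝕜) + ((RCLike.im x - (r2 : ℝ) : ℝ) : 𝕜) * RCLike.I) := by
      conv_lhs => rw [← RCLike.re_add_im x]
      push_cast
      ring
    rw [h3, norm_neg]
    refine (norm_add_le _ _).trans ?_
    rw [norm_mul, RCLike.norm_ofReal, RCLike.norm_ofReal]
    have hI : ‖(RCLike.I : 𝕜)‖ ≤ 1 := by
      rw [RCLike.norm_I]
      split_ifs <;> norm_num
    have h4 : |RCLike.im x - (r2 : ℝ)| * ‖(RCLike.I : 𝕜)‖ ≤ |RCLike.im x - (r2 : ℝ)| * 1 :=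
      mul_le_mul_of_nonneg_left hI (abs_nonneg _)
    linarith

theorem u6_approx (Q : Subfield 𝕜) (hQI : RCLike.I ∈ Q) (y : ℕ → X) (g : ℕ →₀ 𝕜) {δ : ℝ}
    (hδ : 0 < δ) : ∃ h : ℕ →₀ 𝕜, (∀ i, h i ∈ Q) ∧ h.support ⊆ g.support ∧
      ‖vec y h - vec y g‖ ≤ δ := by
  classical
  have hpos : ∀ i, 0 < δ / ((g.support.card + 1) * (‖y i‖ + 1)) := by
    intro i
    positivity
  choose q hqQ hq using fun i => u6_dense Q hQI (g i) (hpos i)
  obtain ⟨h, hh⟩ : ∃ h : ℕ →₀ 𝕜, ∀ i, h i = if i ∈ g.support then q i else 0 := by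
    refine ⟨Finsupp.onFinset g.support (fun i => if i ∈ g.support then q i else 0) ?_, ?_⟩
    · intro i hi
      by_contra hcon
      rw [if_neg hcon] at hi
      exact hi rfl
    · intro i
      rw [Finsupp.onFinset_apply]
  refine ⟨h, ?_, ?_, ?_⟩
  · intro i
    rw [hh]
    split_ifs
    · exact hqQ i
    · exact Q.zero_mem
  · intro i hi
    rw [Finsupp.mem_support_iff, hh] at hi
    by_contra hcon
    rw [if_neg hcon] at hi
    exact hi rfl
  · rw [← vec_sub, vec_eq_sum]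
    have hsub : (h - g).support ⊆ g.support := by
      intro i hi
      rw [Finsupp.mem_support_iff, Finsupp.sub_apply, hh] at hi
      by_contra hcon
      rw [if_neg hcon, Finsupp.notMem_support_iff.1 hcon, sub_zero] at hi
      exact hi rfl
    have h1 : ∀ i ∈ (h - g).support, ‖(h - g) i • y i‖ ≤ δ / (g.support.card + 1) := by
      intro i hi
      have hi' := hsub hi
      rw [norm_smul, Finsupp.sub_apply, hh, if_pos hi']
      have h2 : ‖q i - g i‖ * ‖y i‖ ≤ δ / ((g.support.card + 1) * (‖y i‖ + 1)) * (‖y i‖ + 1) :=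
        mul_le_mul (hq i) (by linarith) (norm_nonneg _) (hpos i).le
      have h3 : δ / ((g.support.card + 1) * (‖y i‖ + 1)) * (‖y i‖ + 1) =
          δ / (g.support.card + 1) := by
        have h4 : (‖y i‖ + 1) ≠ 0 := by positivity
        field_simp
      rw [h3] at h2
      exact h2
    have hc : (((h - g).support.card : ℕ) : ℝ) ≤ g.support.card := by
      exact_mod_cast Finset.card_le_card hsub
    have hnn : 0 ≤ δ / ((g.support.card : ℝ) + 1) := by positivity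
    calc ‖∑ i ∈ (h - g).support, (h - g) i • y i‖ ≤ ∑ i ∈ (h - g).support, ‖(h - g) i • y i‖ :=
          norm_sum_le _ _
      _ ≤ ∑ _i ∈ (h - g).support, δ / (g.support.card + 1) := Finset.sum_le_sum h1
      _ = ((h - g).support.card : ℝ) * (δ / (g.support.card + 1)) := by
          rw [Finset.sum_const, nsmul_eq_mul]
      _ ≤ ((g.support.card : ℝ) + 1) * (δ / (g.support.card + 1)) :=
          mul_le_mul_of_nonneg_right (by linarith) hnn
      _ = δ := by
          field_simp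

theorem u6_geom (s : Finset ℕ) : ∑ k ∈ s, ((1 : ℝ) / 2) ^ k ≤ 2 := by
  have h1 := Summable.sum_le_tsum (f := fun k : ℕ => ((1 : ℝ) / 2) ^ k) s
    (fun k _ => by positivity) summable_geometric_two
  rw [tsum_geometric_two] at h1
  exact h1

theorem u6_vec_sub (x x' : ℕ → X) (a : ℕ →₀ 𝕜) :
    vec x a - vec x' a = ∑ k ∈ a.support, a k • (x k - x' k) := by
  rw [vec_eq_sum, vec_eq_sum, ← Finset.sum_sub_distrib]
  exact Finset.sum_congr rfl fun k _ => (smul_sub _ _ _).symm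

theorem rational_block {e : ℕ → X} (he : SchauderBasis 𝕜 e) {K : ℝ} (hK : 1 ≤ K)
    (hBC : BC 𝕜 K e) (Q : Subfield 𝕜) (hQI : RCLike.I ∈ Q)
    (hmin : ∀ c : ℕ → (ℕ →₀ 𝕜), Block c → ∃ d : ℕ → (ℕ →₀ 𝕜), Block d ∧
      Equivalent 𝕜 (seqOf (seqOf e c) d) e)
    (z : ℕ → (ℕ →₀ 𝕜)) (hz : RB Q z) :
    ∃ u, Sb Q u z ∧ Equivalent 𝕜 (seqOf e u) e := by
  classical
  obtain ⟨g, hg, C, hC, hCe⟩ := hmin z hz.1
  rw [seqOf_seqOf] at hCe
  obtain ⟨u', hu'⟩ : ∃ u' : ℕ → (ℕ →₀ 𝕜), u' = fun k => comb z (g k) := ⟨_, rfl⟩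
  rw [← hu'] at hCe
  have hub : Block u' := by
    rw [hu']
    exact hz.1.comb hg
  have hK0 : 0 < K := by linarith
  have hne : ∀ k, 0 < ‖vec e (u' k)‖ := by
    intro k
    rw [norm_pos_iff]
    intro h
    exact hub.1 k (he.vec_inj h)
  have hδ : ∀ k : ℕ, 0 < 1 / (16 * K) * (1 / 2) ^ k * ‖vec e (u' k)‖ := by
    intro k
    have := hne k
    positivity
  choose h hhQ hhs hhn using fun k => u6_approx Q hQI (seqOf e z) (g k) (hδ k)
  have hhn' : ∀ k, ‖vec e (comb z (h k)) - vec e (u' k)‖ ≤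
      1 / (16 * K) * (1 / 2) ^ k * ‖vec e (u' k)‖ := by
    intro k
    have h1 := hhn k
    rw [vec_seqOf, vec_seqOf] at h1
    have h2 : u' k = comb z (g k) := by rw [hu']
    rw [h2] at h1 ⊢
    exact h1
  have hh0 : ∀ k, h k ≠ 0 := by
    intro k h0
    have h1 := hhn' k
    rw [h0, comb_zero, vec_zero, zero_sub, norm_neg] at h1
    have h2 : 1 / (16 * K) * (1 / 2) ^ k < 1 := by
      have e1 : 1 / (16 * K) < 1 := by
        rw [div_lt_one (by positivity)]
        linarith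
      have e2 : ((1 : ℝ) / 2) ^ k ≤ 1 := pow_le_one₀ (by norm_num) (by norm_num)
      have e3 : (0 : ℝ) < (1 / 2) ^ k := by positivity
      have e4 : 0 < 1 / (16 * K) := by positivity
      nlinarith
    have h3 := hne k
    nlinarith
  have hhb : Block h := by
    refine ⟨hh0, ?_⟩
    intro k i hi j hj
    exact hg.2 k i (hhs k hi) j (hhs (k + 1) hj)
  refine ⟨fun k => comb z (h k), ⟨h, ⟨hhb, hhQ⟩, rfl⟩, ?_⟩
  obtain ⟨x, hx⟩ : ∃ x : ℕ → X, x = seqOf e (fun k => comb z (h k)) := ⟨_, rfl⟩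
  obtain ⟨x', hx'⟩ : ∃ x' : ℕ → X, x' = seqOf e u' := ⟨_, rfl⟩
  rw [← hx]
  rw [← hx'] at hCe
  have hBC' : BC 𝕜 K x' := by
    rw [hx']
    exact bc_block hBC hub
  have hxk : ∀ k, ‖x k - x' k‖ ≤ 1 / (16 * K) * (1 / 2) ^ k * ‖x' k‖ := by
    intro k
    rw [hx, hx']
    exact hhn' k
  have key : ∀ a : ℕ →₀ 𝕜, ‖vec x a - vec x' a‖ ≤ 1 / 4 * ‖vec x' a‖ := by
    intro a
    rw [u6_vec_sub]
    have h1 : ∀ k ∈ a.support, ‖a k • (x k - x' k)‖ ≤ (1 / 8 * ‖vec x' a‖) * (1 / 2) ^ k := by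
      intro k _
      rw [norm_smul]
      have h2 := bc_coef hBC' a k
      have h3 : ‖a k‖ * ‖x k - x' k‖ ≤ ‖a k‖ * (1 / (16 * K) * (1 / 2) ^ k * ‖x' k‖) :=
        mul_le_mul_of_nonneg_left (hxk k) (norm_nonneg _)
      have h4 : ‖a k‖ * (1 / (16 * K) * (1 / 2) ^ k * ‖x' k‖) =
          1 / (16 * K) * (1 / 2) ^ k * (‖a k‖ * ‖x' k‖) := by ring
      have h5 : 1 / (16 * K) * (1 / 2) ^ k * (‖a k‖ * ‖x' k‖) ≤
          1 / (16 * K) * (1 / 2) ^ k * (2 * K * ‖vec x' a‖) :=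
        mul_le_mul_of_nonneg_left h2 (by positivity)
      have h6 : 1 / (16 * K) * (1 / 2) ^ k * (2 * K * ‖vec x' a‖) =
          (1 / 8 * ‖vec x' a‖) * (1 / 2) ^ k := by
        field_simp
        ring
      linarith
    calc ‖∑ k ∈ a.support, a k • (x k - x' k)‖ ≤ ∑ k ∈ a.support, ‖a k • (x k - x' k)‖ :=
          norm_sum_le _ _
      _ ≤ ∑ k ∈ a.support, (1 / 8 * ‖vec x' a‖) * (1 / 2) ^ k := Finset.sum_le_sum h1
      _ = (1 / 8 * ‖vec x' a‖) * ∑ k ∈ a.support, (1 / 2) ^ k := by rw [Finset.mul_sum]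
      _ ≤ (1 / 8 * ‖vec x' a‖) * 2 := mul_le_mul_of_nonneg_left (u6_geom _) (by positivity)
      _ = 1 / 4 * ‖vec x' a‖ := by ring
  refine ⟨2 * C, by positivity, ?_⟩
  intro a
  have k1 := key a
  have k2 := hCe a
  have t1 : ‖vec x a‖ ≤ ‖vec x a - vec x' a‖ + ‖vec x' a‖ := by
    have := norm_add_le (vec x a - vec x' a) (vec x' a)
    rwa [sub_add_cancel] at this
  have t2 : ‖vec x' a‖ ≤ ‖vec x a - vec x' a‖ + ‖vec x a‖ := by
    have := norm_add_le (vec x' a - vec x a) (vec x a)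
    rw [sub_add_cancel, norm_sub_rev] at this
    exact this
  have n1 := norm_nonneg (vec x a)
  have n2 := norm_nonneg (vec x' a)
  have n3 := norm_nonneg (vec e a)
  constructor
  · have e1 : ‖vec x a‖ ≤ 5 / 4 * ‖vec x' a‖ := by linarith
    have e2 : 5 / 4 * ‖vec x' a‖ ≤ 5 / 4 * (C * ‖vec e a‖) := by linarith [k2.1]
    have e3 : 0 ≤ C * ‖vec e a‖ := by positivity
    linarith
  · have e1 : ‖vec x' a‖ ≤ 4 / 3 * ‖vec x a‖ := by linarith
    have e2 : C * ‖vec x' a‖ ≤ C * (4 / 3 * ‖vec x a‖) := mul_le_mul_of_nonneg_left e1 hC.le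
    have e3 : 0 ≤ C * ‖vec x a‖ := by positivity
    linarith [k2.2]

end

end Pool.Agent.EBM
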