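import Pool.Agent.EBM.U2
import Pool.Agent.EBM.U3
import Pool.Agent.EBM.U4
import Pool.Agent.EBM.U6

/-!
MODULE U7 (difficulty 2). Without unconditional block sequences all pairs of block sequences have a small angle.
Proof. CLAIM: for ε > 0 and z in RB Q there is z' with Sb z' z and Bad ε ⊥ ⊥ z'. Take z1 from decided (Sb z1 z); if
there is z' with Sb z' z1 and Bad z' we are done (sb_trans). Otherwise Good ⊥ ⊥ z1 and maurey gives w in RB Q with the sign inequality,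
so seqOf e w is unconditional (unconditional_of_sign), contradicting hno.
Let z_0 k = single k 1 (in RB Q) and z_(n+1) from the CLAIM with ε = 1/(n+1) and z = z_n. By diag for w i = z_i i:
Sb (tl w (n+1)) (z_(n+1)), so Bad (1/(n+1)) ⊥ ⊥ w for all n (bad_mono); Sb w z_0 (m = 0), w in RB Q (sb_rb). By
rational_block there is u0 with Sb u0 w and seqOf e u0 equivalent to e with constant C. Let u, v in RB Q and ε > 0. Put u' k = comb u0 (u k),
v' k = comb u0 (v k): Sb u' u0, Sb v' u0 by definition, hence Sb u' w, Sb v' w. Choose n with C * C / (n+1) < ε. Bad gives x' in ⊥ ⊔ sp u' = sp u',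
y' in sp v' with norm (vec e (x' - y')) < 1/(n+1) norm (vec e (x' + y')). x' = comb u0 x with x in sp u (linear combinations;
Submodule.map of sp u under the linear map comb u0), the same for y'. vec e (comb u0 a) = vec (seqOf e u0) a, so by the equivalence
norm (vec e (x - y)) ≤ C norm (vec e (x' - y')) < C/(n+1) norm (vec e (x' + y')) ≤ C C/(n+1) norm (vec e (x + y)) ≤ ε norm (vec e (x + y)).
-/

namespace Pool.Agent.EBM

open Finsupp Filter Topology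

section
variable {𝕜 : Type*} [RCLike 𝕜] {X : Type*} [NormedAddCommGroup X] [NormedSpace 𝕜 X]

theorem hi_all {e : ℕ → X} (he : SchauderBasis 𝕜 e) {K : ℝ} (hK : 1 ≤ K)
    (hBC : BC 𝕜 K e) (Q : Subfield 𝕜) (hQc : Countable Q) (hQI : RCLike.I ∈ Q)
    (hmin : ∀ c : ℕ → (ℕ →₀ 𝕜), Block c → ∃ d : ℕ → (ℕ →₀ 𝕜), Block d ∧
      Equivalent 𝕜 (seqOf (seqOf e c) d) e)
    (hno : ∀ c : ℕ → (ℕ →₀ 𝕜), Block c → ¬ Unconditional 𝕜 (seqOf e c))
    {ε : ℝ} (hε : 0 < ε) (u v : ℕ → (ℕ →₀ 𝕜)) (hu : RB Q u) (hv : RB Q v) :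
    ∃ x ∈ sp u, ∃ y ∈ sp v, ‖vec e (x - y)‖ < ε * ‖vec e (x + y)‖ := by
  classical
  have claim : ∀ δ : ℝ, 0 < δ → ∀ z : ℕ → (ℕ →₀ 𝕜), RB Q z →
      ∃ z', Sb Q z' z ∧ Bad e Q δ ⊥ ⊥ z' := by
    intro δ hδ z hz
    obtain ⟨z1, hz1, hdec⟩ := decided e Q hQc δ z
    by_cases hb : ∃ z', Sb Q z' z1 ∧ Bad e Q δ ⊥ ⊥ z'
    · obtain ⟨z', h1, h2⟩ := hb
      exact ⟨z', sb_trans h1 hz1, h2⟩
    · exfalso
      have hgood : Good e Q δ ⊥ ⊥ z1 := fun z' h1 h2 => hb ⟨z', h1, h2⟩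
      obtain ⟨w, hw, hs⟩ := maurey e Q δ z1 (sb_rb hz1 hz) hdec hgood
      exact hno w hw.1 (unconditional_of_sign (seqOf e w) hδ hs)
  have step : ∀ (n : ℕ) (z : {z : ℕ → (ℕ →₀ 𝕜) // RB Q z}),
      ∃ z' : {z : ℕ → (ℕ →₀ 𝕜) // RB Q z}, Sb Q z'.1 z.1 ∧
        Bad e Q (1 / ((n : ℝ) + 1)) ⊥ ⊥ z'.1 := by
    intro n z
    obtain ⟨z', h1, h2⟩ := claim (1 / ((n : ℝ) + 1)) (by positivity) z.1 z.2
    exact ⟨⟨z', sb_rb h1 z.2⟩, h1, h2⟩
  choose nx hnx1 hnx2 using step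
  have hz0 : RB Q (fun k => (single k (1 : 𝕜) : ℕ →₀ 𝕜)) := by
    refine ⟨⟨fun k => ?_, fun k i hi j hj => ?_⟩, fun k i => ?_⟩
    · simp
    · rw [Finsupp.support_single_ne_zero _ one_ne_zero, Finset.mem_singleton] at hi hj
      omega
    · rw [Finsupp.single_apply]
      split_ifs
      · exact Q.one_mem
      · exact Q.zero_mem
  let zs : ℕ → {z : ℕ → (ℕ →₀ 𝕜) // RB Q z} := fun n => Nat.rec ⟨_, hz0⟩ (fun n z => nx n z) n
  have hzs : ∀ n, zs (n + 1) = nx n (zs n) := fun n => rfl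
  let w : ℕ → (ℕ →₀ 𝕜) := fun i => (zs i).1 i
  have hd : ∀ m, Sb Q (tl w m) (zs m).1 := fun m =>
    diag (fun i => (zs i).1) (fun i => by
      show Sb Q (zs (i + 1)).1 (zs i).1
      rw [hzs]; exact hnx1 i (zs i)) m
  have hbad : ∀ n : ℕ, Bad e Q (1 / ((n : ℝ) + 1)) ⊥ ⊥ w := fun n =>
    bad_mono (n + 1) (hd (n + 1)) (hnx2 n (zs n))
  have hw : RB Q w := by
    have h0 := hd 0
    have h1 : tl w 0 = w := by funext k; simp [tl]
    rw [h1] at h0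
    exact sb_rb h0 (zs 0).2
  obtain ⟨u0, hu0, C, hC, hCe⟩ := rational_block he hK hBC Q hQI hmin w hw
  obtain ⟨n, hn⟩ := exists_nat_gt (C * C / ε)
  have hnn : C * C / ((n : ℝ) + 1) < ε := by
    rw [div_lt_iff₀ hε] at hn
    rw [div_lt_iff₀ (by positivity)]
    nlinarith
  obtain ⟨x', hx', y', hy', hxy⟩ := hbad n (fun k => comb u0 (u k)) (fun k => comb u0 (v k))
    (sb_trans ⟨u, hu, rfl⟩ hu0) (sb_trans ⟨v, hv, rfl⟩ hu0)
  rw [bot_sup_eq] at hx' hy'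
  have key : ∀ g : ℕ → (ℕ →₀ 𝕜), ∀ t ∈ sp (fun k => comb u0 (g k)), ∃ s ∈ sp g,
      comb u0 s = t := by
    intro g t ht
    have h1 : sp (fun k => comb u0 (g k)) =
        (sp g).map (Finsupp.linearCombination 𝕜 u0) := by
      unfold sp
      rw [Submodule.map_span, ← Set.range_comp]
      rfl
    rw [h1] at ht
    obtain ⟨s, hs, h⟩ := ht
    exact ⟨s, hs, h⟩
  obtain ⟨x, hx, rfl⟩ := key u x' hx'
  obtain ⟨y, hy, rfl⟩ := key v y' hy'
  refine ⟨x, hx, y, hy, ?_⟩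
  have e1 : vec e (comb u0 x - comb u0 y) = vec (seqOf e u0) (x - y) := by
    rw [vec_seqOf]
    congr 1
    exact (map_sub (Finsupp.linearCombination 𝕜 u0) x y).symm
  have e2 : vec e (comb u0 x + comb u0 y) = vec (seqOf e u0) (x + y) := by
    rw [vec_seqOf]
    congr 1
    exact (map_add (Finsupp.linearCombination 𝕜 u0) x y).symm
  rw [e1, e2] at hxy
  have h1 := (hCe (x - y)).2
  have h2 := (hCe (x + y)).1
  have h3 : (0 : ℝ) < 1 / ((n : ℝ) + 1) := by positivity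
  calc ‖vec e (x - y)‖ ≤ C * ‖vec (seqOf e u0) (x - y)‖ := h1
    _ < C * (1 / ((n : ℝ) + 1) * ‖vec (seqOf e u0) (x + y)‖) := mul_lt_mul_of_pos_left hxy hC
    _ ≤ C * (1 / ((n : ℝ) + 1) * (C * ‖vec e (x + y)‖)) :=
        mul_le_mul_of_nonneg_left (mul_le_mul_of_nonneg_left h2 h3.le) hC.le
    _ = C * C / ((n : ℝ) + 1) * ‖vec e (x + y)‖ := by ring
    _ ≤ ε * ‖vec e (x + y)‖ := mul_le_mul_of_nonneg_right hnn.le (norm_nonneg _)

end

end Pool.Agent.EBM
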