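import Mathlib

/-!
MODULE U8 (difficulty 3). Pure functional analysis (bounded operators on a Banach space).
LEMMA. If A is bounded below (c * norm x ≤ norm (A x), c > 0) and B is a unit with norm (A - B) < c / 2 then A is a unit. Proof: norm (B x) ≥ (c/2) norm x,
so the inverse of B has norm ≤ 2/c, and A = B (1 + B⁻¹ (A - B)) with norm (B⁻¹ (A - B)) < 1 (Units.oneSub / isUnit_of... /
Units.add lemma of Mathlib.Analysis.Normed.Ring.Units: Units.ofNearby; B⁻¹ as an operator: norm estimate from norm (B (B⁻¹ x)) = norm x).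
THEOREM. Suppose that for all s > 0 there is δ > 0 with norm (x + s T x) ≥ δ norm x for all x. Let S be the set of the
s ≥ 0 for which 1 + s T is a unit in Y →L[𝕜] Y. 0 is in S; S is open in [0, ∞) (Units.isOpen, continuity of s ↦ 1 + s T)
and closed in [0, ∞) by the LEMMA (at the limit point 1 + s T is bounded below). So S = [0, ∞) (isPreconnected_Ici, or the supremum argument).
For s > 0: T + (1/s) 1 = (1/s) (1 + s T) is a unit; for s large norm (T - (T + (1/s) 1)) = 1/s (or ≤ 1/s) < c/2, so T is a unit by the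
LEMMA, hence surjective: a contradiction.
-/

namespace Pool.Agent.EBM

theorem u8_near {𝕜 : Type*} [RCLike 𝕜] {Y : Type*} [NormedAddCommGroup Y]
    [NormedSpace 𝕜 Y] [CompleteSpace Y] (A B : Y →L[𝕜] Y) {c : ℝ} (hc : 0 < c)
    (hA : ∀ x, c * ‖x‖ ≤ ‖A x‖) (hB : IsUnit B) (h : ‖A - B‖ < c / 2) : IsUnit A := by
  obtain ⟨u, rfl⟩ := hB
  by_cases h0 : ‖(↑u⁻¹ : Y →L[𝕜] Y)‖ = 0
  · have h1 : (↑u⁻¹ : Y →L[𝕜] Y) = 0 := norm_eq_zero.mp h0
    have h2 : (1 : Y →L[𝕜] Y) = 0 := by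
      have := u.mul_inv
      rw [h1, mul_zero] at this
      exact this.symm
    have h3 : A = 1 := by
      have e : A = A * 1 := (mul_one A).symm
      rw [e, h2, mul_zero]
    rw [h3]
    exact isUnit_one
  · have hpos : 0 < ‖(↑u⁻¹ : Y →L[𝕜] Y)‖ := lt_of_le_of_ne (norm_nonneg _) (Ne.symm h0)
    have hle : ‖(↑u⁻¹ : Y →L[𝕜] Y)‖ ≤ 2 / c := by
      refine ContinuousLinearMap.opNorm_le_bound _ (by positivity) ?_
      intro y
      have e1 : (u : Y →L[𝕜] Y) ((↑u⁻¹ : Y →L[𝕜] Y) y) = y := by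
        exact congrArg (fun T : Y →L[𝕜] Y => T y) u.mul_inv
      set x := (↑u⁻¹ : Y →L[𝕜] Y) y with hx
      have e2 : ‖(A - (u : Y →L[𝕜] Y)) x‖ ≤ ‖A - (u : Y →L[𝕜] Y)‖ * ‖x‖ := ContinuousLinearMap.le_opNorm _ _
      have e3 : A x = (A - (u : Y →L[𝕜] Y)) x + y := by
        rw [sub_apply, e1]; abel
      have e4 : ‖A x‖ ≤ ‖(A - (u : Y →L[𝕜] Y)) x‖ + ‖y‖ := by
        rw [e3]; exact norm_add_le _ _
      have e5 := hA x
      have e6 : ‖A - (u : Y →L[𝕜] Y)‖ * ‖x‖ ≤ c / 2 * ‖x‖ :=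
        mul_le_mul_of_nonneg_right h.le (norm_nonneg _)
      have e7 : c / 2 * ‖x‖ ≤ ‖y‖ := by nlinarith
      rw [div_mul_eq_mul_div, le_div_iff₀ hc]
      nlinarith
    have hinv : ‖A - (u : Y →L[𝕜] Y)‖ < ‖(↑u⁻¹ : Y →L[𝕜] Y)‖⁻¹ := by
      refine lt_of_lt_of_le h ?_
      rw [show c / 2 = (2 / c)⁻¹ by rw [inv_div]]
      exact inv_anti₀ hpos hle
    exact ⟨u.ofNearby A hinv, rfl⟩

theorem exists_singular {𝕜 : Type*} [RCLike 𝕜] {Y : Type*} [NormedAddCommGroup Y]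
    [NormedSpace 𝕜 Y] [CompleteSpace Y] (T : Y →L[𝕜] Y) {c : ℝ} (hc : 0 < c)
    (hT : ∀ x, c * ‖x‖ ≤ ‖T x‖) (hns : ¬ Function.Surjective T) :
    ∃ s : ℝ, 0 < s ∧ ∀ δ > 0, ∃ x, ‖x + (s : 𝕜) • T x‖ < δ * ‖x‖ := by
  by_contra hcon
  have hb : ∀ s : ℝ, 0 < s → ∃ δ > 0, ∀ x, δ * ‖x‖ ≤ ‖x + (s : 𝕜) • T x‖ := by
    intro s hs
    by_contra h1
    apply hcon
    refine ⟨s, hs, fun δ hδ => ?_⟩
    by_contra h2
    apply h1
    refine ⟨δ, hδ, fun x => ?_⟩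
    by_contra h3
    exact h2 ⟨x, not_le.mp h3⟩
  have hfc : Continuous (fun s : ℝ => (1 : Y →L[𝕜] Y) + (s : 𝕜) • T) := by
    have h1 : Continuous (fun s : ℝ => (s : 𝕜)) := RCLike.continuous_ofReal
    exact continuous_const.add (h1.smul continuous_const)
  have hVo : IsOpen {s : ℝ | IsUnit ((1 : Y →L[𝕜] Y) + (s : 𝕜) • T)} := by
    exact Units.isOpen.preimage hfc
  have h0V : (0 : ℝ) ∈ {s : ℝ | IsUnit ((1 : Y →L[𝕜] Y) + (s : 𝕜) • T)} := by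
    change IsUnit _
    have : (1 : Y →L[𝕜] Y) + ((0 : ℝ) : 𝕜) • T = 1 := by
      rw [RCLike.ofReal_zero, zero_smul, add_zero]
    rw [this]
    exact isUnit_one
  have hsub : Set.Ici (0 : ℝ) ⊆ {s : ℝ | IsUnit ((1 : Y →L[𝕜] Y) + (s : 𝕜) • T)} := by
    refine isPreconnected_Ici.subset_of_closure_inter_subset hVo ⟨0, Set.self_mem_Ici, h0V⟩ ?_
    rintro s ⟨hs1, hs2⟩
    rcases eq_or_lt_of_le (Set.mem_Ici.mp hs2) with h | h
    · rw [← h]; exact h0V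
    · obtain ⟨δ, hδ, hx⟩ := hb s h
      rw [Metric.mem_closure_iff] at hs1
      have hcs := Metric.continuous_iff.mp hfc s (δ / 2) (by positivity)
      obtain ⟨η, hη, hη2⟩ := hcs
      obtain ⟨t, ht1, ht2⟩ := hs1 η hη
      have h3 := hη2 t (by rw [dist_comm]; exact ht2)
      change IsUnit ((1 : Y →L[𝕜] Y) + (s : 𝕜) • T)
      refine u8_near _ ((1 : Y →L[𝕜] Y) + (t : 𝕜) • T) hδ ?_ ht1 ?_
      · intro x
        have := hx x
        simpa using this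
      · rw [← dist_eq_norm, dist_comm]; exact h3
  have hs0 : (0 : ℝ) < 4 / c := by positivity
  have hu := hsub (Set.mem_Ici.mpr hs0.le)
  change IsUnit ((1 : Y →L[𝕜] Y) + ((4 / c : ℝ) : 𝕜) • T) at hu
  have hne : ((4 / c : ℝ) : 𝕜) ≠ 0 := by
    rw [RCLike.ofReal_ne_zero]; exact hs0.ne'
  have hu2 : IsUnit (T + (((4 / c : ℝ) : 𝕜))⁻¹ • (1 : Y →L[𝕜] Y)) := by
    have e : T + (((4 / c : ℝ) : 𝕜))⁻¹ • (1 : Y →L[𝕜] Y) =
        (((4 / c : ℝ) : 𝕜))⁻¹ • ((1 : Y →L[𝕜] Y) + ((4 / c : ℝ) : 𝕜) • T) := by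
      rw [smul_add, smul_smul, inv_mul_cancel₀ hne, one_smul, add_comm]
    rw [e]
    have h1 : IsUnit (((4 / c : ℝ) : 𝕜))⁻¹ := IsUnit.mk0 _ (inv_ne_zero hne)
    obtain ⟨v, hv⟩ := h1
    obtain ⟨w, hw⟩ := hu
    rw [← hv, ← hw]
    exact ⟨v • w, by rw [Units.val_smul]; rfl⟩
  have hTu : IsUnit T := by
    refine u8_near T _ hc hT hu2 ?_
    have e : T - (T + (((4 / c : ℝ) : 𝕜))⁻¹ • (1 : Y →L[𝕜] Y)) = -((((4 / c : ℝ) : 𝕜))⁻¹ • (1 : Y →L[𝕜] Y)) := by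
      abel
    rw [e, norm_neg, norm_smul, norm_inv, RCLike.norm_ofReal, abs_of_pos hs0, inv_div]
    have h1 : ‖(1 : Y →L[𝕜] Y)‖ ≤ 1 := by
      refine ContinuousLinearMap.opNorm_le_bound _ zero_le_one ?_
      intro x
      simp
    calc c / 4 * ‖(1 : Y →L[𝕜] Y)‖ ≤ c / 4 * 1 := by gcongr
      _ < c / 2 := by linarith
  obtain ⟨u, hu3⟩ := hTu
  apply hns
  intro y
  refine ⟨(↑u⁻¹ : Y →L[𝕜] Y) y, ?_⟩
  rw [← hu3]
  exact congrArg (fun T : Y →L[𝕜] Y => T y) u.mul_inv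

end Pool.Agent.EBM
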