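import Pool.Agent.EBM.U5

/-!
MODULE U9 (difficulty 3). From singular to singular on all tails.
Let A x = x + σ • T x. (1) A is injective: let A x = 0, x ≠ 0; some coordinate of x is nonzero (otherwise x = 0 by the expansion);
let k be the least index with b.coord k x ≠ 0. Then coord k (T x) = 0: x = lim of the b.proj m x, which are finite combinations of the b i, i ≥ k,
so coord k (T (proj m x)) = ∑ coord i x * coord k (T (b i)) = 0, as T (b i) = vec b d with Above d (i+1), i + 1 > k, and
coord k is continuous. So 0 = coord k (A x) = coord k x + σ * 0: contradiction.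
(2) Suppose that for some n and δ > 0: δ * norm (vec b x) ≤ norm (A (vec b x)) for all x with Above x n. Let Y be the set of the y
with coord i y = 0 for i < n. For y in Y: y = lim b.proj m y and b.proj m y = vec b x with Above x n, so δ norm y ≤ norm (A y)
for y in Y. By hs choose x_j with norm (A x_j) < (1/(j+1)) norm x_j; normalise: norm x_j = 1 (scale by the inverse of the norm). f_j = b.proj n x_j is a
bounded sequence in the finite dimensional range of b.proj n, so a subsequence converges to some f (the coordinates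
coord i x_j, i < n, are bounded scalars; or use FiniteDimensional.proper on the span / tendsto_subseq_of_bounded). y_j = x_j - f_j is in Y,
A y_j = A x_j - A f_j converges (along the subsequence) to - A f, so it is Cauchy, and δ norm (y_i - y_j) ≤ norm (A y_i - A y_j) shows that y_j is Cauchy:
y_j → y. Then x_j → f + y =: x, norm x = 1, A x = 0, contradicting (1).
-/

namespace Pool.Agent.EBM

open Finsupp Filter Topology

section
variable {𝕜 : Type*} [RCLike 𝕜] {X : Type*} [NormedAddCommGroup X] [NormedSpace 𝕜 X]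

theorem u9_coord_vec (b : _root_.SchauderBasis 𝕜 X) (d : ℕ →₀ 𝕜) (i : ℕ) :
    b.coord i (vec b.basis d) = d i := by
  classical
  rw [vec_eq_sum, map_sum]
  simp only [map_smul, b.ortho, Pi.single_apply, smul_eq_mul, mul_ite, mul_one, mul_zero]
  by_cases h : i ∈ d.support
  · rw [Finset.sum_ite_eq]
    simp [h]
  · rw [Finset.sum_ite_eq]
    simp only [h, if_false]
    simpa using (Finsupp.notMem_support_iff.mp h).symm

theorem u9_coord_T (b : _root_.SchauderBasis 𝕜 X) (T : X →L[𝕜] X)
    (hT : ∀ k, ∃ d : ℕ →₀ 𝕜, Above d (k + 1) ∧ T (b.basis k) = vec b.basis d)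
    {i k : ℕ} (hik : i ≤ k) : b.coord i (T (b.basis k)) = 0 := by
  obtain ⟨d, hd, h⟩ := hT k
  rw [h, u9_coord_vec]
  by_contra hne
  have := hd i (Finsupp.mem_support_iff.mpr hne)
  omega

theorem u9_coord_T2 (b : _root_.SchauderBasis 𝕜 X) (T : X →L[𝕜] X)
    (hT : ∀ k, ∃ d : ℕ →₀ 𝕜, Above d (k + 1) ∧ T (b.basis k) = vec b.basis d)
    (x : X) (k : ℕ) (hx : ∀ i < k, b.coord i x = 0) : b.coord k (T x) = 0 := by
  have h1 : Tendsto (fun m => b.coord k (T (_root_.SchauderBasis.proj b m x))) atTop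
      (𝓝 (b.coord k (T x))) :=
    ((b.coord k).continuous.comp T.continuous).tendsto _ |>.comp
      (_root_.SchauderBasis.tendsto_proj b x)
  have h2 : ∀ m, b.coord k (T (_root_.SchauderBasis.proj b m x)) = 0 := by
    intro m
    rw [_root_.SchauderBasis.proj_apply, map_sum, map_sum]
    apply Finset.sum_eq_zero
    intro i _
    rw [map_smul, map_smul]
    by_cases hi : i < k
    · rw [hx i hi, zero_smul]
    · rw [u9_coord_T b T hT (by omega), smul_zero]
  simp only [h2] at h1
  exact (tendsto_nhds_unique h1 tendsto_const_nhds)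

theorem u9_eq_zero (b : _root_.SchauderBasis 𝕜 X) (x : X) (h : ∀ i, b.coord i x = 0) :
    x = 0 := by
  have h1 := _root_.SchauderBasis.tendsto_proj b x
  have h2 : ∀ m, _root_.SchauderBasis.proj b m x = 0 := by
    intro m
    rw [_root_.SchauderBasis.proj_apply]
    apply Finset.sum_eq_zero
    intro i _
    rw [h i, zero_smul]
  simp only [h2] at h1
  exact (tendsto_nhds_unique h1 tendsto_const_nhds)

theorem u9_inj (b : _root_.SchauderBasis 𝕜 X) (T : X →L[𝕜] X)
    (hT : ∀ k, ∃ d : ℕ →₀ 𝕜, Above d (k + 1) ∧ T (b.basis k) = vec b.basis d) (σ : 𝕜)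
    (x : X) (hx : x + σ • T x = 0) : x = 0 := by
  apply u9_eq_zero b
  intro k
  induction k using Nat.strong_induction_on with
  | _ k ih =>
    have h1 := u9_coord_T2 b T hT x k ih
    have h2 : b.coord k (x + σ • T x) = 0 := by rw [hx, map_zero]
    rw [map_add, map_smul, h1, smul_zero, add_zero] at h2
    exact h2

theorem u9_coord_proj (b : _root_.SchauderBasis 𝕜 X) (n i : ℕ) (hi : i < n) (x : X) :
    b.coord i (_root_.SchauderBasis.proj b n x) = b.coord i x := by
  classical
  rw [_root_.SchauderBasis.proj_apply, map_sum]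
  simp only [map_smul, b.ortho, Pi.single_apply, smul_eq_mul, mul_ite, mul_one, mul_zero]
  rw [Finset.sum_ite_eq]
  simp [hi]

/-- The coefficients of the projection. -/
theorem u9_proj_vec (b : _root_.SchauderBasis 𝕜 X) (n m : ℕ) (y : X)
    (hy : ∀ i < n, b.coord i y = 0) :
    ∃ x : ℕ →₀ 𝕜, Above x n ∧ vec b.basis x = _root_.SchauderBasis.proj b m y := by
  classical
  refine ⟨∑ i ∈ Finset.range m, single i (b.coord i y), ?_, ?_⟩
  · intro i hi
    by_contra hlt
    rw [Finsupp.mem_support_iff, Finsupp.finset_sum_apply] at hi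
    apply hi
    apply Finset.sum_eq_zero
    intro j _
    rw [Finsupp.single_apply]
    split_ifs with hji
    · rw [hji]; exact hy i (by omega)
    · rfl
  · rw [_root_.SchauderBasis.proj_apply]
    unfold vec
    rw [map_sum]
    apply Finset.sum_congr rfl
    intro i _
    rw [Finsupp.linearCombination_single]

theorem singular_tails [CompleteSpace X] (b : _root_.SchauderBasis 𝕜 X) (T : X →L[𝕜] X)
    (hT : ∀ k, ∃ d : ℕ →₀ 𝕜, Above d (k + 1) ∧ T (b.basis k) = vec b.basis d) (σ : 𝕜)
    (hs : ∀ δ > 0, ∃ x : X, ‖x + σ • T x‖ < δ * ‖x‖) (n : ℕ) {δ : ℝ} (hδ : 0 < δ) :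
    ∃ x : ℕ →₀ 𝕜, Above x n ∧
      ‖vec b.basis x + σ • T (vec b.basis x)‖ < δ * ‖vec b.basis x‖ := by
  classical
  by_contra hcon
  push Not at hcon
  set A : X →L[𝕜] X := ContinuousLinearMap.id 𝕜 X + σ • T with hA
  have hAx : ∀ x, A x = x + σ • T x := fun x => by simp [hA]
  -- lower bound on the tail
  have hY : ∀ y : X, (∀ i < n, b.coord i y = 0) → δ * ‖y‖ ≤ ‖A y‖ := by
    intro y hy
    have h1 := _root_.SchauderBasis.tendsto_proj b y
    have h2 : Tendsto (fun m => δ * ‖_root_.SchauderBasis.proj b m y‖) atTop (𝓝 (δ * ‖y‖)) :=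
      (h1.norm).const_mul δ
    have h3 : Tendsto (fun m => ‖A (_root_.SchauderBasis.proj b m y)‖) atTop (𝓝 ‖A y‖) :=
      ((A.continuous.tendsto y).comp h1).norm
    refine le_of_tendsto_of_tendsto' h2 h3 (fun m => ?_)
    obtain ⟨x, hx, hv⟩ := u9_proj_vec b n m y hy
    have h4 := hcon x hx
    rw [hv] at h4
    rw [hAx]
    exact h4
  -- normalised almost kernel vectors
  have hx : ∀ j : ℕ, ∃ x : X, ‖x‖ = 1 ∧ ‖A x‖ ≤ 1 / ((j : ℝ) + 1) := by
    intro j
    obtain ⟨x, hx⟩ := hs (1 / ((j : ℝ) + 1)) (by positivity)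
    have hx0 : x ≠ 0 := by
      rintro rfl
      simp at hx
    have hn : 0 < ‖x‖ := norm_pos_iff.mpr hx0
    refine ⟨((‖x‖⁻¹ : ℝ) : 𝕜) • x, ?_, ?_⟩
    · rw [norm_smul, RCLike.norm_ofReal, abs_of_pos (inv_pos.mpr hn), inv_mul_cancel₀ hn.ne']
    · rw [map_smul, norm_smul, RCLike.norm_ofReal, abs_of_pos (inv_pos.mpr hn), hAx,
        inv_mul_le_iff₀ hn, mul_comm]
      exact hx.le
  choose x hx1 hx2 using hx
  -- the finite dimensional parts
  set P : X →L[𝕜] X := _root_.SchauderBasis.proj b n with hP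
  have hfd : FiniteDimensional 𝕜 P.toLinearMap.range := by
    rw [hP, _root_.SchauderBasis.range_proj_eq_span]
    exact FiniteDimensional.span_of_finite 𝕜 ((Finset.finite_toSet _).image _)
  haveI : ProperSpace P.toLinearMap.range := FiniteDimensional.proper 𝕜 _
  let f : ℕ → P.toLinearMap.range := fun j => ⟨P (x j), ⟨x j, rfl⟩⟩
  have hfb : ∀ j, f j ∈ Metric.closedBall (0 : P.toLinearMap.range) ‖P‖ := by
    intro j
    rw [mem_closedBall_zero_iff]
    show ‖P (x j)‖ ≤ ‖P‖
    calc ‖P (x j)‖ ≤ ‖P‖ * ‖x j‖ := P.le_opNorm _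
      _ = ‖P‖ := by rw [hx1, mul_one]
  obtain ⟨f0, _, φ, hφ, hlim⟩ := tendsto_subseq_of_bounded Metric.isBounded_closedBall hfb
  have hlim2 : Tendsto (fun j => P (x (φ j))) atTop (𝓝 (f0 : X)) :=
    (continuous_subtype_val.tendsto f0).comp hlim
  have hAx0 : Tendsto (fun j => A (x j)) atTop (𝓝 0) := by
    rw [tendsto_zero_iff_norm_tendsto_zero]
    exact squeeze_zero (fun j => norm_nonneg _) hx2 tendsto_one_div_add_atTop_nhds_zero_nat
  have hAx1 : Tendsto (fun j => A (x (φ j))) atTop (𝓝 0) := hAx0.comp hφ.tendsto_atTop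
  let y : ℕ → X := fun j => x (φ j) - P (x (φ j))
  have hyY : ∀ j, ∀ i < n, b.coord i (y j) = 0 := by
    intro j i hi
    show b.coord i (x (φ j) - P (x (φ j))) = 0
    rw [map_sub, hP, u9_coord_proj b n i hi, sub_self]
  have hAy : Tendsto (fun j => A (y j)) atTop (𝓝 (0 - A (f0 : X))) := by
    have h1 : ∀ j, A (y j) = A (x (φ j)) - A (P (x (φ j))) := fun j => map_sub _ _ _
    simp only [h1]
    exact hAx1.sub ((A.continuous.tendsto _).comp hlim2)
  have hyc : CauchySeq y := by
    have h1 := hAy.cauchySeq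
    rw [Metric.cauchySeq_iff] at h1 ⊢
    intro ε hε
    obtain ⟨N, hN⟩ := h1 (δ * ε) (by positivity)
    refine ⟨N, fun i hi j hj => ?_⟩
    have h2 := hN i hi j hj
    rw [dist_eq_norm] at h2 ⊢
    have h3 := hY (y i - y j) (fun l hl => by rw [map_sub, hyY i l hl, hyY j l hl, sub_self])
    rw [map_sub] at h3
    have h4 : δ * ‖y i - y j‖ < δ * ε := lt_of_le_of_lt h3 h2
    exact lt_of_mul_lt_mul_left h4 hδ.le
  obtain ⟨y0, hy0⟩ := cauchySeq_tendsto_of_complete hyc
  have hxl : Tendsto (fun j => x (φ j)) atTop (𝓝 (y0 + f0)) := by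
    have h1 : ∀ j, x (φ j) = y j + P (x (φ j)) := fun j => by
      show x (φ j) = x (φ j) - P (x (φ j)) + P (x (φ j))
      rw [sub_add_cancel]
    have h2 : Tendsto (fun j => y j + P (x (φ j))) atTop (𝓝 (y0 + f0)) := hy0.add hlim2
    exact h2.congr (fun j => (h1 j).symm)
  have hn1 : ‖y0 + (f0 : X)‖ = 1 := by
    have h1 := hxl.norm
    simp only [hx1] at h1
    exact tendsto_nhds_unique h1 tendsto_const_nhds |>.symm ▸ rfl
  have hA0 : A (y0 + f0) = 0 :=
    tendsto_nhds_unique ((A.continuous.tendsto _).comp hxl) hAx1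
  rw [hAx] at hA0
  have h0 := u9_inj b T hT σ _ hA0
  rw [h0, norm_zero] at hn1
  exact zero_ne_one hn1

end

end Pool.Agent.EBM
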