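import Pool.Agent.EBM.U5

/-!
MODULE UA (difficulty 3). The contradiction.
STEP 1. For σ in 𝕜 with the property h: ∀ n, ∀ δ > 0, ∃ x, Above x n ∧ norm (vec e x + σ • T (vec e x)) < δ * norm (vec e x), and η > 0 there is u in RB Q with
 (*) norm (vec e x + σ • T (vec e x)) ≤ η * norm (vec e x) for all x in sp u.
Proof: choose u i with coefficients in Q, nonzero (vec e (u i) ≠ 0), successive supports, and
norm (vec e (u i) + σ • T (vec e (u i))) ≤ η / (8 K) * (1/2)^i * norm (vec e (u i)): take x from h with n larger than the indices in the support of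
u (i-1) and δ half of this number, and approximate x by a vector with coefficients in Q and support in the support of x (Q is dense in 𝕜 since it contains the
rationals and I; both sides are continuous on the finite dimensional space; the inequality is strict). For x = comb u a:
norm (...) ≤ ∑ norm (a i) η/(8K) (1/2)^i norm (vec e (u i)) ≤ η/(8K) * 2 * 2 K * norm (vec e x) (bc_block, bc_coef for seqOf e u; finite geometric sum ≤ 2).
Every x in sp u is comb u a (Finsupp.mem_span_range_iff_exists_finsupp).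
STEP 2. Let S1 = norm T, take η and ε small: η = 1/16 * min(1, s1, s2)..., precisely: let u be from STEP 1 for σ = s1, v for σ = -s2. hHI
gives x in sp u, y in sp v with norm (r) < ε norm (m), where m = vec e (x + y), r = vec e (x - y); so norm m > 0. vec e x = (m + r)/2, vec e y = (m - r)/2, so
norm (vec e x), norm (vec e y) ≤ norm m (ε ≤ 1). From (*): norm (m + s1 T m) ≤ 2 norm (vec e x + s1 T (vec e x)) + norm r + s1 S1 norm r
≤ (2 η + (1 + s1 S1) ε) norm m, similarly norm (m - s2 T m) ≤ (2 η + (1 + s2 S1) ε) norm m.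
(s1 + s2) m = s2 (m + s1 T m) + s1 (m - s2 T m), so (s1 + s2) norm m ≤ (s1 + s2) (2 η + (1 + (s1 + s2) S1) ε) norm m. With η = 1/8,
ε = 1 / (4 (1 + (s1 + s2) S1)) ≤ 1 the factor is ≤ 1/4 + 1/4 < 1: a contradiction.
-/

namespace Pool.Agent.EBM

open Finsupp Filter Topology

section
variable {𝕜 : Type*} [RCLike 𝕜] {X : Type*} [NormedAddCommGroup X] [NormedSpace 𝕜 X]

theorem ua_dense (Q : Subfield 𝕜) (hQI : RCLike.I ∈ Q) : Dense (Q : Set 𝕜) := by
  intro z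
  rw [Metric.mem_closure_iff]
  intro ε hε
  obtain ⟨q1, h1⟩ := exists_rat_near (RCLike.re z) (show (0 : ℝ) < ε / 2 by positivity)
  obtain ⟨q2, h2⟩ := exists_rat_near (RCLike.im z) (show (0 : ℝ) < ε / 2 by positivity)
  refine ⟨(q1 : 𝕜) + (q2 : 𝕜) * RCLike.I, ?_, ?_⟩
  · refine Q.add_mem ?_ (Q.mul_mem ?_ hQI)
    · exact SubfieldClass.ratCast_mem Q q1
    · exact SubfieldClass.ratCast_mem Q q2
  · rw [dist_eq_norm]
    have hz : z = ((RCLike.re z : ℝ) : 𝕜) + ((RCLike.im z : ℝ) : 𝕜) * RCLike.I :=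
      (RCLike.re_add_im z).symm
    have h3 : z - ((q1 : 𝕜) + (q2 : 𝕜) * RCLike.I) =
        (((RCLike.re z - q1 : ℝ)) : 𝕜) + (((RCLike.im z - q2 : ℝ)) : 𝕜) * RCLike.I := by
      push_cast
      linear_combination hz
    rw [h3]
    calc _ ≤ ‖(((RCLike.re z - q1 : ℝ)) : 𝕜)‖ + ‖(((RCLike.im z - q2 : ℝ)) : 𝕜) * RCLike.I‖ :=
          norm_add_le _ _
      _ ≤ |RCLike.re z - q1| + |RCLike.im z - q2| * 1 := by
          rw [norm_mul, RCLike.norm_ofReal, RCLike.norm_ofReal]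
          gcongr
          rw [RCLike.norm_I]
          split_ifs <;> norm_num
      _ < ε := by
          have := h1
          have := h2
          linarith

theorem ua_approx (e : ℕ → X) (Q : Subfield 𝕜) (hQI : RCLike.I ∈ Q) (A : X →L[𝕜] X)
    {δ : ℝ} {n : ℕ} (x : ℕ →₀ 𝕜) (hx : Above x n)
    (h : ‖A (vec e x)‖ < δ * ‖vec e x‖) :
    ∃ y : ℕ →₀ 𝕜, (∀ i, y i ∈ Q) ∧ Above y n ∧ y ≠ 0 ∧
      ‖A (vec e y)‖ ≤ δ * ‖vec e y‖ := by
  classical
  let g : (x.support → 𝕜) → X := fun t => ∑ i : x.support, t i • e i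
  have hg : Continuous g := by
    refine continuous_finset_sum _ (fun i _ => ?_)
    exact (continuous_apply i).smul continuous_const
  have hgx : g (fun i => x i) = vec e x := by
    rw [vec_eq_sum]
    exact Finset.sum_coe_sort x.support (fun i => x i • e i)
  have hopen : IsOpen {t : x.support → 𝕜 | ‖A (g t)‖ < δ * ‖g t‖} :=
    isOpen_lt ((A.continuous.comp hg).norm) (continuous_const.mul hg.norm)
  have hne : {t : x.support → 𝕜 | ‖A (g t)‖ < δ * ‖g t‖}.Nonempty :=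
    ⟨fun i => x i, by
      show ‖A (g fun i => x i)‖ < δ * ‖g fun i => x i‖
      rw [hgx]; exact h⟩
  have hd : Dense (Set.univ.pi (fun _ : x.support => (Q : Set 𝕜))) :=
    dense_pi _ (fun _ _ => ua_dense Q hQI)
  obtain ⟨t, ht1, ht2⟩ := hd.inter_open_nonempty _ hopen hne
  let y : ℕ →₀ 𝕜 := ∑ i : x.support, single (i : ℕ) (t i)
  have hy : vec e y = g t := by
    show vec e (∑ i : x.support, single (i : ℕ) (t i)) = _
    unfold vec
    rw [map_sum]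
    simp only [Finsupp.linearCombination_single]
    rfl
  have ht1' : ‖A (g t)‖ < δ * ‖g t‖ := ht1
  refine ⟨y, ?_, ?_, ?_, ?_⟩
  · intro i
    show (∑ j : x.support, single (j : ℕ) (t j)) i ∈ Q
    rw [Finsupp.finset_sum_apply]
    refine Q.sum_mem (fun j _ => ?_)
    rw [Finsupp.single_apply]
    split_ifs
    · exact ht2 j (Set.mem_univ _)
    · exact Q.zero_mem
  · intro i hi
    by_contra hlt
    rw [Finsupp.mem_support_iff] at hi
    apply hi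
    show (∑ j : x.support, single (j : ℕ) (t j)) i = 0
    rw [Finsupp.finset_sum_apply]
    apply Finset.sum_eq_zero
    intro j _
    rw [Finsupp.single_apply, if_neg]
    intro hji
    have := hx j j.2
    omega
  · intro h0
    rw [← hy, h0, vec_zero, map_zero, norm_zero, mul_zero] at ht1'
    exact lt_irrefl _ ht1'
  · rw [hy]
    exact ht1'.le

theorem ua_step {e : ℕ → X} {K : ℝ} (hK : 1 ≤ K) (hBC : BC 𝕜 K e) (Q : Subfield 𝕜)
    (hQI : RCLike.I ∈ Q) (A : X →L[𝕜] X)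
    (h : ∀ n : ℕ, ∀ δ : ℝ, 0 < δ → ∃ x : ℕ →₀ 𝕜, Above x n ∧
      ‖A (vec e x)‖ < δ * ‖vec e x‖) {η : ℝ} (hη : 0 < η) :
    ∃ u : ℕ → (ℕ →₀ 𝕜), RB Q u ∧ ∀ x ∈ sp u, ‖A (vec e x)‖ ≤ η * ‖vec e x‖ := by
  classical
  have hK0 : 0 < K := by linarith
  have hF : ∀ n k : ℕ, ∃ y : ℕ →₀ 𝕜, (∀ i, y i ∈ Q) ∧ Above y n ∧ y ≠ 0 ∧
      ‖A (vec e y)‖ ≤ (η / (8 * K) * (1 / 2) ^ k) * ‖vec e y‖ := by
    intro n k
    obtain ⟨x, hx1, hx2⟩ := h n (η / (8 * K) * (1 / 2) ^ k) (by positivity)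
    exact ua_approx e Q hQI A x hx1 hx2
  choose F hF1 hF2 hF3 hF4 using hF
  let u : ℕ → (ℕ →₀ 𝕜) := fun k =>
    Nat.rec (F 0 0) (fun k v => F (v.support.sup id + 1) (k + 1)) k
  have hu0 : u 0 = F 0 0 := rfl
  have hus : ∀ k, u (k + 1) = F ((u k).support.sup id + 1) (k + 1) := fun k => rfl
  have huQ : ∀ k i, u k i ∈ Q := by
    intro k i
    cases k with
    | zero => rw [hu0]; exact hF1 _ _ _
    | succ k => rw [hus]; exact hF1 _ _ _
  have hune : ∀ k, u k ≠ 0 := by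
    intro k
    cases k with
    | zero => rw [hu0]; exact hF3 _ _
    | succ k => rw [hus]; exact hF3 _ _
  have huA : ∀ k, ‖A (vec e (u k))‖ ≤ (η / (8 * K) * (1 / 2) ^ k) * ‖vec e (u k)‖ := by
    intro k
    cases k with
    | zero => rw [hu0]; exact hF4 _ _
    | succ k => rw [hus]; exact hF4 _ _
  have hblock : Block u := by
    refine ⟨hune, fun k i hi j hj => ?_⟩
    rw [hus] at hj
    have h1 := hF2 _ _ j hj
    have h2 : i ≤ (u k).support.sup id := Finset.le_sup (f := id) hi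
    omega
  refine ⟨u, ⟨hblock, huQ⟩, ?_⟩
  intro x hx
  obtain ⟨a, rfl⟩ := (Finsupp.mem_span_range_iff_exists_finsupp).mp hx
  have hxa : (a.sum fun i c => c • u i) = comb u a := by
    simp [comb, Finsupp.linearCombination_apply]
  rw [hxa]
  have h1 : A (vec e (comb u a)) = ∑ k ∈ a.support, a k • A (vec e (u k)) := by
    rw [← vec_seqOf, vec_eq_sum, map_sum]
    simp only [map_smul]
    rfl
  rw [h1]
  have h2 : ∀ k ∈ a.support, ‖a k • A (vec e (u k))‖ ≤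
      η / 4 * ‖vec e (comb u a)‖ * (1 / 2) ^ k := by
    intro k _
    rw [norm_smul]
    have h3 := bc_coef (bc_block hBC hblock) a k
    rw [vec_seqOf] at h3
    calc ‖a k‖ * ‖A (vec e (u k))‖
        ≤ ‖a k‖ * ((η / (8 * K) * (1 / 2) ^ k) * ‖vec e (u k)‖) :=
          mul_le_mul_of_nonneg_left (huA k) (norm_nonneg _)
      _ = (η / (8 * K) * (1 / 2) ^ k) * (‖a k‖ * ‖seqOf e u k‖) := by
          unfold seqOf; ring
      _ ≤ (η / (8 * K) * (1 / 2) ^ k) * (2 * K * ‖vec e (comb u a)‖) :=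
          mul_le_mul_of_nonneg_left h3 (by positivity)
      _ = η / 4 * ‖vec e (comb u a)‖ * (1 / 2) ^ k := by
          field_simp
          ring
  calc ‖∑ k ∈ a.support, a k • A (vec e (u k))‖
      ≤ ∑ k ∈ a.support, ‖a k • A (vec e (u k))‖ := norm_sum_le _ _
    _ ≤ ∑ k ∈ a.support, η / 4 * ‖vec e (comb u a)‖ * (1 / 2) ^ k := Finset.sum_le_sum h2
    _ = η / 4 * ‖vec e (comb u a)‖ * ∑ k ∈ a.support, (1 / 2 : ℝ) ^ k := by
        rw [Finset.mul_sum]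
    _ ≤ η / 4 * ‖vec e (comb u a)‖ * 2 := by
        apply mul_le_mul_of_nonneg_left _ (by positivity)
        exact (summable_geometric_two.sum_le_tsum _ (fun _ _ => by positivity)).trans
          tsum_geometric_two.le
    _ ≤ η * ‖vec e (comb u a)‖ := by
        have : 0 ≤ η * ‖vec e (comb u a)‖ := by positivity
        linarith

theorem no_hi {e : ℕ → X} (he : SchauderBasis 𝕜 e) {K : ℝ} (hK : 1 ≤ K)
    (hBC : BC 𝕜 K e) (Q : Subfield 𝕜) (hQI : RCLike.I ∈ Q) (T : X →L[𝕜] X)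
    {s1 s2 : ℝ} (hs1 : 0 < s1) (hs2 : 0 < s2)
    (h1 : ∀ n : ℕ, ∀ δ : ℝ, 0 < δ → ∃ x : ℕ →₀ 𝕜, Above x n ∧
      ‖vec e x + (s1 : 𝕜) • T (vec e x)‖ < δ * ‖vec e x‖)
    (h2 : ∀ n : ℕ, ∀ δ : ℝ, 0 < δ → ∃ x : ℕ →₀ 𝕜, Above x n ∧
      ‖vec e x + (-(s2 : 𝕜)) • T (vec e x)‖ < δ * ‖vec e x‖)
    (hHI : ∀ ε : ℝ, 0 < ε → ∀ u v : ℕ → (ℕ →₀ 𝕜), RB Q u → RB Q v →
      ∃ x ∈ sp u, ∃ y ∈ sp v, ‖vec e (x - y)‖ < ε * ‖vec e (x + y)‖) :
    False := by
  classical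
  set S : ℝ := ‖T‖ with hS
  have hS0 : 0 ≤ S := norm_nonneg _
  set A1 : X →L[𝕜] X := ContinuousLinearMap.id 𝕜 X + (s1 : 𝕜) • T with hA1
  set A2 : X →L[𝕜] X := ContinuousLinearMap.id 𝕜 X + (-(s2 : 𝕜)) • T with hA2
  have hA1x : ∀ x, A1 x = x + (s1 : 𝕜) • T x := fun x => by simp [hA1]
  have hA2x : ∀ x, A2 x = x + (-(s2 : 𝕜)) • T x := fun x => by simp [hA2]
  obtain ⟨u, hu, hu2⟩ := ua_step hK hBC Q hQI A1 (by simpa only [hA1x] using h1)
    (show (0 : ℝ) < 1 / 8 by norm_num)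
  obtain ⟨v, hv, hv2⟩ := ua_step hK hBC Q hQI A2 (by simpa only [hA2x] using h2)
    (show (0 : ℝ) < 1 / 8 by norm_num)
  set ε : ℝ := 1 / (4 * (1 + (s1 + s2) * S)) with hε
  have hden : 0 < 4 * (1 + (s1 + s2) * S) := by positivity
  have hε0 : 0 < ε := by positivity
  have hε1 : ε ≤ 1 := by
    rw [hε, div_le_one hden]
    nlinarith [mul_nonneg (add_pos hs1 hs2).le hS0]
  obtain ⟨x, hx, y, hy, hxy⟩ := hHI ε hε0 u v hu hv
  set m : X := vec e (x + y) with hm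
  set r : X := vec e (x - y) with hr
  have hm0 : 0 < ‖m‖ := by
    by_contra h0
    have h0' : ‖m‖ = 0 := le_antisymm (not_lt.mp h0) (norm_nonneg _)
    rw [h0', mul_zero] at hxy
    exact absurd (norm_nonneg r) (not_le.mpr hxy)
  have hvx : vec e x + vec e y = m := by rw [hm, vec_add]
  have hvy : vec e x - vec e y = r := by rw [hr, vec_sub]
  have h2x : (2 : 𝕜) • vec e x = m + r := by rw [← hvx, ← hvy, two_smul]; abel
  have h2y : (2 : 𝕜) • vec e y = m - r := by rw [← hvx, ← hvy, two_smul]; abel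
  have hrm : ‖r‖ ≤ ‖m‖ := by nlinarith
  have hnx : ‖vec e x‖ ≤ ‖m‖ := by
    have h3 : ‖(2 : 𝕜) • vec e x‖ ≤ ‖m‖ + ‖r‖ := by rw [h2x]; exact norm_add_le _ _
    rw [norm_smul, RCLike.norm_ofNat] at h3
    linarith
  have hny : ‖vec e y‖ ≤ ‖m‖ := by
    have h3 : ‖(2 : 𝕜) • vec e y‖ ≤ ‖m‖ + ‖r‖ := by rw [h2y]; exact norm_sub_le _ _
    rw [norm_smul, RCLike.norm_ofNat] at h3
    linarith
  have hA1r : ‖A1 r‖ ≤ (1 + s1 * S) * ‖r‖ := by
    rw [hA1x]
    calc ‖r + (s1 : 𝕜) • T r‖ ≤ ‖r‖ + ‖(s1 : 𝕜) • T r‖ := norm_add_le _ _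
      _ ≤ ‖r‖ + s1 * (S * ‖r‖) := by
          rw [norm_smul, RCLike.norm_ofReal, abs_of_pos hs1]
          gcongr
          exact T.le_opNorm r
      _ = (1 + s1 * S) * ‖r‖ := by ring
  have hA2r : ‖A2 r‖ ≤ (1 + s2 * S) * ‖r‖ := by
    rw [hA2x]
    calc ‖r + (-(s2 : 𝕜)) • T r‖ ≤ ‖r‖ + ‖(-(s2 : 𝕜)) • T r‖ := norm_add_le _ _
      _ ≤ ‖r‖ + s2 * (S * ‖r‖) := by
          rw [norm_smul, norm_neg, RCLike.norm_ofReal, abs_of_pos hs2]
          gcongr
          exact T.le_opNorm r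
      _ = (1 + s2 * S) * ‖r‖ := by ring
  have hm1 : ‖A1 m‖ ≤ (1 / 4 + (1 + s1 * S) * ε) * ‖m‖ := by
    have h3 : A1 m = (2 : 𝕜) • A1 (vec e x) - A1 r := by
      rw [← map_smul, h2x, map_add]; abel
    have h4 : ‖(2 : 𝕜) • A1 (vec e x)‖ ≤ 1 / 4 * ‖m‖ := by
      rw [norm_smul, RCLike.norm_ofNat]
      have := hu2 x hx
      linarith
    calc ‖A1 m‖ ≤ ‖(2 : 𝕜) • A1 (vec e x)‖ + ‖A1 r‖ := by rw [h3]; exact norm_sub_le _ _
      _ ≤ 1 / 4 * ‖m‖ + (1 + s1 * S) * (ε * ‖m‖) := by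
          refine add_le_add h4 (hA1r.trans ?_)
          exact mul_le_mul_of_nonneg_left hxy.le (by positivity)
      _ = (1 / 4 + (1 + s1 * S) * ε) * ‖m‖ := by ring
  have hm2 : ‖A2 m‖ ≤ (1 / 4 + (1 + s2 * S) * ε) * ‖m‖ := by
    have h3 : A2 m = (2 : 𝕜) • A2 (vec e y) + A2 r := by
      rw [← map_smul, h2y, map_sub]; abel
    have h4 : ‖(2 : 𝕜) • A2 (vec e y)‖ ≤ 1 / 4 * ‖m‖ := by
      rw [norm_smul, RCLike.norm_ofNat]
      have := hv2 y hy
      linarith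
    calc ‖A2 m‖ ≤ ‖(2 : 𝕜) • A2 (vec e y)‖ + ‖A2 r‖ := by rw [h3]; exact norm_add_le _ _
      _ ≤ 1 / 4 * ‖m‖ + (1 + s2 * S) * (ε * ‖m‖) := by
          refine add_le_add h4 (hA2r.trans ?_)
          exact mul_le_mul_of_nonneg_left hxy.le (by positivity)
      _ = (1 / 4 + (1 + s2 * S) * ε) * ‖m‖ := by ring
  have hcomb : ((s1 + s2 : ℝ) : 𝕜) • m = (s2 : 𝕜) • A1 m + (s1 : 𝕜) • A2 m := by
    rw [hA1x, hA2x]
    push_cast
    module
  have hfin : (s1 + s2) * ‖m‖ ≤ s2 * ‖A1 m‖ + s1 * ‖A2 m‖ := by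
    have h3 : ‖((s1 + s2 : ℝ) : 𝕜) • m‖ = (s1 + s2) * ‖m‖ := by
      rw [norm_smul, RCLike.norm_ofReal, abs_of_pos (by positivity)]
    rw [← h3, hcomb]
    refine (norm_add_le _ _).trans ?_
    rw [norm_smul, norm_smul, RCLike.norm_ofReal, RCLike.norm_ofReal, abs_of_pos hs1,
      abs_of_pos hs2]
  have hb : (1 + (s1 + s2) * S) * ε = 1 / 4 := by
    rw [hε]
    have : (1 + (s1 + s2) * S) ≠ 0 := by positivity
    field_simp
  have hc1 : (1 + s1 * S) * ε ≤ 1 / 4 := by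
    rw [← hb]
    apply mul_le_mul_of_nonneg_right _ hε0.le
    nlinarith [mul_nonneg hs2.le hS0]
  have hc2 : (1 + s2 * S) * ε ≤ 1 / 4 := by
    rw [← hb]
    apply mul_le_mul_of_nonneg_right _ hε0.le
    nlinarith [mul_nonneg hs1.le hS0]
  have hd1 : ‖A1 m‖ ≤ 1 / 2 * ‖m‖ := hm1.trans
    (mul_le_mul_of_nonneg_right (by linarith) hm0.le)
  have hd2 : ‖A2 m‖ ≤ 1 / 2 * ‖m‖ := hm2.trans
    (mul_le_mul_of_nonneg_right (by linarith) hm0.le)
  have he1 : s2 * ‖A1 m‖ ≤ s2 * (1 / 2 * ‖m‖) := mul_le_mul_of_nonneg_left hd1 hs2.le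
  have he2 : s1 * ‖A2 m‖ ≤ s1 * (1 / 2 * ‖m‖) := mul_le_mul_of_nonneg_left hd2 hs1.le
  have hpos : 0 < (s1 + s2) * ‖m‖ := by positivity
  nlinarith

end

end Pool.Agent.EBM
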