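import Pool.Agent.EBM.U5

/-!
MODULE UB (difficulty 2). The operator given by an equivalence.
Proof. Let C be the constant: norm (vec (seqOf e d) a) ≤ C norm (vec e a) and norm (vec e a) ≤ C norm (vec (seqOf e d) a), e = b.basis. The linear map
vec e a ↦ vec (seqOf e d) a on the span of e is well defined (vec e is injective on finitely supported vectors:
b.linearIndependent, or schauder_of and SchauderBasis.vec_inj) and bounded by C; the span is dense in X (SchauderBasis.cspan_eq_top, or the
convergence of the b.proj n x), so it extends to T : X →L[𝕜] X (ContinuousLinearMap.extend / LinearMap.extendOfNorm; or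
define T x as the limit of vec (seqOf e d) (coefficients of proj n x), a Cauchy sequence). The lower bound (1/C) norm x ≤ norm (T x) holds on the
dense span, hence on X by continuity. T (b k) = vec e (d k): a = single k 1.
-/

namespace Pool.Agent.EBM

open Finsupp Filter Topology

section
variable {𝕜 : Type*} [RCLike 𝕜] {X : Type*} [NormedAddCommGroup X] [NormedSpace 𝕜 X]

theorem exists_op [CompleteSpace X] (b : _root_.SchauderBasis 𝕜 X) (d : ℕ → (ℕ →₀ 𝕜))
    (h : Equivalent 𝕜 (seqOf b.basis d) b.basis) :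
    ∃ T : X →L[𝕜] X, (∀ k, T (b.basis k) = vec b.basis (d k)) ∧
      ∃ c : ℝ, 0 < c ∧ ∀ x, c * ‖x‖ ≤ ‖T x‖ := by
  obtain ⟨C, hC, h⟩ := h
  set e : (ℕ →₀ 𝕜) →ₗ[𝕜] X := Finsupp.linearCombination 𝕜 b.basis with he
  set f : (ℕ →₀ 𝕜) →ₗ[𝕜] X := Finsupp.linearCombination 𝕜 (seqOf b.basis d) with hf
  have hdense : DenseRange e := by
    have h1 := (schauder_of b).cspan_eq_top
    have h2 : (LinearMap.range e) = Submodule.span 𝕜 (Set.range b.basis) :=
      Finsupp.range_linearCombination 𝕜
    intro x
    have h3 : x ∈ cspan 𝕜 b.basis := by rw [h1]; exact Submodule.mem_top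
    unfold cspan at h3
    rw [← SetLike.mem_coe, Submodule.topologicalClosure_coe, ← h2] at h3
    exact h3
  have hb : ∀ a, ‖f a‖ ≤ C * ‖e a‖ := fun a => (h a).1
  have hb2 : ∀ a, ‖e a‖ ≤ C * ‖f a‖ := fun a => (h a).2
  set T : X →L[𝕜] X := f.extendOfNorm e with hT
  have hTe : ∀ a, T (e a) = f a := fun a => LinearMap.extendOfNorm_eq hdense ⟨C, hb⟩ a
  refine ⟨T, fun k => ?_, C⁻¹, inv_pos.mpr hC, fun x => ?_⟩
  · have h1 := hTe (single k 1)
    simp only [he, hf, Finsupp.linearCombination_single, one_smul] at h1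
    exact h1
  · refine hdense.induction_on (p := fun x => C⁻¹ * ‖x‖ ≤ ‖T x‖) x ?_ ?_
    · exact isClosed_le (continuous_const.mul continuous_norm) (T.continuous.norm)
    · intro a
      show C⁻¹ * ‖e a‖ ≤ ‖T (e a)‖
      rw [hTe]
      rw [inv_mul_le_iff₀ hC]
      exact hb2 a

end

end Pool.Agent.EBM
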