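import Pool.Agent.EBM.U7
import Pool.Agent.EBM.U8
import Pool.Agent.EBM.U9
import Pool.Agent.EBM.UA
import Pool.Agent.EBM.UB
import Pool.Agent.EBM.Lim

/-!
Equivalence block minimal bases are unconditional, and the main theorem without the hypothesis of an
unconditional block sequence.
-/

namespace Pool.Agent.EBM

open Finsupp Filter Topology

section
variable {𝕜 : Type*} [RCLike 𝕜] {X : Type*} [NormedAddCommGroup X] [NormedSpace 𝕜 X]

theorem uc_not_surj (b : _root_.SchauderBasis 𝕜 X) (T : X →L[𝕜] X)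
    (hT : ∀ k, ∃ d : ℕ →₀ 𝕜, Above d (k + 1) ∧ T (b.basis k) = vec b.basis d) :
    ¬ Function.Surjective T := by
  intro hs
  have h1 : ∀ k, b.coord 0 (T (b.basis k)) = 0 := by
    intro k
    obtain ⟨d, hd, h⟩ := hT k
    rw [h, vec_eq_sum, map_sum]
    refine Finset.sum_eq_zero ?_
    intro i hi
    have h2 := hd i hi
    rw [map_smul, b.ortho]
    have h3 : (0 : ℕ) ≠ i := by omega
    simp [Pi.single_apply, h3]
  have h2 : ∀ x, b.coord 0 (T x) = 0 := by
    intro x
    have h3 : Tendsto (fun n => b.coord 0 (T (b.proj n x))) atTop (𝓝 (b.coord 0 (T x))) :=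
      (((b.coord 0).continuous.comp T.continuous).tendsto x).comp (b.tendsto_proj x)
    have h4 : (fun n => b.coord 0 (T (b.proj n x))) = fun _ => 0 := by
      funext n
      rw [_root_.SchauderBasis.proj_apply, map_sum, map_sum]
      refine Finset.sum_eq_zero ?_
      intro i _
      rw [map_smul, map_smul]
      change _ • (b.coord 0) (T (b.basis i)) = 0
      rw [h1 i, smul_zero]
    rw [h4] at h3
    exact tendsto_nhds_unique h3 tendsto_const_nhds
  obtain ⟨x, hx⟩ := hs (b.basis 0)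
  have h3 := h2 x
  rw [hx, b.ortho] at h3
  simp at h3

/-- A basis which is equivalent to a further block sequence of each block sequence is
unconditional. -/
theorem unconditional_basis [CompleteSpace X] (b : _root_.SchauderBasis 𝕜 X) (Q : Subfield 𝕜)
    (hQc : Countable Q) (hQI : RCLike.I ∈ Q)
    (hmin : ∀ c : ℕ → (ℕ →₀ 𝕜), Block c → ∃ d : ℕ → (ℕ →₀ 𝕜), Block d ∧
      Equivalent 𝕜 (seqOf (seqOf b.basis c) d) b.basis) :
    ∃ c : ℕ → (ℕ →₀ 𝕜), Block c ∧ Unconditional 𝕜 (seqOf b.basis c) := by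
  by_contra hno
  have hno' : ∀ c : ℕ → (ℕ →₀ 𝕜), Block c → ¬ Unconditional 𝕜 (seqOf b.basis c) :=
    fun c hc hu => hno ⟨c, hc, hu⟩
  have he := schauder_of b
  obtain ⟨K, hK, hBC⟩ := bc_of b
  have hB : Block (fun k : ℕ => (single (k + 1) 1 : ℕ →₀ 𝕜)) := by
    refine ⟨fun k => ?_, fun k i hi j hj => ?_⟩
    · simp
    · rw [Finsupp.support_single_ne_zero _ one_ne_zero, Finset.mem_singleton] at hi hj
      omega
  obtain ⟨d, hd, heq⟩ := hmin _ hB
  rw [seqOf_seqOf] at heq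
  obtain ⟨T, hT, c, hc, hlow⟩ := exists_op b _ heq
  have hT' : ∀ k, ∃ g : ℕ →₀ 𝕜, Above g (k + 1) ∧ T (b.basis k) = vec b.basis g := by
    intro k
    refine ⟨_, ?_, hT k⟩
    intro i hi
    obtain ⟨j, hj, hji⟩ := mem_support_comb hi
    rw [Finsupp.support_single_ne_zero _ one_ne_zero, Finset.mem_singleton] at hji
    have h1 : ∀ m, ∀ j ∈ (d m).support, m ≤ j := by
      intro m
      induction m with
      | zero => intro j _; exact Nat.zero_le _
      | succ m ih =>
        intro j hj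
        obtain ⟨i', hi'⟩ := Finsupp.support_nonempty_iff.mpr (hd.1 m)
        have h2 := ih i' hi'
        have h3 := hd.2 m i' hi' j hj
        omega
    have h2 := h1 k j hj
    omega
  have hns := uc_not_surj b T hT'
  obtain ⟨s1, hs1, h1⟩ := exists_singular T hc hlow hns
  have hlow2 : ∀ x, c * ‖x‖ ≤ ‖(-T) x‖ := by
    intro x
    rw [_root_.neg_apply, norm_neg]
    exact hlow x
  have hns2 : ¬ Function.Surjective (-T) := by
    intro hs
    apply hns
    intro y
    obtain ⟨x, hx⟩ := hs y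
    refine ⟨-x, ?_⟩
    rw [map_neg]
    exact hx
  obtain ⟨s2, hs2, h2⟩ := exists_singular (-T) hc hlow2 hns2
  refine no_hi he hK hBC Q hQI T hs1 hs2 ?_ ?_ ?_
  · intro n δ hδ
    exact singular_tails b T hT' (s1 : 𝕜) h1 n hδ
  · intro n δ hδ
    refine singular_tails b T hT' (-(s2 : 𝕜)) ?_ n hδ
    intro δ hδ
    obtain ⟨x, hx⟩ := h2 δ hδ
    refine ⟨x, ?_⟩
    have h3 : (-(s2 : 𝕜)) • T x = (s2 : 𝕜) • (-T) x := by
      rw [_root_.neg_apply, smul_neg, neg_smul]
    rw [h3]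
    exact hx
  · intro ε hε u v hu hv
    exact hi_all he hK hBC Q hQc hQI hmin hno' hε u v hu hv

theorem main_theorem2 [CompleteSpace X] (b : _root_.SchauderBasis 𝕜 X) (Q : Subfield 𝕜)
    (hQc : Countable Q) (hQI : RCLike.I ∈ Q)
    (hQn : ∀ c : ℕ →₀ 𝕜, (∀ i, c i ∈ Q) → ((‖vec b.basis c‖ : ℝ) : 𝕜) ∈ Q)
    (hmin : ∀ c : ℕ → (ℕ →₀ 𝕜), Block c → ∃ d : ℕ → (ℕ →₀ 𝕜), Block d ∧
      Equivalent 𝕜 (seqOf (seqOf b.basis c) d) b.basis) :
    BlockMinimal 𝕜 b.basis ∧ IsRel b.basis Q ∈ residual (bX b.basis Q × bX b.basis Q) ∧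
      ¬ IsMeagre (IsRel b.basis Q) :=
  main_theorem (schauder_of b) Q hQc hQI hQn hmin (unconditional_basis b Q hQc hQI hmin)

end

end Pool.Agent.EBM
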